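import Mathlib

set_option autoImplicit false

open Finset

namespace Pool.Agent.H587.PG

/-- the distance to the nearest integer -/
noncomputable def nint (x : ℝ) : ℝ := |x - round x|

lemma nint_nonneg (x : ℝ) : 0 ≤ nint x := abs_nonneg _

lemma nint_le (x : ℝ) (b : ℤ) : nint x ≤ |x - b| := round_le x b

/-- the denominators of the block `s` which are relevant at level `n` -/
def TQ (α ε : ℝ) (L : ℕ → ℝ) (n s : ℕ) : Set ℕ :=
  {q | 2 ^ s ≤ q ∧ q < 2 ^ (s + 1) ∧ nint (q * α) * (4 ^ s * L s) ≤ ε * 2 ^ n}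

/-- the digit strings removed at level `n` -/
def R1 (α γ ε : ℝ) (L : ℕ → ℝ) (n : ℕ) : Set ℕ :=
  {W | ∃ s : ℕ, s ≤ n ∧ ε * 2 ^ n ≤ 4 ^ s * L s ∧
    ∃ q ∈ TQ α ε L n s, ∃ b : ℤ, |(W : ℝ) - 2 ^ n * ((b + γ) / q)| ≤ 2}

/-- the conditions for the rate function -/
def Rate (L : ℕ → ℝ) (c' : ℝ) : Prop := Monotone L ∧ ∀ s : ℕ, ((s : ℝ) + 1) ^ c' ≤ L s

/-- the Diophantine condition for `α` -/
def Dio (α κ c' : ℝ) : Prop :=
  0 < κ ∧ 0 ≤ c' ∧ ∀ q : ℕ, 1 ≤ q → κ ≤ q * ((Nat.log 2 q : ℝ) + 1) ^ c' * nint (q * α)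

lemma card_le_of_sep {ι : Type} (T : Finset ι) (φ : ι → ℝ) (a ℓ δ : ℝ) (hδ : 0 < δ)
    (h1 : ∀ i ∈ T, a ≤ φ i ∧ φ i ≤ a + ℓ)
    (h2 : ∀ i ∈ T, ∀ j ∈ T, i ≠ j → δ ≤ |φ i - φ j|) (hℓ : 0 ≤ ℓ) : (T.card : ℝ) ≤ ℓ / δ + 1 := by
  have h3 : T.card ≤ (range (⌊ℓ / δ⌋₊ + 1)).card := by
    apply card_le_card_of_injOn (fun i => ⌊(φ i - a) / δ⌋₊)
    · intro i hi
      have h4 := h1 i hi
      simp only [coe_range, Set.mem_Iio, Nat.lt_succ_iff]
      apply Nat.floor_le_floor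
      gcongr
      linarith
    · intro i hi j hj hij
      by_contra hne
      have h5 := h2 i hi j hj hne
      have h6 := h1 i hi
      have h7 := h1 j hj
      simp only at hij
      have h8 := Nat.floor_le (show 0 ≤ (φ i - a) / δ by apply div_nonneg _ hδ.le; linarith)
      have h9 := Nat.lt_floor_add_one ((φ i - a) / δ)
      have h10 := Nat.floor_le (show 0 ≤ (φ j - a) / δ by apply div_nonneg _ hδ.le; linarith)
      have h11 := Nat.lt_floor_add_one ((φ j - a) / δ)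
      rw [hij] at h8 h9
      have h12 : |(φ i - a) / δ - (φ j - a) / δ| < 1 := by
        rw [abs_lt]; constructor <;> linarith
      rw [← sub_div, abs_div, abs_of_pos hδ, div_lt_one hδ] at h12
      have : φ i - a - (φ j - a) = φ i - φ j := by ring
      rw [this] at h12
      linarith
  rw [card_range] at h3
  have h4 : ((T.card : ℕ) : ℝ) ≤ ((⌊ℓ / δ⌋₊ + 1 : ℕ) : ℝ) := by exact_mod_cast h3
  refine h4.trans ?_
  push_cast
  have := Nat.floor_le (div_nonneg hℓ hδ.le)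
  linarith

/-- integers near a point -/
lemma card_near (X : Finset ℕ) (y : ℝ) (h : ∀ W ∈ X, |(W : ℝ) - y| ≤ 2) : (X.card : ℝ) ≤ 5 := by
  have h1 := card_le_of_sep X (fun W : ℕ => (W : ℝ)) (y - 2) 4 1 one_pos
    (fun W hW => by
      have := h W hW
      rw [abs_le] at this
      constructor <;> linarith)
    (fun W _ V _ hne => by
      have : (1 : ℤ) ≤ |(W : ℤ) - V| := Int.one_le_abs (by omega)
      have h2 : ((1 : ℤ) : ℝ) ≤ ((|(W : ℤ) - V| : ℤ) : ℝ) := by exact_mod_cast this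
      push_cast at h2
      exact h2) (by norm_num)
  linarith

end Pool.Agent.H587.PG
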