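import Mathlib
import Pool.Agent.H587.PG.Defs

set_option autoImplicit false

open Finset

namespace Pool.Agent.H587.PG

/-! `count_q` and `count_abs` (proof: helper164; general rate function: helper969) -/

lemma nint_sub_le (x y : ℝ) : nint (x - y) ≤ nint x + nint y := by
  have h := nint_le (x - y) (round x - round y)
  refine h.trans ?_
  have e : x - y - ((round x - round y : ℤ) : ℝ) = (x - round x) - (y - round y) := by
    push_cast; ring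
  rw [e]
  unfold nint
  exact abs_sub _ _

lemma one_le_rp (s : ℕ) (c : ℝ) (hc : 0 ≤ c) : 1 ≤ ((s : ℝ) + 1) ^ c :=
  Real.one_le_rpow (by have : (0 : ℝ) ≤ s := Nat.cast_nonneg s; linarith) hc

lemma dio_le (α κ c' : ℝ) (hα : Dio α κ c') (s q : ℕ) (hq1 : 1 ≤ q) (hq2 : q < 2 ^ (s + 1)) :
    κ ≤ q * ((s : ℝ) + 1) ^ c' * nint (q * α) := by
  obtain ⟨hκ, hc, hD⟩ := hα
  refine (hD q hq1).trans ?_
  have h1 : Nat.log 2 q ≤ s := by
    have := Nat.log_lt_of_lt_pow (by omega) hq2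
    omega
  have h2 : ((Nat.log 2 q : ℝ) + 1) ^ c' ≤ ((s : ℝ) + 1) ^ c' := by
    apply Real.rpow_le_rpow (by positivity) _ hc
    have : ((Nat.log 2 q : ℕ) : ℝ) ≤ s := by exact_mod_cast h1
    linarith
  have := nint_nonneg (q * α)
  gcongr

theorem count_q (α κ c' : ℝ) (hα : Dio α κ c') (s : ℕ) (ρ : ℝ) (hρ : 0 ≤ ρ) (S : Finset ℕ)
    (hS : ∀ q ∈ S, 2 ^ s ≤ q ∧ q < 2 ^ (s + 1) ∧ nint (q * α) ≤ ρ) :
    (S.card : ℝ) ≤ 4 / κ * 2 ^ s * ρ * ((s : ℝ) + 1) ^ c' := by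
  have hκ := hα.1
  have hc := hα.2.1
  set L : ℝ := ((s : ℝ) + 1) ^ c' with hL
  have hL1 : 1 ≤ L := one_le_rp s c' hc
  rcases S.eq_empty_or_nonempty with h0 | ⟨q0, hq0⟩
  · rw [h0]
    simp only [card_empty, Nat.cast_zero]
    positivity
  obtain ⟨a1, a2, a3⟩ := hS q0 hq0
  have hpow : 1 ≤ 2 ^ s := Nat.one_le_two_pow
  have h1 := dio_le α κ c' hα s q0 (by omega) a2
  have h2 : κ ≤ 2 ^ (s + 1) * L * ρ := by
    refine h1.trans ?_
    have hq : (q0 : ℝ) ≤ 2 ^ (s + 1) := by exact_mod_cast a2.le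
    have := nint_nonneg (q0 * α)
    gcongr
  have hρ' : 0 < ρ := by
    rcases hρ.lt_or_eq with h | h
    · exact h
    · rw [← h, mul_zero] at h2; linarith
  have hδ : 0 < κ / (2 * ρ * L) := by positivity
  have h3 := card_le_of_sep S (fun q : ℕ => (q : ℝ)) (2 ^ s) (2 ^ s) (κ / (2 * ρ * L)) hδ
    (fun q hq => by
      obtain ⟨b1, b2, _⟩ := hS q hq
      refine ⟨by exact_mod_cast b1, ?_⟩
      have : (q : ℝ) ≤ 2 ^ (s + 1) := by exact_mod_cast b2.le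
      rw [pow_succ] at this
      linarith)
    (by
      have key : ∀ i ∈ S, ∀ j ∈ S, j < i → κ / (2 * ρ * L) ≤ |(i : ℝ) - j| := by
        intro i hi j hj hij
        obtain ⟨b1, b2, b3⟩ := hS i hi
        obtain ⟨d1, d2, d3⟩ := hS j hj
        have hd : (((i - j : ℕ)) : ℝ) = (i : ℝ) - j := by
          rw [Nat.cast_sub hij.le]
        have h4 := dio_le α κ c' hα s (i - j) (by omega) (by omega)
        have h5 : nint (((i - j : ℕ) : ℝ) * α) ≤ 2 * ρ := by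
          rw [hd, sub_mul]
          refine (nint_sub_le _ _).trans ?_
          linarith
        have h6 : κ ≤ ((i - j : ℕ) : ℝ) * (2 * ρ * L) := by
          refine h4.trans ?_
          calc ((i - j : ℕ) : ℝ) * L * nint (((i - j : ℕ) : ℝ) * α)
              ≤ ((i - j : ℕ) : ℝ) * L * (2 * ρ) := by gcongr
            _ = ((i - j : ℕ) : ℝ) * (2 * ρ * L) := by ring
        rw [div_le_iff₀ (by positivity)]
        rw [← hd, abs_of_nonneg (Nat.cast_nonneg _)]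
        exact h6
      intro i hi j hj hne
      rcases lt_or_gt_of_ne hne with h | h
      · rw [abs_sub_comm]
        exact key j hj i hi h
      · exact key i hi j hj h) (by positivity)
  refine h3.trans ?_
  have e1 : (2 : ℝ) ^ s / (κ / (2 * ρ * L)) = 2 / κ * 2 ^ s * ρ * L := by
    field_simp
  have e2 : (1 : ℝ) ≤ 2 / κ * 2 ^ s * ρ * L := by
    have e3 : 2 / κ * 2 ^ s * ρ * L = (2 ^ (s + 1) * L * ρ) / κ := by
      rw [pow_succ]; field_simp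
    rw [e3, le_div_iff₀ hκ, one_mul]
    exact h2
  rw [e1]
  have e4 : 4 / κ * 2 ^ s * ρ * L = 2 / κ * 2 ^ s * ρ * L + 2 / κ * 2 ^ s * ρ * L := by ring
  rw [e4]
  linarith

lemma card_bU {ι κ : Type} [DecidableEq κ] (T : Finset ι) (f : ι → Finset κ) (K : ℝ)
    (h : ∀ i ∈ T, ((f i).card : ℝ) ≤ K) : ((T.biUnion f).card : ℝ) ≤ T.card * K := by
  calc ((T.biUnion f).card : ℝ) ≤ ((∑ i ∈ T, (f i).card : ℕ) : ℝ) := by
        exact_mod_cast card_biUnion_le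
    _ = ∑ i ∈ T, ((f i).card : ℝ) := by push_cast; rfl
    _ ≤ ∑ _i ∈ T, K := sum_le_sum h
    _ = T.card * K := by simp [sum_const]

open Classical in
lemma count_block (α γ ε c' κ : ℝ) (L : ℕ → ℝ) (hL : Rate L c') (hα : Dio α κ c') (hε : 0 < ε)
    (n s : ℕ) :
    ((((range (2 ^ n)).filter (fun W : ℕ => ∃ q ∈ TQ α ε L n s, ∃ b : ℤ,
      |(W : ℝ) - 2 ^ n * ((b + γ) / q)| ≤ 2)).card : ℕ) : ℝ) ≤ 240 / κ * ε * 2 ^ n := by
  have hκ := hα.1
  have hc' := hα.2.1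
  have hL1 : 1 ≤ L s := (one_le_rp s c' hc').trans (hL.2 s)
  have hL0 : 0 < L s := lt_of_lt_of_le one_pos hL1
  set ρ : ℝ := ε * 2 ^ n / (4 ^ s * L s) with hρ
  have hρ0 : 0 ≤ ρ := by positivity
  set T : Finset ℕ := (range (2 ^ (s + 1))).filter (fun q => q ∈ TQ α ε L n s) with hT
  have hTc : (T.card : ℝ) ≤ 4 / κ * 2 ^ s * ρ * ((s : ℝ) + 1) ^ c' := by
    apply count_q α κ c' hα s ρ hρ0 T
    intro q hq
    have h1 := (mem_filter.1 hq).2
    refine ⟨h1.1, h1.2.1, ?_⟩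
    rw [hρ, le_div_iff₀ (by positivity)]
    exact h1.2.2
  set B : ℕ → Finset ℤ := fun q => Finset.Icc ⌈-2 * (q : ℝ) - γ⌉ ⌊3 * (q : ℝ) - γ⌋ with hB
  have hBc : ∀ q ∈ T, ((B q).card : ℝ) ≤ 12 * 2 ^ s := by
    intro q hq
    have h1 := (mem_filter.1 hq).2
    have hq1 : 1 ≤ q := le_trans Nat.one_le_two_pow h1.1
    have hq2 : (q : ℝ) ≤ 2 ^ (s + 1) := by exact_mod_cast h1.2.1.le
    have hq1' : (1 : ℝ) ≤ q := by exact_mod_cast hq1
    simp only [hB, Int.card_Icc]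
    have h2 : (((⌊3 * (q : ℝ) - γ⌋ + 1 - ⌈-2 * (q : ℝ) - γ⌉).toNat : ℕ) : ℝ) ≤ 5 * q + 1 := by
      have h3 : (((⌊3 * (q : ℝ) - γ⌋ + 1 - ⌈-2 * (q : ℝ) - γ⌉ : ℤ)) : ℝ) ≤ 5 * q + 1 := by
        push_cast
        have := Int.floor_le (3 * (q : ℝ) - γ)
        have := Int.le_ceil (-2 * (q : ℝ) - γ)
        linarith
      rcases le_total 0 (⌊3 * (q : ℝ) - γ⌋ + 1 - ⌈-2 * (q : ℝ) - γ⌉) with h4 | h4
      · have h5 : (((⌊3 * (q : ℝ) - γ⌋ + 1 - ⌈-2 * (q : ℝ) - γ⌉).toNat : ℤ)) =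
            ⌊3 * (q : ℝ) - γ⌋ + 1 - ⌈-2 * (q : ℝ) - γ⌉ := Int.toNat_of_nonneg h4
        have h6 : (((⌊3 * (q : ℝ) - γ⌋ + 1 - ⌈-2 * (q : ℝ) - γ⌉).toNat : ℕ) : ℝ) =
            (((⌊3 * (q : ℝ) - γ⌋ + 1 - ⌈-2 * (q : ℝ) - γ⌉ : ℤ)) : ℝ) := by
          rw [← Int.cast_natCast, h5]
        rw [h6]; exact h3
      · rw [Int.toNat_of_nonpos h4]
        simp only [Nat.cast_zero]
        positivity
    refine h2.trans ?_
    rw [pow_succ] at hq2
    linarith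
  set F : ℕ → ℤ → Finset ℕ := fun q b =>
    (range (2 ^ n)).filter (fun W : ℕ => |(W : ℝ) - 2 ^ n * ((b + γ) / q)| ≤ 2) with hF
  have hsub : (range (2 ^ n)).filter (fun W : ℕ => ∃ q ∈ TQ α ε L n s, ∃ b : ℤ,
      |(W : ℝ) - 2 ^ n * ((b + γ) / q)| ≤ 2) ⊆ T.biUnion (fun q => (B q).biUnion (F q)) := by
    intro W hW
    obtain ⟨hW1, q, hq, b, hb⟩ := mem_filter.1 hW
    have hW2 : (W : ℝ) ≤ 2 ^ n := by exact_mod_cast (mem_range.1 hW1).le
    have hW0 : (0 : ℝ) ≤ W := Nat.cast_nonneg W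
    have hq1 : 1 ≤ q := le_trans Nat.one_le_two_pow hq.1
    have hq1' : (0 : ℝ) < q := by exact_mod_cast hq1
    have hn1 : (1 : ℝ) ≤ 2 ^ n := one_le_pow₀ (by norm_num)
    rw [mem_biUnion]
    refine ⟨q, mem_filter.2 ⟨mem_range.2 hq.2.1, hq⟩, ?_⟩
    rw [mem_biUnion]
    refine ⟨b, ?_, mem_filter.2 ⟨hW1, hb⟩⟩
    rw [abs_le] at hb
    set y : ℝ := ((b : ℝ) + γ) / q with hy
    have hby : (b : ℝ) = y * q - γ := by rw [hy]; field_simp; ring
    have y1 : -2 ≤ y := by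
      by_contra hcon
      rw [not_le] at hcon
      nlinarith [hb.1, hb.2]
    have y2 : y ≤ 3 := by
      by_contra hcon
      rw [not_le] at hcon
      nlinarith [hb.1, hb.2]
    rw [hB, Finset.mem_Icc]
    constructor
    · rw [Int.ceil_le, hby]
      nlinarith
    · rw [Int.le_floor, hby]
      nlinarith
  have h5 : ((T.biUnion (fun q => (B q).biUnion (F q))).card : ℝ) ≤ T.card * (12 * 2 ^ s * 5) := by
    apply card_bU
    intro q hq
    calc (((B q).biUnion (F q)).card : ℝ) ≤ (B q).card * 5 := by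
          apply card_bU
          intro b _
          exact card_near _ (2 ^ n * ((b + γ) / q)) (fun W hW => (mem_filter.1 hW).2)
      _ ≤ 12 * 2 ^ s * 5 := by
          have := hBc q hq
          linarith
  have h6 : ((((range (2 ^ n)).filter (fun W : ℕ => ∃ q ∈ TQ α ε L n s, ∃ b : ℤ,
      |(W : ℝ) - 2 ^ n * ((b + γ) / q)| ≤ 2)).card : ℕ) : ℝ) ≤
      ((T.biUnion (fun q => (B q).biUnion (F q))).card : ℝ) := by
    exact_mod_cast card_le_card hsub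
  refine h6.trans (h5.trans ?_)
  have h7 : (T.card : ℝ) * (12 * 2 ^ s * 5) ≤
      4 / κ * 2 ^ s * ρ * ((s : ℝ) + 1) ^ c' * (12 * 2 ^ s * 5) := by
    apply mul_le_mul_of_nonneg_right hTc (by positivity)
  refine h7.trans ?_
  have h8 : ((s : ℝ) + 1) ^ c' ≤ L s := hL.2 s
  have h9 : 4 / κ * 2 ^ s * ρ * ((s : ℝ) + 1) ^ c' * (12 * 2 ^ s * 5) =
      240 / κ * ε * 2 ^ n * (((s : ℝ) + 1) ^ c' / L s) := by
    rw [hρ, show (4 : ℝ) ^ s = 2 ^ s * 2 ^ s by rw [← mul_pow]; norm_num]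
    field_simp
    ring
  rw [h9]
  have h10 : ((s : ℝ) + 1) ^ c' / L s ≤ 1 := (div_le_one (by linarith)).2 h8
  calc 240 / κ * ε * 2 ^ n * (((s : ℝ) + 1) ^ c' / L s) ≤ 240 / κ * ε * 2 ^ n * 1 := by
        apply mul_le_mul_of_nonneg_left h10 (by positivity)
    _ = 240 / κ * ε * 2 ^ n := mul_one _

open Classical in
theorem count_abs (α γ ε c' κ : ℝ) (L : ℕ → ℝ) (hL : Rate L c') (hα : Dio α κ c') (hε : 0 < ε) (n : ℕ) :
    ((((range (2 ^ n)).filter (fun W => W ∈ R1 α γ ε L n)).card : ℕ) : ℝ) ≤ 240 / κ * (n + 1) * ε * 2 ^ n := by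
  have hsub : (range (2 ^ n)).filter (fun W => W ∈ R1 α γ ε L n) ⊆
      (range (n + 1)).biUnion (fun s => (range (2 ^ n)).filter (fun W : ℕ => ∃ q ∈ TQ α ε L n s, ∃ b : ℤ,
      |(W : ℝ) - 2 ^ n * ((b + γ) / q)| ≤ 2)) := by
    intro W hW
    obtain ⟨hW1, s, hs, _, hW2⟩ := mem_filter.1 hW
    rw [mem_biUnion]
    exact ⟨s, mem_range.2 (by omega), mem_filter.2 ⟨hW1, hW2⟩⟩
  have h1 : ((((range (2 ^ n)).filter (fun W => W ∈ R1 α γ ε L n)).card : ℕ) : ℝ) ≤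
      (((range (n + 1)).biUnion (fun s => (range (2 ^ n)).filter (fun W : ℕ => ∃ q ∈ TQ α ε L n s, ∃ b : ℤ,
      |(W : ℝ) - 2 ^ n * ((b + γ) / q)| ≤ 2))).card : ℝ) := by
    exact_mod_cast card_le_card hsub
  refine h1.trans ?_
  have h2 := card_bU (range (n + 1)) (fun s => (range (2 ^ n)).filter (fun W : ℕ => ∃ q ∈ TQ α ε L n s, ∃ b : ℤ,
      |(W : ℝ) - 2 ^ n * ((b + γ) / q)| ≤ 2)) (240 / κ * ε * 2 ^ n)
      (fun s _ => count_block α γ ε c' κ L hL hα hε n s)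
  refine h2.trans (le_of_eq ?_)
  rw [card_range]
  push_cast
  ring

end Pool.Agent.H587.PG
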