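import Mathlib
import Pool.Agent.H587.PG.Defs

set_option autoImplicit false

open Finset

namespace Pool.Agent.H587.PG

theorem avoid (α γ ε c' κ : ℝ) (L : ℕ → ℝ) (hL : Rate L c') (hα : Dio α κ c') (hε : 0 < ε) (hεκ : 2 * ε < κ)
    (m : ℕ) (x : ℝ)
    (hx : ∀ i, 1 ≤ i → i ≤ m → ∃ W : ℕ, W ∉ R1 α γ ε L i ∧ (W : ℝ) ≤ 2 ^ i * x ∧ 2 ^ i * x ≤ W + 1)
    (q : ℕ) (hq : 1 ≤ q) (b : ℤ) :
    ε * 2 ^ m < nint (q * α) * (4 ^ (Nat.log 2 q) * L (Nat.log 2 q)) ∨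
    ε / (2 * L (Nat.log 2 q)) < q * nint (q * α) * |q * x - b - γ| := by
  obtain ⟨hκ, hc', hD⟩ := hα
  have hDq := hD q hq
  have hs1 : 2 ^ (Nat.log 2 q) ≤ q := Nat.pow_log_le_self 2 (by omega)
  have hs2 : q < 2 ^ (Nat.log 2 q + 1) := Nat.lt_pow_succ_log_self (by norm_num) q
  obtain ⟨s, hs⟩ : ∃ s, s = Nat.log 2 q := ⟨_, rfl⟩
  rw [← hs] at hDq hs1 hs2 ⊢
  obtain ⟨ν, hν⟩ : ∃ ν, ν = nint (q * α) := ⟨_, rfl⟩
  have hν0 : 0 ≤ ν := by rw [hν]; exact nint_nonneg _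
  have hν2 : ν ≤ 1 / 2 := by rw [hν]; exact abs_sub_round _
  rw [← hν] at hDq ⊢
  have hsr : (1 : ℝ) ≤ (s : ℝ) + 1 := by
    have : (0 : ℝ) ≤ s := Nat.cast_nonneg s
    linarith
  obtain ⟨ℓ, hl⟩ : ∃ ℓ, ℓ = L s := ⟨_, rfl⟩
  obtain ⟨ℓ', hl'⟩ : ∃ ℓ', ℓ' = ((s : ℝ) + 1) ^ c' := ⟨_, rfl⟩
  have hl'0 : 0 < ℓ' := by rw [hl']; exact Real.rpow_pos_of_pos (by linarith) _
  have hll : ℓ' ≤ ℓ := by
    rw [hl, hl']
    exact hL.2 s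
  have hl0 : 0 < ℓ := lt_of_lt_of_le hl'0 hll
  rw [← hl'] at hDq
  rw [← hl]
  obtain ⟨A, hA⟩ : ∃ A, A = ν * (4 ^ s * ℓ) := ⟨_, rfl⟩
  rw [← hA]
  have hq0 : (0 : ℝ) < q := by exact_mod_cast hq
  have hqs1 : (2 : ℝ) ^ s ≤ q := by exact_mod_cast hs1
  have hqs2 : (q : ℝ) ≤ 2 ^ (s + 1) := by exact_mod_cast hs2.le
  have h2s : (1 : ℝ) ≤ 2 ^ s := one_le_pow₀ (by norm_num)
  have h4s : (4 : ℝ) ^ s = 2 ^ s * 2 ^ s := by
    rw [← mul_pow]; norm_num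
  -- the lower bound
  have hlow : κ * 2 ^ s ≤ 2 * A := by
    have h1 : κ ≤ 2 ^ (s + 1) * ℓ' * ν := by
      refine hDq.trans ?_
      gcongr
    have h2 : κ * 2 ^ s ≤ 2 ^ (s + 1) * ℓ' * ν * 2 ^ s := by
      gcongr
    have h3 : (2 : ℝ) ^ (s + 1) * ℓ' * ν * 2 ^ s = 2 * (ν * (4 ^ s * ℓ')) := by
      rw [h4s, pow_succ]; ring
    have h4 : ν * ((4 : ℝ) ^ s * ℓ') ≤ A := by
      rw [hA]
      gcongr
    linarith
  by_cases hm : ε * 2 ^ m < A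
  · exact Or.inl hm
  right
  have hex : ∃ i : ℕ, A ≤ ε * 2 ^ i := ⟨m, not_lt.mp hm⟩
  classical
  obtain ⟨i, hi⟩ : ∃ i, i = Nat.find hex := ⟨_, rfl⟩
  have hi1 : A ≤ ε * 2 ^ i := by rw [hi]; exact Nat.find_spec hex
  have him : i ≤ m := by rw [hi]; exact Nat.find_min' hex (not_lt.mp hm)
  have hipos : 1 ≤ i := by
    by_contra hc
    have hi0 : i = 0 := by omega
    rw [hi0, pow_zero, mul_one] at hi1
    have h1 : κ ≤ κ * 2 ^ s := le_mul_of_one_le_right hκ.le h2s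
    linarith
  have hmin : ε * 2 ^ (i - 1) < A := by
    have h1 := Nat.find_min hex (m := i - 1) (by omega)
    exact not_le.mp h1
  have hpow : (2 : ℝ) ^ i = 2 * 2 ^ (i - 1) := by
    rw [← pow_succ']
    congr 1
    omega
  have hmin2 : ε * 2 ^ i < 2 * A := by
    rw [hpow]
    linarith
  have hsi : s ≤ i := by
    have h1 : κ * 2 ^ s < κ * 2 ^ i := by
      have h2 : 2 * ε * 2 ^ i < κ * 2 ^ i := by gcongr
      linarith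
    have h2 : (2 : ℝ) ^ s < 2 ^ i := lt_of_mul_lt_mul_left h1 hκ.le
    exact ((pow_lt_pow_iff_right₀ (by norm_num : (1 : ℝ) < 2)).mp h2).le
  have hb1 : ε * 2 ^ i ≤ 4 ^ s * ℓ := by
    have h1 : A ≤ 1 / 2 * (4 ^ s * ℓ) := by
      rw [hA]
      gcongr
    linarith
  obtain ⟨W, hW, hW1, hW2⟩ := hx i hipos him
  have hfar : 2 < |(W : ℝ) - 2 ^ i * ((b + γ) / q)| := by
    by_contra hc
    apply hW
    refine ⟨s, hsi, ?_, q, ⟨hs1, hs2, ?_⟩, b, not_lt.mp hc⟩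
    · rw [← hl]; exact hb1
    · rw [← hν, ← hl, ← hA]; exact hi1
  have hfar2 : 1 < 2 ^ i * |x - (b + γ) / q| := by
    have h1 : |(W : ℝ) - 2 ^ i * x| ≤ 1 := by
      rw [abs_le]
      constructor <;> linarith
    have h2 : |(W : ℝ) - 2 ^ i * ((b + γ) / q)| ≤ |(W : ℝ) - 2 ^ i * x| +
        |2 ^ i * x - 2 ^ i * ((b + γ) / q)| := abs_sub_le _ _ _
    have h3 : |2 ^ i * x - 2 ^ i * ((b + γ) / q)| = 2 ^ i * |x - (b + γ) / q| := by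
      rw [← mul_sub, abs_mul, abs_of_pos (by positivity : (0 : ℝ) < 2 ^ i)]
    linarith
  obtain ⟨X, hX⟩ : ∃ X, X = |q * x - b - γ| := ⟨_, rfl⟩
  rw [← hX]
  have hX2 : (q : ℝ) < 2 ^ i * X := by
    have h1 : X = q * |x - (b + γ) / q| := by
      rw [hX]
      have h2 : q * x - b - γ = q * (x - (b + γ) / q) := by
        field_simp
        ring
      rw [h2, abs_mul, abs_of_pos hq0]
    rw [h1]
    have h3 := mul_lt_mul_of_pos_left hfar2 hq0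
    rw [mul_one] at h3
    linarith
  have hX0 : 0 ≤ X := by rw [hX]; exact abs_nonneg _
  have hi0 : (0 : ℝ) < 2 ^ i := by positivity
  -- the end
  rw [div_lt_iff₀ (by positivity)]
  have h5 : ε * 2 ^ i < q * ν * X * (2 * ℓ) * 2 ^ i := by
    calc ε * 2 ^ i < 2 * A := hmin2
      _ = (2 * ν * ℓ) * (2 ^ s * 2 ^ s) := by rw [hA, h4s]; ring
      _ ≤ (2 * ν * ℓ) * (q * q) := by gcongr
      _ ≤ (2 * ν * ℓ) * (q * (2 ^ i * X)) := by gcongr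
      _ = q * ν * X * (2 * ℓ) * 2 ^ i := by ring
  exact lt_of_mul_lt_mul_right h5 hi0.le

end Pool.Agent.H587.PG
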