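import Mathlib
import Pool.Agent.H587.PG.Defs
import Pool.Agent.H587.PE.PEVOL
import Pool.Agent.H587.PE.PEPLANE
import Pool.Agent.H587.PG.PGAVOID

set_option autoImplicit false

open Finset

namespace Pool.Agent.H587.PG

open Pool.Agent.H587.PE (sk vol_count plane_count plane_or_det)

namespace LOCA

theorem rate_pos {L : ℕ → ℝ} {c' : ℝ} (hL : Rate L c') (hc : 0 ≤ c') (s : ℕ) : 0 < L s := by
  have h1 : (1 : ℝ) ≤ ((s : ℝ) + 1) ^ c' :=
    Real.one_le_rpow (by have := Nat.cast_nonneg (α := ℝ) s; linarith) hc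
  linarith [hL.2 s]

theorem core (α ε c' κ : ℝ) (L : ℕ → ℝ) (hL : Rate L c') (hα : Dio α κ c') (hε : 0 < ε) (hεκ : 2 * ε < κ)
    (m s : ℕ) (x E T : ℝ) (hT : 4 ≤ T) (hE : 32 * E = T ^ 3)
    (hx : ∀ i, 1 ≤ i → i ≤ m → ∃ W : ℕ, W ∉ R1 α 0 ε L i ∧ (W : ℝ) ≤ 2 ^ i * x ∧ 2 ^ i * x ≤ W + 1)
    (q : ℕ) (hq : 1 ≤ q) (a b : ℤ) (h1 : (q : ℝ) * T < 2 ^ s)
    (h2 : |q * α - a| * (T * (2 ^ s) ^ 2 * L s) < 2 * ε * (2 ^ m * E))
    (h3 : |q * x - b| * (T * 2 ^ m) < 8 * 2 ^ s) : False := by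
  have hT0 : 0 < T := by linarith
  have hq0 : (0 : ℝ) < q := by exact_mod_cast hq
  have hls : Nat.log 2 q ≤ s := by
    have h4 : (q : ℝ) < 2 ^ s := by nlinarith
    have h5 : q < 2 ^ s := by exact_mod_cast h4
    exact (Nat.log_mono_right h5.le).trans (by rw [Nat.log_pow one_lt_two])
  have hL' : (0 : ℝ) < L (Nat.log 2 q) := rate_pos hL hα.2.1 _
  have hLL : L (Nat.log 2 q) ≤ L s := hL.1 hls
  have h4q : (4 : ℝ) ^ (Nat.log 2 q) ≤ (q : ℝ) ^ 2 := by
    have h5 : 2 ^ (Nat.log 2 q) ≤ q := Nat.pow_log_le_self 2 (by omega)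
    have h6 : (2 : ℝ) ^ (Nat.log 2 q) ≤ q := by exact_mod_cast h5
    have h7 : (4 : ℝ) ^ (Nat.log 2 q) = (2 ^ (Nat.log 2 q)) ^ 2 := by
      rw [← pow_mul, mul_comm, pow_mul]
      norm_num
    rw [h7]
    exact pow_le_pow_left₀ (by positivity) h6 2
  have hn := nint_le (q * α) a
  have hn0 := nint_nonneg (q * α)
  have hM : (0 : ℝ) < 2 ^ m := by positivity
  have hA : (0 : ℝ) < 2 ^ s := by positivity
  have hE0 : 0 < E := by
    have : 0 < T ^ 3 := by positivity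
    linarith
  set A : ℝ := 2 ^ s with hAdef
  set M : ℝ := 2 ^ m with hMdef
  set Ls : ℝ := L s with hLdef
  set Lq : ℝ := L (Nat.log 2 q) with hL'def
  have hL0 : 0 < Ls := hL'.trans_le hLL
  set N : ℝ := |q * α - a| with hN
  have hN0 : 0 ≤ N := abs_nonneg _
  have hqT : ((q : ℝ) * T) ^ 2 ≤ A ^ 2 := pow_le_pow_left₀ (by positivity) h1.le 2
  rcases avoid α 0 ε c' κ L hL hα hε hεκ m x hx q hq b with h | h
  · have k1 : ε * M < N * (q ^ 2 * Ls) := by
      refine h.trans_le ?_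
      exact mul_le_mul hn (mul_le_mul h4q hLL hL'.le (by positivity)) (by positivity) hN0
    have k2 : N * (q ^ 2 * Ls) * T ^ 3 * A ^ 2 ≤ 2 * ε * (M * E) * A ^ 2 := by
      calc N * (q ^ 2 * Ls) * T ^ 3 * A ^ 2 = N * (T * A ^ 2 * Ls) * (q * T) ^ 2 := by ring
        _ ≤ 2 * ε * (M * E) * A ^ 2 := mul_le_mul h2.le hqT (by positivity) (by positivity)
    have k3 : N * (q ^ 2 * Ls) * T ^ 3 ≤ 2 * ε * (M * E) := le_of_mul_le_mul_right k2 (by positivity)
    have k4 : ε * M * T ^ 3 < 2 * ε * (M * E) :=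
      (mul_lt_mul_of_pos_right k1 (by positivity)).trans_le k3
    rw [← hE] at k4
    have k5 : 0 < ε * M * E := by positivity
    nlinarith
  · rw [sub_zero] at h
    set B : ℝ := |q * x - b| with hB
    have hB0 : 0 ≤ B := abs_nonneg _
    have k1 : ε / (2 * Ls) < q * N * B := by
      refine lt_of_le_of_lt ?_ (h.trans_le ?_)
      · exact div_le_div_of_nonneg_left hε.le (by positivity) (by linarith)
      · exact mul_le_mul_of_nonneg_right (mul_le_mul_of_nonneg_left hn hq0.le) hB0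
    have k2 : q * N * B * (T ^ 3 * Ls) * (A ^ 2 * M) ≤ 16 * ε * E * (A ^ 2 * M) := by
      calc q * N * B * (T ^ 3 * Ls) * (A ^ 2 * M)
          = (q * T) * (N * (T * A ^ 2 * Ls)) * (B * (T * M)) := by ring
        _ ≤ A * (2 * ε * (M * E)) * (8 * A) :=
            mul_le_mul (mul_le_mul h1.le h2.le (by positivity) hA.le) h3.le (by positivity)
              (by positivity)
        _ = 16 * ε * E * (A ^ 2 * M) := by ring
    have k3 : q * N * B * (T ^ 3 * Ls) ≤ 16 * ε * E := le_of_mul_le_mul_right k2 (by positivity)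
    have k4 : ε / (2 * Ls) * (T ^ 3 * Ls) < 16 * ε * E :=
      (mul_lt_mul_of_pos_right k1 (by positivity)).trans_le k3
    have k5 : ε / (2 * Ls) * (T ^ 3 * Ls) = 16 * ε * E := by
      rw [← hE]
      field_simp
      ring
    linarith

theorem sep (α ε c' κ : ℝ) (L : ℕ → ℝ) (hL : Rate L c') (hα : Dio α κ c') (hε : 0 < ε) (hεκ : 2 * ε < κ)
    (m s : ℕ) (x E T : ℝ) (hT : 4 ≤ T) (hE : 32 * E = T ^ 3)
    (hx : ∀ i, 1 ≤ i → i ≤ m → ∃ W : ℕ, W ∉ R1 α 0 ε L i ∧ (W : ℝ) ≤ 2 ^ i * x ∧ 2 ^ i * x ≤ W + 1)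
    (hs : 16 * (2 : ℝ) ^ s ≤ 2 ^ m) (hJ : ε * (2 ^ m * E) ≤ (2 ^ s) ^ 2 * L s)
    (w : ℤ × ℤ × ℤ) (hw : w ≠ 0) (h1 : |(w.1 : ℝ)| * T < 2 ^ s)
    (h2 : |w.1 * α - w.2.1| * (T * (2 ^ s) ^ 2 * L s) < 2 * ε * (2 ^ m * E))
    (h3 : |w.1 * x - w.2.2| * (T * 2 ^ m) < 8 * 2 ^ s) : False := by
  have hA : (0 : ℝ) < 2 ^ s := by positivity
  have hM : (0 : ℝ) < 2 ^ m := by positivity
  have hL0 : (0 : ℝ) < L s := rate_pos hL hα.2.1 _
  rcases lt_trichotomy w.1 0 with h | h | h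
  · obtain ⟨q, hq⟩ : ∃ q : ℕ, (q : ℤ) = -w.1 := ⟨(-w.1).toNat, by omega⟩
    have hq' : (q : ℝ) = -(w.1 : ℝ) := by exact_mod_cast hq
    refine core α ε c' κ L hL hα hε hεκ m s x E T hT hE hx q (by omega) (-w.2.1) (-w.2.2) ?_ ?_ ?_
    · rw [hq']
      rwa [abs_of_neg (by exact_mod_cast h)] at h1
    · have e : (q : ℝ) * α - ((-w.2.1 : ℤ) : ℝ) = -(w.1 * α - w.2.1) := by
        rw [hq']
        push_cast
        ring
      rw [e, abs_neg]
      exact h2
    · have e : (q : ℝ) * x - ((-w.2.2 : ℤ) : ℝ) = -(w.1 * x - w.2.2) := by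
        rw [hq']
        push_cast
        ring
      rw [e, abs_neg]
      exact h3
  · rw [h] at h2 h3
    rw [Int.cast_zero, zero_mul, zero_sub, abs_neg] at h2 h3
    apply hw
    have k1 : |(w.2.1 : ℝ)| < 1 := by
      by_contra hcon
      push Not at hcon
      have k2 : T * (2 ^ s) ^ 2 * L s ≤
          |(w.2.1 : ℝ)| * (T * (2 ^ s) ^ 2 * L s) :=
        le_mul_of_one_le_left (by positivity) hcon
      have k3 : 0 < (2 ^ s) ^ 2 * L s := by positivity
      nlinarith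
    have k2 : |(w.2.2 : ℝ)| < 1 := by
      by_contra hcon
      push Not at hcon
      have k2 : T * 2 ^ m ≤ |(w.2.2 : ℝ)| * (T * 2 ^ m) :=
        le_mul_of_one_le_left (by positivity) hcon
      nlinarith
    have k3 : w.2.1 = 0 := by
      have : |w.2.1| < 1 := by exact_mod_cast k1
      exact Int.abs_lt_one_iff.1 this
    have k4 : w.2.2 = 0 := by
      have : |w.2.2| < 1 := by exact_mod_cast k2
      exact Int.abs_lt_one_iff.1 this
    exact Prod.ext h (Prod.ext k3 k4)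
  · obtain ⟨q, hq⟩ : ∃ q : ℕ, (q : ℤ) = w.1 := ⟨w.1.toNat, by omega⟩
    have hq' : (q : ℝ) = (w.1 : ℝ) := by exact_mod_cast hq
    refine core α ε c' κ L hL hα hε hεκ m s x E T hT hE hx q (by omega) w.2.1 w.2.2 ?_ ?_ ?_
    · rw [hq']
      rwa [abs_of_pos (by exact_mod_cast h)] at h1
    · rw [hq']
      exact h2
    · rw [hq']
      exact h3

/-- the count of the lattice vectors -/
theorem count (α ε c' κ : ℝ) (L : ℕ → ℝ) (hL : Rate L c') (hα : Dio α κ c') (hε : 0 < ε) (hεκ : 2 * ε < κ)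
    (m s : ℕ) (x E T : ℝ) (hT : 4 ≤ T) (hE : 32 * E = T ^ 3)
    (hx : ∀ i, 1 ≤ i → i ≤ m → ∃ W : ℕ, W ∉ R1 α 0 ε L i ∧ (W : ℝ) ≤ 2 ^ i * x ∧ 2 ^ i * x ≤ W + 1)
    (hs : 16 * (2 : ℝ) ^ s ≤ 2 ^ m) (hJ : ε * (2 ^ m * E) ≤ (2 ^ s) ^ 2 * L s)
    (hf2 : L s ≤ ε * T)
    (S : Finset (ℤ × ℤ × ℤ))
    (hS : ∀ z ∈ S, |(z.1 : ℝ)| ≤ 2 ^ s ∧
      |z.1 * α - z.2.1| ≤ 2 * ε * (2 ^ m * E) / ((2 ^ s) ^ 2 * L s) ∧
      |z.1 * x - z.2.2| ≤ 8 * 2 ^ s / 2 ^ m) :
    (S.card : ℝ) ≤ 8192 * ε * E / L s := by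
  have hA : (0 : ℝ) < 2 ^ s := by positivity
  have hM : (0 : ℝ) < 2 ^ m := by positivity
  have hL0 : (0 : ℝ) < L s := rate_pos hL hα.2.1 _
  have hE0 : 0 < E := by
    have : 0 < T ^ 3 := by positivity
    linarith
  have hT0 : 0 < T := by linarith
  set r₁ : ℝ := 2 * ε * (2 ^ m * E) / ((2 ^ s) ^ 2 * L s) with hr₁
  set r₂ : ℝ := 8 * 2 ^ s / 2 ^ m with hr₂
  have h₁ : 0 < r₁ := by rw [hr₁]; positivity
  have h₂ : 0 < r₂ := by rw [hr₂]; positivity
  have hP : 512 * (2 ^ s * r₁ * r₂) = 8192 * ε * E / L s := by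
    rw [hr₁, hr₂]
    field_simp
    ring
  rcases plane_or_det S (fun z => sk α x z) with ⟨a, ha, hpl⟩ | ⟨u, v, w, hu, hv, hw, hdet⟩
  · have hfin : (S.card : ℝ) ≤ (4 / (1 / T) + 2) ^ 2 := by
      refine plane_count S (fun z => ![(z.1 : ℝ) / 2 ^ s, (z.1 * α - z.2.1) / r₁,
        (z.1 * x - z.2.2) / r₂]) (1 / T) (by positivity) ?_ ?_
        ![a 0 * 2 ^ s, a 1 * r₁, a 2 * r₂] ?_ ?_
      · intro z hz i
        obtain ⟨k1, k2, k3⟩ := hS z hz
        fin_cases i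
        · change |(z.1 : ℝ) / 2 ^ s| ≤ 1
          rw [abs_div, abs_of_pos hA]
          exact div_le_one_of_le₀ k1 hA.le
        · change |(z.1 * α - z.2.1) / r₁| ≤ 1
          rw [abs_div, abs_of_pos h₁]
          exact div_le_one_of_le₀ k2 h₁.le
        · change |(z.1 * x - z.2.2) / r₂| ≤ 1
          rw [abs_div, abs_of_pos h₂]
          exact div_le_one_of_le₀ k3 h₂.le
      · intro z hz z' hz' hne
        by_contra hcon
        push Not at hcon
        have k0 := hcon 0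
        have k1 := hcon 1
        have k2 := hcon 2
        change |(z.1 : ℝ) / 2 ^ s - (z'.1 : ℝ) / 2 ^ s| < 1 / T at k0
        change |(z.1 * α - z.2.1) / r₁ - (z'.1 * α - z'.2.1) / r₁| < 1 / T at k1
        change |(z.1 * x - z.2.2) / r₂ - (z'.1 * x - z'.2.2) / r₂| < 1 / T at k2
        rw [← sub_div, abs_div, lt_div_iff₀ hT0, div_mul_eq_mul_div, div_lt_one (by positivity)]
          at k0 k1 k2
        rw [abs_of_pos hA] at k0
        rw [abs_of_pos h₁] at k1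
        rw [abs_of_pos h₂] at k2
        refine sep α ε c' κ L hL hα hε hεκ m s x E T hT hE hx hs hJ (z - z')
          (sub_ne_zero.2 hne) ?_ ?_ ?_
        · have e : (((z - z').1 : ℤ) : ℝ) = (z.1 : ℝ) - z'.1 := by
            rw [Prod.fst_sub]
            push_cast
            ring
          rw [e]
          exact k0
        · have e : (((z - z').1 : ℤ) : ℝ) * α - ((z - z').2.1 : ℤ) =
              (z.1 * α - z.2.1) - (z'.1 * α - z'.2.1) := by
            rw [Prod.fst_sub, Prod.snd_sub, Prod.fst_sub]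
            push_cast
            ring
          rw [e]
          have k3 : r₁ * ((2 ^ s) ^ 2 * L s) = 2 * ε * (2 ^ m * E) := by
            rw [hr₁]
            field_simp
          have k4 : 0 < (2 ^ s) ^ 2 * L s := by positivity
          rw [← k3]
          calc |(z.1 * α - z.2.1) - (z'.1 * α - z'.2.1)| * (T * (2 ^ s) ^ 2 * L s)
              = (|(z.1 * α - z.2.1) - (z'.1 * α - z'.2.1)| * T) *
                ((2 ^ s) ^ 2 * L s) := by ring
            _ < r₁ * ((2 ^ s) ^ 2 * L s) := mul_lt_mul_of_pos_right k1 k4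
        · have e : (((z - z').1 : ℤ) : ℝ) * x - ((z - z').2.2 : ℤ) =
              (z.1 * x - z.2.2) - (z'.1 * x - z'.2.2) := by
            rw [Prod.fst_sub, Prod.snd_sub, Prod.snd_sub]
            push_cast
            ring
          rw [e]
          have k3 : r₂ * 2 ^ m = 8 * 2 ^ s := by
            rw [hr₂]
            field_simp
          rw [← k3]
          calc |(z.1 * x - z.2.2) - (z'.1 * x - z'.2.2)| * (T * 2 ^ m)
              = (|(z.1 * x - z.2.2) - (z'.1 * x - z'.2.2)| * T) * 2 ^ m := by ring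
            _ < r₂ * 2 ^ m := mul_lt_mul_of_pos_right k2 hM
      · intro h0
        apply ha
        funext i
        have e := congrFun h0 i
        fin_cases i
        · exact (mul_eq_zero.1 (e : a 0 * 2 ^ s = 0)).resolve_right hA.ne'
        · exact (mul_eq_zero.1 (e : a 1 * r₁ = 0)).resolve_right h₁.ne'
        · exact (mul_eq_zero.1 (e : a 2 * r₂ = 0)).resolve_right h₂.ne'
      · intro z hz
        have e := hpl z hz
        change a 0 * (z.1 : ℝ) + a 1 * (z.1 * α - z.2.1) + a 2 * (z.1 * x - z.2.2) = 0 at e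
        change a 0 * 2 ^ s * ((z.1 : ℝ) / 2 ^ s) + a 1 * r₁ * ((z.1 * α - z.2.1) / r₁) +
          a 2 * r₂ * ((z.1 * x - z.2.2) / r₂) = 0
        rw [← e]
        field_simp
    refine hfin.trans ?_
    rw [le_div_iff₀ hL0, one_div, div_inv_eq_mul]
    have k1 : (4 * T + 2) ^ 2 ≤ 36 * T ^ 2 := by nlinarith
    have k2 : 8192 * ε * E = 256 * ε * T ^ 3 := by rw [← hE]; ring
    rw [k2]
    calc (4 * T + 2) ^ 2 * L s ≤ (36 * T ^ 2) * (ε * T) :=
          mul_le_mul k1 hf2 hL0.le (by positivity)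
      _ ≤ 256 * ε * T ^ 3 := by
          have : 0 < ε * T ^ 3 := by positivity
          nlinarith
  · rw [← hP]
    exact vol_count α x (2 ^ s) r₁ r₂ hA h₁ h₂ S hS u v w hu hv hw hdet

end LOCA

open Classical in
theorem loc_A (α γ ε c' κ : ℝ) (L : ℕ → ℝ) (hL : Rate L c') (hα : Dio α κ c') (hε : 0 < ε) (hεκ : 2 * ε < κ)
    (n f s V : ℕ) (hf : 2 ≤ f) (hfn : 3 * f - 5 ≤ n)
    (hs : 16 * 2 ^ s ≤ 2 ^ (n - (3 * f - 5))) (hJ : ε * 2 ^ n ≤ 4 ^ s * L s)
    (hf2 : L s ≤ ε * 2 ^ f)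
    (hV : ∀ i, 1 ≤ i → i ≤ n - (3 * f - 5) → V / 2 ^ (n - (3 * f - 5) - i) ∉ R1 α 0 ε L i) :
    ((((range (2 ^ n)).filter (fun W => W / 2 ^ (3 * f - 5) = V ∧ ∃ q ∈ TQ α ε L n s, ∃ b : ℤ,
      |(W : ℝ) - 2 ^ n * ((b + γ) / q)| ≤ 2)).card : ℕ) : ℝ) ≤
      40960 * ε * 2 ^ (3 * f - 5) / L s := by
  set e := 3 * f - 5 with he
  set m := n - e with hm
  have hnm : n = m + e := by omega
  have he1 : 1 ≤ e := by omega
  set X := (range (2 ^ n)).filter (fun W => W / 2 ^ e = V ∧ ∃ q ∈ TQ α ε L n s, ∃ b : ℤ,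
      |(W : ℝ) - 2 ^ n * ((b + γ) / q)| ≤ 2) with hX
  set x : ℝ := (V : ℝ) / 2 ^ m with hxdef
  set E : ℝ := 2 ^ e with hEdef
  set T : ℝ := 2 ^ f with hTdef
  have hM : (0 : ℝ) < 2 ^ m := by positivity
  have hA : (0 : ℝ) < 2 ^ s := by positivity
  have hE0 : (0 : ℝ) < E := by rw [hEdef]; positivity
  have hL0 : (0 : ℝ) < L s := LOCA.rate_pos hL hα.2.1 _
  have hNE : (2 : ℝ) ^ n = 2 ^ m * E := by rw [hEdef, ← pow_add, ← hnm]
  have hE2 : (2 : ℝ) ≤ E := by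
    rw [hEdef]
    calc (2 : ℝ) = 2 ^ 1 := by norm_num
      _ ≤ 2 ^ e := pow_le_pow_right₀ (by norm_num) he1
  have hE : 32 * E = T ^ 3 := by
    rw [hEdef, hTdef, ← pow_mul]
    have : f * 3 = 5 + e := by omega
    rw [this, pow_add]
    norm_num
  have hT : 4 ≤ T := by
    rw [hTdef]
    calc (4 : ℝ) = 2 ^ 2 := by norm_num
      _ ≤ 2 ^ f := pow_le_pow_right₀ (by norm_num) hf
  have h44 : (4 : ℝ) ^ s = (2 ^ s) ^ 2 := by
    rw [← pow_mul, mul_comm, pow_mul]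
    norm_num
  rw [h44, hNE] at hJ
  have hs' : 16 * (2 : ℝ) ^ s ≤ 2 ^ m := by exact_mod_cast hs
  have hx : ∀ i, 1 ≤ i → i ≤ m → ∃ W : ℕ, W ∉ R1 α 0 ε L i ∧ (W : ℝ) ≤ 2 ^ i * x ∧
      2 ^ i * x ≤ W + 1 := by
    intro i h1 h2
    refine ⟨V / 2 ^ (m - i), hV i h1 h2, ?_, ?_⟩
    · have k1 : V / 2 ^ (m - i) * 2 ^ (m - i) ≤ V := Nat.div_mul_le_self _ _
      have k2 : ((V / 2 ^ (m - i) : ℕ) : ℝ) * 2 ^ (m - i) ≤ V := by exact_mod_cast k1
      have k3 : (2 : ℝ) ^ m = 2 ^ i * 2 ^ (m - i) := by rw [← pow_add]; congr 1; omega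
      rw [hxdef, k3]
      have k4 : (0 : ℝ) < 2 ^ (m - i) := by positivity
      have k5 : (0 : ℝ) < 2 ^ i := by positivity
      have k6 : (2 : ℝ) ^ i * ((V : ℝ) / (2 ^ i * 2 ^ (m - i))) = V / 2 ^ (m - i) := by
        field_simp
      rw [k6, le_div_iff₀ k4]
      exact k2
    · have k1 : V < (V / 2 ^ (m - i) + 1) * 2 ^ (m - i) := by
        have := Nat.lt_div_mul_add (a := V) (b := 2 ^ (m - i)) (by positivity)
        rw [add_mul, one_mul]
        exact this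
      have k2 : (V : ℝ) ≤ ((V / 2 ^ (m - i) : ℕ) + 1 : ℝ) * 2 ^ (m - i) := by exact_mod_cast k1.le
      have k3 : (2 : ℝ) ^ m = 2 ^ i * 2 ^ (m - i) := by rw [← pow_add]; congr 1; omega
      rw [hxdef, k3]
      have k4 : (0 : ℝ) < 2 ^ (m - i) := by positivity
      have k5 : (0 : ℝ) < 2 ^ i := by positivity
      have k6 : (2 : ℝ) ^ i * ((V : ℝ) / (2 ^ i * 2 ^ (m - i))) = V / 2 ^ (m - i) := by
        field_simp
      rw [k6, div_le_iff₀ k4]
      exact k2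
  have hch : ∀ W ∈ X, ∃ (q : ℕ) (b : ℤ), q ∈ TQ α ε L n s ∧
      |(W : ℝ) - 2 ^ n * ((b + γ) / q)| ≤ 2 := by
    intro W hW
    rw [hX, mem_filter] at hW
    obtain ⟨-, -, q, hq, b, hb⟩ := hW
    exact ⟨q, b, hq, hb⟩
  choose! qf bf hqf hbf using hch
  set z : ℕ → ℤ × ℤ × ℤ := fun W => (((qf W : ℕ) : ℤ), round ((qf W : ℝ) * α), bf W) with hz
  -- the fibres
  have hfib : X.card ≤ 5 * (X.image z).card := by
    refine Finset.card_le_mul_card_image X 5 ?_
    intro u hu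
    obtain ⟨W₀, hW₀, rfl⟩ := mem_image.1 hu
    have k1 := card_near (X.filter fun W => z W = z W₀) (2 ^ n * ((bf W₀ + γ) / qf W₀)) ?_
    · exact_mod_cast k1
    · intro W hW
      rw [mem_filter] at hW
      have k2 : ((qf W : ℕ) : ℤ) = qf W₀ := congrArg Prod.fst hW.2
      have k3 : bf W = bf W₀ := congrArg (fun t => t.2.2) hW.2
      have k4 : qf W = qf W₀ := by exact_mod_cast k2
      have k5 := hbf W hW.1
      rw [k3, k4] at k5
      exact k5
  -- bounds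
  have hb1 : ∀ W ∈ X, (2 : ℝ) ^ s ≤ qf W ∧ (qf W : ℝ) < 2 * 2 ^ s := by
    intro W hW
    obtain ⟨k1, k2, -⟩ := hqf W hW
    constructor
    · exact_mod_cast k1
    · have : (qf W : ℝ) < 2 ^ (s + 1) := by exact_mod_cast k2
      rw [pow_succ] at this
      linarith
  have hb2 : ∀ W ∈ X, |(qf W : ℝ) * α - (round ((qf W : ℝ) * α) : ℤ)| ≤
      ε * (2 ^ m * E) / ((2 ^ s) ^ 2 * L s) := by
    intro W hW
    obtain ⟨-, -, k3⟩ := hqf W hW
    rw [h44, hNE] at k3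
    rw [le_div_iff₀ (by positivity)]
    exact k3
  have hb3 : ∀ W ∈ X, |(qf W : ℝ) * x - bf W - γ| ≤ 4 * 2 ^ s / 2 ^ m := by
    intro W hW
    obtain ⟨k1, k2⟩ := hb1 W hW
    have hq0 : (0 : ℝ) < qf W := hA.trans_le k1
    have k3 := hbf W hW
    have k4 : W / 2 ^ e = V := by
      rw [hX, mem_filter] at hW
      exact hW.2.1
    have k5 : |(W : ℝ) - V * E| ≤ E := by
      have k6 : V * 2 ^ e ≤ W := by rw [← k4]; exact Nat.div_mul_le_self _ _
      have k7 : W < V * 2 ^ e + 2 ^ e := by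
        rw [← k4]
        exact Nat.lt_div_mul_add (by positivity)
      have k8 : (V : ℝ) * E ≤ W := by rw [hEdef]; exact_mod_cast k6
      have k9 : (W : ℝ) < V * E + E := by rw [hEdef]; exact_mod_cast k7
      rw [abs_le]
      constructor <;> linarith
    rw [hNE] at k3
    have k6 : |2 ^ m * E * ((bf W + γ) / qf W) - V * E| ≤ 2 * E := by
      have := abs_sub_le (2 ^ m * E * ((bf W + γ) / qf W)) (W : ℝ) (V * E)
      rw [abs_sub_comm (2 ^ m * E * ((bf W + γ) / qf W)) (W : ℝ)] at this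
      linarith
    have k7 : (qf W : ℝ) * x - bf W - γ =
        -(2 ^ m * E * ((bf W + γ) / qf W) - V * E) * (qf W / (2 ^ m * E)) := by
      rw [hxdef]
      field_simp
      ring
    rw [k7, abs_mul, abs_neg, abs_of_pos (show 0 < (qf W : ℝ) / (2 ^ m * E) by positivity)]
    calc |2 ^ m * E * ((bf W + γ) / qf W) - V * E| * (qf W / (2 ^ m * E))
        ≤ 2 * E * (2 * 2 ^ s / (2 ^ m * E)) :=
          mul_le_mul k6 (div_le_div_of_nonneg_right k2.le (by positivity)) (by positivity)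
            (by positivity)
      _ = 4 * 2 ^ s / 2 ^ m := by
          field_simp
          ring
  -- the count of the triples
  have hcount : ((X.image z).card : ℝ) ≤ 8192 * ε * E / L s := by
    rcases (X.image z).eq_empty_or_nonempty with h | ⟨z₀, hz₀⟩
    · rw [h, card_empty, Nat.cast_zero]
      positivity
    · have hinj : Function.Injective fun u : ℤ × ℤ × ℤ => u - z₀ := sub_left_injective
      rw [← card_image_of_injective (X.image z) hinj]
      refine LOCA.count α ε c' κ L hL hα hε hεκ m s x E T hT hE hx hs' hJ hf2 _ ?_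
      intro u hu
      obtain ⟨u', hu', rfl⟩ := mem_image.1 hu
      obtain ⟨W, hW, rfl⟩ := mem_image.1 hu'
      obtain ⟨W₀, hW₀, rfl⟩ := mem_image.1 hz₀
      obtain ⟨p1, p2⟩ := hb1 W hW
      obtain ⟨p1', p2'⟩ := hb1 W₀ hW₀
      have p3 := hb2 W hW
      have p3' := hb2 W₀ hW₀
      have p4 := hb3 W hW
      have p4' := hb3 W₀ hW₀
      have e1 : (((z W - z W₀).1 : ℤ) : ℝ) = (qf W : ℝ) - qf W₀ := by
        rw [Prod.fst_sub, hz]
        push_cast
        ring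
      have e2 : (((z W - z W₀).2.1 : ℤ) : ℝ) = (round ((qf W : ℝ) * α) : ℝ) -
          round ((qf W₀ : ℝ) * α) := by
        rw [Prod.snd_sub, Prod.fst_sub, hz]
        push_cast
        ring
      have e3 : (((z W - z W₀).2.2 : ℤ) : ℝ) = (bf W : ℝ) - bf W₀ := by
        rw [Prod.snd_sub, Prod.snd_sub, hz]
        push_cast
        ring
      refine ⟨?_, ?_, ?_⟩
      · rw [e1, abs_le]
        constructor <;> linarith
      · rw [e1, e2]
        have e4 : ((qf W : ℝ) - qf W₀) * α - ((round ((qf W : ℝ) * α) : ℝ) -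
            round ((qf W₀ : ℝ) * α)) = ((qf W : ℝ) * α - round ((qf W : ℝ) * α)) -
            ((qf W₀ : ℝ) * α - round ((qf W₀ : ℝ) * α)) := by ring
        rw [e4]
        refine (abs_sub _ _).trans ?_
        have e5 : 2 * ε * (2 ^ m * E) / ((2 ^ s) ^ 2 * L s) =
            ε * (2 ^ m * E) / ((2 ^ s) ^ 2 * L s) +
            ε * (2 ^ m * E) / ((2 ^ s) ^ 2 * L s) := by ring
        rw [e5]
        exact add_le_add p3 p3'
      · rw [e1, e3]
        have e4 : ((qf W : ℝ) - qf W₀) * x - ((bf W : ℝ) - bf W₀) =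
            ((qf W : ℝ) * x - bf W - γ) - ((qf W₀ : ℝ) * x - bf W₀ - γ) := by ring
        rw [e4]
        refine (abs_sub _ _).trans ?_
        have e5 : 8 * (2 : ℝ) ^ s / 2 ^ m = 4 * 2 ^ s / 2 ^ m + 4 * 2 ^ s / 2 ^ m := by ring
        rw [e5]
        exact add_le_add p4 p4'
  have h5 : (X.card : ℝ) ≤ 5 * ((X.image z).card : ℝ) := by exact_mod_cast hfib
  calc (X.card : ℝ) ≤ 5 * ((X.image z).card : ℝ) := h5
    _ ≤ 5 * (8192 * ε * E / L s) := mul_le_mul_of_nonneg_left hcount (by norm_num)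
    _ = 40960 * ε * E / L s := by ring

end Pool.Agent.H587.PG
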