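import Mathlib
import Pool.Agent.H587.PG.Defs

set_option autoImplicit false

open Finset

namespace Pool.Agent.H587.PG

theorem locB_count_q (α κ c' : ℝ) (hα : Dio α κ c') (s : ℕ) (ρ : ℝ) (hρ : 0 ≤ ρ) (S : Finset ℕ)
    (hS : ∀ q ∈ S, 2 ^ s ≤ q ∧ q < 2 ^ (s + 1) ∧ nint (q * α) ≤ ρ) :
    (S.card : ℝ) ≤ 4 / κ * 2 ^ s * ρ * ((s : ℝ) + 1) ^ c' := by
  obtain ⟨hκ, hc', hD⟩ := hα
  have hL : (0 : ℝ) < ((s : ℝ) + 1) ^ c' := Real.rpow_pos_of_pos (by positivity) _
  rcases S.eq_empty_or_nonempty with hS0 | ⟨q₀, hq₀⟩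
  · rw [hS0, card_empty, Nat.cast_zero]
    positivity
  have hlog : ∀ q ∈ S, Nat.log 2 q = s := by
    intro q hq
    obtain ⟨h1, h2, -⟩ := hS q hq
    have hq0 : q ≠ 0 := by
      have := Nat.one_le_two_pow (n := s)
      omega
    exact (Nat.log_eq_iff (Or.inr ⟨by norm_num, hq0⟩)).2 ⟨h1, h2⟩
  obtain ⟨A, hA⟩ : ∃ A : ℝ, A = 2 ^ s * ρ * ((s : ℝ) + 1) ^ c' := ⟨_, rfl⟩
  have hκA : κ ≤ 2 * A := by
    obtain ⟨h1, h2, h3⟩ := hS q₀ hq₀
    have h4 : 1 ≤ q₀ := le_trans Nat.one_le_two_pow h1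
    have h5 := hD q₀ h4
    rw [hlog q₀ hq₀] at h5
    have h6 : (q₀ : ℝ) ≤ 2 ^ (s + 1) := by exact_mod_cast h2.le
    calc κ ≤ q₀ * ((s : ℝ) + 1) ^ c' * nint (q₀ * α) := h5
      _ ≤ 2 ^ (s + 1) * ((s : ℝ) + 1) ^ c' * ρ := by
          apply mul_le_mul (mul_le_mul_of_nonneg_right h6 hL.le) h3 (nint_nonneg _) (by positivity)
      _ = 2 * A := by rw [hA, pow_succ]; ring
  have hApos : 0 < A := by linarith
  have hρpos : 0 < ρ := by
    rcases hρ.lt_or_eq with h | h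
    · exact h
    · rw [← h] at hA
      rw [mul_zero, zero_mul] at hA
      linarith
  obtain ⟨δ, hδ⟩ : ∃ δ : ℝ, δ = κ / (2 * ρ * ((s : ℝ) + 1) ^ c') := ⟨_, rfl⟩
  have hδ0 : 0 < δ := by rw [hδ]; positivity
  -- separation
  have key : ∀ q₁ ∈ S, ∀ q₂ ∈ S, q₂ < q₁ → δ ≤ (q₁ : ℝ) - q₂ := by
    intro q₁ h₁ q₂ h₂ hlt
    obtain ⟨a1, a2, a3⟩ := hS q₁ h₁
    obtain ⟨b1, b2, b3⟩ := hS q₂ h₂
    obtain ⟨d, hd⟩ : ∃ d, d = q₁ - q₂ := ⟨_, rfl⟩
    have hd1 : 1 ≤ d := by omega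
    have hdr : (d : ℝ) = (q₁ : ℝ) - q₂ := by
      rw [hd, Nat.cast_sub hlt.le]
    have h5 := hD d hd1
    have h6 : Nat.log 2 d ≤ s := by
      rw [← hlog q₁ h₁]
      exact Nat.log_mono_right (by omega)
    have h7 : nint (d * α) ≤ 2 * ρ := by
      have h8 := nint_le (d * α) (round (q₁ * α) - round (q₂ * α))
      refine h8.trans ?_
      have e : (d : ℝ) * α - ((round ((q₁ : ℝ) * α) - round ((q₂ : ℝ) * α) : ℤ) : ℝ) =
          ((q₁ : ℝ) * α - (round ((q₁ : ℝ) * α) : ℝ)) -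
            ((q₂ : ℝ) * α - (round ((q₂ : ℝ) * α) : ℝ)) := by
        rw [hdr]
        push_cast
        ring
      rw [e]
      refine (abs_sub _ _).trans ?_
      unfold nint at a3 b3
      linarith
    have h9 : ((Nat.log 2 d : ℝ) + 1) ^ c' ≤ ((s : ℝ) + 1) ^ c' := by
      apply Real.rpow_le_rpow (by positivity) _ hc'
      have : (Nat.log 2 d : ℝ) ≤ s := by exact_mod_cast h6
      linarith
    have h10 : κ ≤ d * ((s : ℝ) + 1) ^ c' * (2 * ρ) := by
      refine h5.trans ?_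
      apply mul_le_mul (mul_le_mul_of_nonneg_left h9 (Nat.cast_nonneg _)) h7 (nint_nonneg _)
        (by positivity)
    rw [hδ, ← hdr, div_le_iff₀ (by positivity)]
    calc κ ≤ d * ((s : ℝ) + 1) ^ c' * (2 * ρ) := h10
      _ = d * (2 * ρ * ((s : ℝ) + 1) ^ c') := by ring
  have hcard := card_le_of_sep S (fun q : ℕ => (q : ℝ)) (2 ^ s) (2 ^ s) δ hδ0
    (fun q hq => by
      obtain ⟨h1, h2, -⟩ := hS q hq
      constructor
      · show (2 : ℝ) ^ s ≤ (q : ℝ)
        exact_mod_cast h1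
      · show (q : ℝ) ≤ (2 : ℝ) ^ s + 2 ^ s
        have h3 : (q : ℝ) ≤ 2 ^ (s + 1) := by exact_mod_cast h2.le
        rw [pow_succ] at h3
        linarith)
    (fun q₁ h₁ q₂ h₂ hne => by
      show δ ≤ |(q₁ : ℝ) - (q₂ : ℝ)|
      rcases lt_or_gt_of_ne hne with h | h
      · rw [abs_sub_comm]
        exact (key q₂ h₂ q₁ h₁ h).trans (le_abs_self _)
      · exact (key q₁ h₁ q₂ h₂ h).trans (le_abs_self _))
    (by positivity)
  have e1 : (2 : ℝ) ^ s / δ = 2 * A / κ := by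
    rw [hδ, hA]
    field_simp
  have e2 : (1 : ℝ) ≤ 2 * A / κ := by
    rw [le_div_iff₀ hκ]
    linarith
  rw [e1] at hcard
  calc (S.card : ℝ) ≤ 2 * A / κ + 1 := hcard
    _ ≤ 2 * A / κ + 2 * A / κ := by linarith
    _ = 4 / κ * 2 ^ s * ρ * ((s : ℝ) + 1) ^ c' := by rw [hA]; ring

open Classical in
theorem loc_B (α γ ε c' κ : ℝ) (L : ℕ → ℝ) (hL : Rate L c') (hα : Dio α κ c') (hε : 0 < ε) (n e s V : ℕ) (he : 1 ≤ e)
    (hen : e ≤ n) (hs : 2 ^ (n - e) < 16 * 2 ^ s) :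
    ((((range (2 ^ n)).filter (fun W => W / 2 ^ e = V ∧ ∃ q ∈ TQ α ε L n s, ∃ b : ℤ,
      |(W : ℝ) - 2 ^ n * ((b + γ) / q)| ≤ 2)).card : ℕ) : ℝ) ≤ 480 / κ * (((s : ℝ) + 1) ^ c' / L s) * ε * 2 ^ e := by
  have hκ : 0 < κ := hα.1
  obtain ⟨F, hF⟩ : ∃ F : Finset ℕ, F = (range (2 ^ n)).filter (fun W => W / 2 ^ e = V ∧
      ∃ q ∈ TQ α ε L n s, ∃ b : ℤ, |(W : ℝ) - 2 ^ n * ((b + γ) / q)| ≤ 2) := ⟨_, rfl⟩
  rw [← hF]
  have hL' : (0 : ℝ) < ((s : ℝ) + 1) ^ c' := Real.rpow_pos_of_pos (by positivity) _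
  have hLs : (0 : ℝ) < L s := lt_of_lt_of_le hL' (hL.2 s)
  -- powers of two
  obtain ⟨T, hT⟩ : ∃ T : ℝ, T = 2 ^ (n - e) := ⟨_, rfl⟩
  obtain ⟨E, hE⟩ : ∃ E : ℝ, E = 2 ^ e := ⟨_, rfl⟩
  obtain ⟨B, hB⟩ : ∃ B : ℝ, B = 2 ^ s := ⟨_, rfl⟩
  have hT0 : 0 < T := by rw [hT]; positivity
  have hE0 : 0 < E := by rw [hE]; positivity
  have hB0 : 0 < B := by rw [hB]; positivity
  have hE2 : 2 ≤ E := by
    rw [hE]
    calc (2 : ℝ) = 2 ^ 1 := (pow_one _).symm
      _ ≤ 2 ^ e := pow_le_pow_right₀ (by norm_num) he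
  have hn2 : (2 : ℝ) ^ n = T * E := by
    rw [hT, hE, ← pow_add, Nat.sub_add_cancel hen]
  have hTB : T < 16 * B := by
    rw [hT, hB]
    exact_mod_cast hs
  -- the pairs
  have hch : ∀ W ∈ F, ∃ p : ℕ × ℤ, p.1 ∈ TQ α ε L n s ∧
      |(W : ℝ) - 2 ^ n * ((p.2 + γ) / p.1)| ≤ 2 := by
    intro W hW
    rw [hF, mem_filter] at hW
    obtain ⟨-, -, q, hq, b, hb⟩ := hW
    exact ⟨(q, b), hq, hb⟩
  choose! φ hφ using hch
  obtain ⟨P, hP⟩ : ∃ P : Finset (ℕ × ℤ), P = F.image φ := ⟨_, rfl⟩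
  obtain ⟨Qf, hQf⟩ : ∃ Qf : Finset ℕ, Qf = P.image Prod.fst := ⟨_, rfl⟩
  -- five strings for each pair
  have h5 : (F.card : ℝ) ≤ P.card * 5 := by
    have h1 : F.card = ∑ p ∈ P, (F.filter fun W => φ W = p).card :=
      card_eq_sum_card_fiberwise (fun W hW => by
        rw [hP]
        exact mem_coe.2 (mem_image_of_mem _ hW))
    rw [h1]
    push_cast
    refine (sum_le_card_nsmul _ _ 5 fun p _ => ?_).trans (by rw [nsmul_eq_mul])
    apply card_near _ (2 ^ n * ((p.2 + γ) / p.1))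
    intro W hW
    rw [mem_filter] at hW
    have := (hφ W hW.1).2
    rwa [hW.2] at this
  -- the values of b
  have hb : (P.card : ℝ) ≤ Qf.card * (24 * B / T) := by
    have h1 : P.card = ∑ q ∈ Qf, (P.filter fun p => p.1 = q).card :=
      card_eq_sum_card_fiberwise (fun p hp => by
        rw [hQf]
        exact mem_coe.2 (mem_image_of_mem _ hp))
    rw [h1]
    push_cast
    refine (sum_le_card_nsmul _ _ (24 * B / T) fun q hq => ?_).trans (by rw [nsmul_eq_mul])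
    have h2 := card_le_of_sep (P.filter fun p => p.1 = q) (fun p => (p.2 : ℝ))
      (q * (V / T) - γ - 4 * B / T) (8 * B / T) 1 one_pos
      (fun p hp => by
        rw [mem_filter] at hp
        obtain ⟨hp1, hp2⟩ := hp
        rw [hP, mem_image] at hp1
        obtain ⟨W, hW, hWp⟩ := hp1
        obtain ⟨h3, h4⟩ := hφ W hW
        rw [hWp] at h3 h4
        have hWV : W / 2 ^ e = V := by
          rw [hF, mem_filter] at hW
          exact hW.2.1
        have hq1 : (2 : ℕ) ^ s ≤ p.1 := h3.1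
        have hq2 : p.1 < 2 ^ (s + 1) := h3.2.1
        rw [hp2] at hq1 hq2 h4
        have hqpos : (0 : ℝ) < q := by
          have := Nat.one_le_two_pow (n := s)
          exact_mod_cast (by omega : 0 < q)
        have hq3 : (q : ℝ) ≤ 2 * B := by
          have h6 : (q : ℝ) ≤ 2 ^ (s + 1) := by exact_mod_cast hq2.le
          rw [pow_succ, ← hB] at h6
          linarith
        have hV1 : V * 2 ^ e ≤ W := by
          rw [← hWV]
          exact Nat.div_mul_le_self _ _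
        have hV2 : W < (V + 1) * 2 ^ e := by
          rw [← hWV]
          exact (Nat.div_lt_iff_lt_mul (by positivity)).1 (Nat.lt_succ_self _)
        have hV1r : (V : ℝ) * E ≤ W := by
          rw [hE]
          exact_mod_cast hV1
        have hV2r : (W : ℝ) ≤ V * E + E := by
          have h6 : (W : ℝ) < ((V : ℝ) + 1) * E := by
            rw [hE]
            exact_mod_cast hV2
          linarith
        rw [hn2] at h4
        obtain ⟨h7, h8⟩ := abs_le.1 h4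
        obtain ⟨y, hy⟩ : ∃ y : ℝ, y = ((p.2 : ℝ) + γ) / q := ⟨_, rfl⟩
        rw [← hy] at h7 h8
        have hyq : (p.2 : ℝ) = q * y - γ := by
          rw [hy]
          field_simp
          ring
        -- bounds for T y
        have h9 : T * y ≤ V + 2 := by
          have h10 : (T * y) * E ≤ (V + 2) * E := by
            have e1 : T * E * y = (T * y) * E := by ring
            rw [e1] at h7 h8
            nlinarith
          exact le_of_mul_le_mul_right h10 hE0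
        have h10 : (V : ℝ) - 2 ≤ T * y := by
          have h10 : ((V : ℝ) - 2) * E ≤ (T * y) * E := by
            have e1 : T * E * y = (T * y) * E := by ring
            rw [e1] at h7 h8
            nlinarith
          exact le_of_mul_le_mul_right h10 hE0
        have h11 : y ≤ V / T + 2 / T := by
          rw [← add_div, le_div_iff₀ hT0]
          linarith
        have h12 : V / T - 2 / T ≤ y := by
          rw [← sub_div, div_le_iff₀ hT0]
          linarith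
        have h13 : (q : ℝ) * (2 / T) ≤ 4 * B / T := by
          rw [mul_div_assoc', div_le_div_iff_of_pos_right hT0]
          linarith
        have h14 := mul_le_mul_of_nonneg_left h11 hqpos.le
        have h15 := mul_le_mul_of_nonneg_left h12 hqpos.le
        have e3 : 8 * B / T = 4 * B / T + 4 * B / T := by ring
        show q * (V / T) - γ - 4 * B / T ≤ (p.2 : ℝ) ∧
          (p.2 : ℝ) ≤ q * (V / T) - γ - 4 * B / T + 8 * B / T
        rw [hyq, e3]
        constructor <;> linarith)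
      (fun p hp p' hp' hne => by
        show (1 : ℝ) ≤ |(p.2 : ℝ) - (p'.2 : ℝ)|
        rw [mem_filter] at hp hp'
        have h3 : p.2 ≠ p'.2 := by
          intro h
          exact hne (Prod.ext (hp.2.trans hp'.2.symm) h)
        have h4 : (1 : ℤ) ≤ |p.2 - p'.2| := Int.one_le_abs (sub_ne_zero.2 h3)
        exact_mod_cast h4)
      (by positivity)
    rw [div_one] at h2
    have h3 : 1 ≤ 16 * B / T := by
      rw [le_div_iff₀ hT0]
      linarith
    have h4 : 24 * B / T = 8 * B / T + 16 * B / T := by ring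
    rw [h4]
    linarith
  -- the values of q
  obtain ⟨ρ, hρ⟩ : ∃ ρ : ℝ, ρ = ε * 2 ^ n / (4 ^ s * L s) := ⟨_, rfl⟩
  have hρ0 : 0 ≤ ρ := by rw [hρ]; positivity
  have hq := locB_count_q α κ c' hα s ρ hρ0 Qf (fun q hq => by
    rw [hQf, mem_image] at hq
    obtain ⟨p, hp, hpq⟩ := hq
    rw [hP, mem_image] at hp
    obtain ⟨W, hW, hWp⟩ := hp
    have h3 := (hφ W hW).1
    rw [hWp, hpq] at h3
    refine ⟨h3.1, h3.2.1, ?_⟩
    rw [hρ, le_div_iff₀ (by positivity)]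
    exact h3.2.2)
  -- the final calculation
  have h4s : (4 : ℝ) ^ s = B * B := by
    rw [hB, ← mul_pow]
    norm_num
  calc (F.card : ℝ) ≤ P.card * 5 := h5
    _ ≤ Qf.card * (24 * B / T) * 5 := by linarith
    _ ≤ (4 / κ * 2 ^ s * ρ * ((s : ℝ) + 1) ^ c') * (24 * B / T) * 5 := by
        apply mul_le_mul_of_nonneg_right _ (by norm_num)
        exact mul_le_mul_of_nonneg_right hq (by positivity)
    _ = 480 / κ * (((s : ℝ) + 1) ^ c' / L s) * ε * E := by
        rw [hρ, h4s, hn2, ← hB]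
        field_simp
        ring
    _ = 480 / κ * (((s : ℝ) + 1) ^ c' / L s) * ε * 2 ^ e := by
        rw [hE]

end Pool.Agent.H587.PG
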