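import Mathlib
import Pool.Agent.H587.PD.Pos
import Pool.Agent.H587.PG.PGLOCA
import Pool.Agent.H587.PG.PGLOCB
import Pool.Agent.H587.PG.PGCOUNT

set_option autoImplicit false

open Finset Filter

namespace Pool.Agent.H587.PG

open Classical in
/-- the local count of the removed strings -/
lemma H2_main (α γ c' κ ε K : ℝ) (L : ℕ → ℝ) (hL : Rate L c') (hα : Dio α κ c') (hK : 0 ≤ K) (n d : ℕ) (hd1 : 1 ≤ d)
    (hdep : 9 * d ≤ n) (hn5 : 5 ≤ n) (hε0 : 0 < ε) (hεκ : 2 * ε < κ)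
    (hLd : L n ≤ ε * 2 ^ (d + 1)) (hdbl : ∀ s : ℕ, s ≤ n → n ≤ 3 * s → L n ≤ K * L s)
    (V : ℕ) (e : ℕ) (he : e = 3 * (d + 1) - 5)
    (hV : ∀ i, 1 ≤ i → i ≤ n - e → V / 2 ^ (n - e - i) ∉ R1 α 0 ε L i) :
    ((((range (2 ^ n)).filter (fun W => W / 2 ^ e = V ∧ W ∈ R1 α γ ε L n)).card : ℕ) : ℝ) ≤
      ε * (K * (40960 + 480 / κ)) * ((((n : ℝ) + 1) + (3 * (d : ℝ) + 2) * ((n : ℝ) + 1) ^ c') / L n) * 2 ^ e := by
  set f := d + 1 with hf
  have hn0 : (0 : ℝ) < n := by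
    have : 0 < n := by omega
    exact_mod_cast this
  have hκ : 0 < κ := hα.1
  have hc'0 : 0 ≤ c' := hα.2.1
  have hLpos : ∀ s, 0 < L s := by
    intro s
    refine lt_of_lt_of_le ?_ (hL.2 s)
    positivity
  have hsn : ∀ s : ℕ, s ≤ n → L s ≤ ε * 2 ^ f := fun s hs => (hL.1 hs).trans hLd
  have hs3 : ∀ s : ℕ, s ≤ n → ε * 2 ^ n ≤ 4 ^ s * L s → n ≤ 3 * s := by
    intro s hs h
    have h1 : ε * 2 ^ n ≤ 4 ^ s * (ε * 2 ^ f) := h.trans (by gcongr; exact hsn s hs)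
    have h2 : (2 : ℝ) ^ n ≤ 2 ^ (2 * s + f) := by
      have h3 : (4 : ℝ) ^ s * (ε * 2 ^ f) = ε * 2 ^ (2 * s + f) := by
        have h3' : (2 : ℝ) ^ (2 * s + f) = 4 ^ s * 2 ^ f := by
          rw [pow_add, pow_mul]; norm_num
        rw [h3']; ring
      rw [h3] at h1
      exact le_of_mul_le_mul_left h1 hε0
    have h3 : n ≤ 2 * s + f := by
      rwa [pow_le_pow_iff_right₀ (by norm_num)] at h2
    omega
  set a : ℝ := 40960 * ε * 2 ^ e * (K / L n) with ha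
  set b : ℝ := 480 / κ * ε * 2 ^ e * (((n : ℝ) + 1) ^ c' * (K / L n)) with hb
  have hKL : 0 ≤ K / L n := div_nonneg hK (hLpos n).le
  have ha0 : 0 ≤ a := by positivity
  have hb0 : 0 ≤ b := by positivity
  have hinv : ∀ s : ℕ, s ≤ n → n ≤ 3 * s → 1 / L s ≤ K / L n := by
    intro s h1 h2
    have := hdbl s h1 h2
    rw [div_le_div_iff₀ (hLpos s) (hLpos n)]
    linarith
  set J : Finset ℕ := (range (n + 1)).filter (fun s : ℕ => ε * 2 ^ n ≤ 4 ^ s * L s) with hJ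
  set Y : ℕ → Finset ℕ := fun s => (range (2 ^ n)).filter (fun W => W / 2 ^ e = V ∧ ∃ q ∈ TQ α ε L n s, ∃ b : ℤ,
      |(W : ℝ) - 2 ^ n * ((b + γ) / q)| ≤ 2) with hY
  have h1 : (range (2 ^ n)).filter (fun W => W / 2 ^ e = V ∧ W ∈ R1 α γ ε L n) ⊆ J.biUnion Y := by
    intro W hW
    rw [mem_filter] at hW
    obtain ⟨hW1, hW2, s, hs1, hs2, hs3⟩ := hW
    rw [mem_biUnion]
    refine ⟨s, ?_, ?_⟩
    · rw [hJ, mem_filter, mem_range]
      exact ⟨by omega, hs2⟩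
    · rw [hY, mem_filter]
      exact ⟨hW1, hW2, hs3⟩
  have h2 : ∀ s ∈ J, ((Y s).card : ℝ) ≤ a + (if 2 ^ (n - e) < 16 * 2 ^ s then b else 0) := by
    intro s hs
    rw [hJ, mem_filter, mem_range] at hs
    obtain ⟨hs1, hs2⟩ := hs
    have hs4 := hs3 s (by omega) hs2
    have hs5 := hinv s (by omega) hs4
    split_ifs with hcase
    · have h3 := loc_B α γ ε c' κ L hL hα hε0 n e s V (by omega) (by omega) hcase
      refine (show ((Y s).card : ℝ) ≤ _ from h3).trans ?_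
      have h4 : 480 / κ * (((s : ℝ) + 1) ^ c' / L s) * ε * 2 ^ e ≤ b := by
        have h6 : ((s : ℝ) + 1) ^ c' ≤ ((n : ℝ) + 1) ^ c' := by
          apply Real.rpow_le_rpow (by positivity) _ hc'0
          have : s ≤ n := by omega
          have : (s : ℝ) ≤ n := by exact_mod_cast this
          linarith
        calc 480 / κ * (((s : ℝ) + 1) ^ c' / L s) * ε * 2 ^ e = (480 / κ * ε * 2 ^ e) * (((s : ℝ) + 1) ^ c' * (1 / L s)) := by ring
          _ ≤ (480 / κ * ε * 2 ^ e) * (((n : ℝ) + 1) ^ c' * (K / L n)) := by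
            apply mul_le_mul_of_nonneg_left _ (by positivity)
            apply mul_le_mul h6 hs5 (by have := hLpos s; positivity) (by positivity)
          _ = b := by rw [hb]
      linarith
    · have h3 := loc_A α γ ε c' κ L hL hα hε0 hεκ n f s V (by omega) (by omega) (by rw [← he]; omega) hs2
        (hsn s (by omega)) (by rw [← he]; exact hV)
      rw [← he] at h3
      refine (show ((Y s).card : ℝ) ≤ _ from h3).trans ?_
      rw [add_zero]
      calc 40960 * ε * 2 ^ e / L s = (40960 * ε * 2 ^ e) * (1 / L s) := by ring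
        _ ≤ (40960 * ε * 2 ^ e) * (K / L n) := by gcongr
        _ = a := by rw [ha]
  have h3 : ((((range (2 ^ n)).filter (fun W => W / 2 ^ e = V ∧ W ∈ R1 α γ ε L n)).card : ℕ) : ℝ) ≤ ∑ s ∈ J, ((Y s).card : ℝ) := by
    have := (card_le_card h1).trans card_biUnion_le
    exact_mod_cast this
  refine h3.trans ((sum_le_sum h2).trans ?_)
  rw [sum_add_distrib, sum_const, nsmul_eq_mul, ← sum_filter, sum_const, nsmul_eq_mul]
  have h4 : (J.card : ℝ) ≤ (n : ℝ) + 1 := by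
    have : J.card ≤ (range (n + 1)).card := card_le_card (filter_subset _ _)
    rw [card_range] at this
    exact_mod_cast this
  have h5 : ((J.filter (fun s => 2 ^ (n - e) < 16 * 2 ^ s)).card : ℝ) ≤ 3 * (d : ℝ) + 2 := by
    have h6 : J.filter (fun s => 2 ^ (n - e) < 16 * 2 ^ s) ⊆ Ioc (n - (e + 4)) n := by
      intro s hs
      rw [mem_filter, hJ, mem_filter, mem_range] at hs
      obtain ⟨⟨h7, _⟩, h8⟩ := hs
      rw [mem_Ioc]
      refine ⟨?_, by omega⟩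
      have h9 : (16 : ℕ) * 2 ^ s = 2 ^ (s + 4) := by rw [pow_add]; norm_num; ring
      rw [h9] at h8
      have h10 := (Nat.pow_lt_pow_iff_right (by norm_num : 1 < 2)).1 h8
      omega
    have h7 := card_le_card h6
    rw [Nat.card_Ioc] at h7
    have h8 : (J.filter (fun s => 2 ^ (n - e) < 16 * 2 ^ s)).card ≤ 3 * d + 2 := by omega
    exact_mod_cast h8
  have hLn := hLpos n
  have hn1 : (0 : ℝ) ≤ ((n : ℝ) + 1) ^ c' := by positivity
  have hx1 : 0 ≤ ε * K * 2 ^ e / L n := by positivity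
  calc (J.card : ℝ) * a + ((J.filter (fun s => 2 ^ (n - e) < 16 * 2 ^ s)).card : ℝ) * b ≤
      ((n : ℝ) + 1) * a + (3 * (d : ℝ) + 2) * b := by gcongr
    _ = (ε * K * 2 ^ e / L n) * (40960 * ((n : ℝ) + 1) + 480 / κ * ((3 * (d : ℝ) + 2) * ((n : ℝ) + 1) ^ c')) := by
        rw [ha, hb]; field_simp
    _ ≤ (ε * K * 2 ^ e / L n) * ((40960 + 480 / κ) * (((n : ℝ) + 1) + (3 * (d : ℝ) + 2) * ((n : ℝ) + 1) ^ c')) := by
        apply mul_le_mul_of_nonneg_left _ hx1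
        have h6 : 0 ≤ 480 / κ * ((n : ℝ) + 1) := by positivity
        have h7 : 0 ≤ 40960 * ((3 * (d : ℝ) + 2) * ((n : ℝ) + 1) ^ c') := by positivity
        nlinarith
    _ = _ := by ring

end Pool.Agent.H587.PG
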