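import Mathlib
import Pool.Agent.H587.PD.Tree2

set_option autoImplicit false

open Finset Filter

namespace Pool.Agent.H587.PG

open Pool.Agent.H587.PD (Sur Sur_subset Sur_anc Sur_step exists_point exp_le_one_sub)

/-- the removed digit strings -/
def RR (n₁ : ℕ) (R1 : ℕ → Set ℕ) (pts : ℕ → Set ℝ) (n : ℕ) : Set ℕ :=
  {W | W ∈ R1 n ∨ (n₁ < n ∧ ∃ y ∈ pts n, |(W : ℝ) - (2 : ℝ) ^ n * y| ≤ 2)}

lemma Sur_not (R : ℕ → Set ℕ) (k i V : ℕ) (hV : V ∈ Sur 2 R (k + i)) (hk : 1 ≤ k) : V / 2 ^ i ∉ R k := by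
  classical
  have h1 := Sur_anc 2 (by norm_num) R k i V hV
  obtain ⟨k', rfl⟩ : ∃ k', k = k' + 1 := ⟨k - 1, by omega⟩
  unfold Sur at h1
  rw [mem_filter] at h1
  exact h1.2.2

open Classical in
/-- the main induction -/
theorem tree_abs (n₁ : ℕ) (hn₁ : 1 ≤ n₁) (R1 : ℕ → Set ℕ) (e : ℕ → ℕ) (D F : ℕ → ℝ) (δ : ℝ)
    (hδ0 : 0 ≤ δ) (hδ : n₁ * δ ≤ 1 / 2)
    (he1 : ∀ n, n₁ < n → 1 ≤ e n)
    (hA1 : ∀ n, n₁ < n → 3 * e n ≤ n)
    (hA2 : ∀ n, n₁ < n → ∀ j, n ≤ 2 * j → j ≤ n → n₁ < j → (e n : ℝ) * D j ≤ 1 / 4)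
    (hF1 : 1 ≤ F n₁)
    (hA5 : ∀ n : ℕ, n₁ < n → F (n - 1) + 2 * D n ≤ F n ∧ 0 ≤ D n ∧ D n ≤ 1 / 2)
    (H1 : ∀ n, 1 ≤ n → n ≤ n₁ → ((((range (2 ^ n)).filter (fun W => W ∈ R1 n)).card : ℕ) : ℝ) ≤ δ * 2 ^ n)
    (H2 : ∀ n, n₁ < n → ∀ V : ℕ, V < 2 ^ (n - e n) → (∀ i, 1 ≤ i → i ≤ n - e n → V / 2 ^ (n - e n - i) ∉ R1 i) →
      ((((range (2 ^ n)).filter (fun W => W / 2 ^ (e n) = V ∧ W ∈ R1 n)).card : ℕ) : ℝ) ≤
        1 / 16 * D n * 2 ^ (e n))
    (pts : ℕ → Set ℝ)
    (hpts : ∀ n : ℕ, n₁ < n → ∀ X : Finset ℕ, (∀ W ∈ X, ∃ y ∈ pts n, |(W : ℝ) - (2 : ℝ) ^ n * y| ≤ 2) →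
      (X.card : ℝ) ≤ 1 / 2 * (2 : ℝ) ^ n * D n * Real.exp (-F (n - 1))) :
    ∃ x : ℝ, 0 ≤ x ∧ x ≤ 1 ∧
      (∀ n, 1 ≤ n → ∃ W : ℕ, W ∉ R1 n ∧ (W : ℝ) ≤ (2 : ℝ) ^ n * x ∧ (2 : ℝ) ^ n * x ≤ W + 1) ∧
      (∀ n, n₁ < n → ∀ y ∈ pts n, 1 / (2 : ℝ) ^ n < |x - y|) := by
  set R := RR n₁ R1 pts with hR
  set σ : ℕ → ℝ := fun n => ((Sur 2 R n).card : ℝ) / (2 : ℝ) ^ n with hσ
  have hσcard : ∀ n, ((Sur 2 R n).card : ℝ) = σ n * (2 : ℝ) ^ n := by
    intro n
    simp only [hσ]
    field_simp
  have hσ0 : ∀ n, 0 ≤ σ n := fun n => div_nonneg (Nat.cast_nonneg _) (pow_nonneg (by norm_num) _)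
  have hσ1 : ∀ n, σ n ≤ 1 := by
    intro n
    simp only [hσ]
    rw [div_le_one (by positivity)]
    have h1 := card_le_card (Sur_subset 2 R n)
    rw [card_range] at h1
    exact_mod_cast h1
  have hσz : σ 0 = 1 := by
    simp [hσ, Sur]
  clear_value σ
  have hstart : ∀ n, n ≤ n₁ → 1 - n * δ ≤ σ n := by
    intro n
    induction n with
    | zero => intro _; rw [hσz]; simp
    | succ n ih =>
      intro hn
      have ih' := ih (by omega)
      set G := (range (2 ^ (n + 1))).filter (fun W => W ∈ R1 (n + 1)) with hG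
      have hstep := Sur_step 2 (by norm_num) R n G (by
        intro W hW1 hW2 hW3
        rw [hG, mem_filter]
        refine ⟨hW1, ?_⟩
        rcases hW3 with h | h
        · exact h
        · omega)
      have h1 := H1 (n + 1) (by omega) hn
      rw [← hG] at h1
      have h2 : (2 : ℝ) * (Sur 2 R n).card ≤ (Sur 2 R (n + 1)).card + G.card := by exact_mod_cast hstep
      rw [hσcard, hσcard] at h2
      have h3 : (0 : ℝ) < 2 ^ (n + 1) := by positivity
      have h4 : (2 : ℝ) * (σ n * 2 ^ n) = σ n * 2 ^ (n + 1) := by ring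
      rw [h4] at h2
      have h5 : (σ n - δ) * 2 ^ (n + 1) ≤ σ (n + 1) * 2 ^ (n + 1) := by nlinarith
      have h6 := le_of_mul_le_mul_right h5 h3
      push_cast
      linarith
  have hstart' : ∀ n, n ≤ n₁ → 1 / 2 ≤ σ n := by
    intro n hn
    have h1 := hstart n hn
    have h2 : (n : ℝ) * δ ≤ n₁ * δ := by
      apply mul_le_mul_of_nonneg_right _ hδ0
      exact_mod_cast hn
    linarith
  have hmain : ∀ n, n₁ ≤ n → (∀ k, n₁ ≤ k → k < n → (1 - D (k + 1)) * σ k ≤ σ (k + 1)) ∧
      Real.exp (-F n) ≤ σ n := by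
    intro n hn
    induction n, hn using Nat.le_induction with
    | base =>
      refine ⟨fun k hk1 hk2 => by omega, ?_⟩
      refine le_trans ?_ (hstart' n₁ le_rfl)
      have h2 : Real.exp (-F n₁) ≤ Real.exp (-1) := Real.exp_le_exp.2 (by linarith)
      refine h2.trans ?_
      rw [Real.exp_neg, inv_le_comm₀ (Real.exp_pos _) (by norm_num)]
      have := Real.exp_one_gt_d9
      linarith
    | succ n hnn ih =>
      obtain ⟨ih1, ih2⟩ := ih
      have hσn : 0 < σ n := lt_of_lt_of_le (Real.exp_pos _) ih2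
      have he1' := he1 (n + 1) (by omega)
      have hepos : (0 : ℝ) < e (n + 1) := by exact_mod_cast he1'
      obtain ⟨a, ha⟩ : ∃ a : ℝ, a = 1 / (4 * (e (n + 1) : ℝ)) := ⟨_, rfl⟩
      have ha0 : 0 ≤ a := by rw [ha]; positivity
      have hae : (e (n + 1) : ℝ) * a = 1 / 4 := by rw [ha]; field_simp
      have haD : ∀ j, n + 1 ≤ 2 * j → j ≤ n + 1 → n₁ < j → D j ≤ a := by
        intro j h1 h2 h3
        have h4 := hA2 (n + 1) (by omega) j h1 h2 h3
        rw [ha, le_div_iff₀ (by positivity)]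
        linarith
      -- the ratio
      have hratio : ∀ i k : ℕ, n₁ ≤ k → k + i ≤ n → (n + 1 : ℕ) ≤ 2 * k →
          (1 - i * a) * σ k ≤ σ (k + i) := by
        intro i
        induction i with
        | zero => intro k _ _ _; simp
        | succ i ihi =>
          intro k hk0 hk hk2
          have h1 := ihi k hk0 (by omega) hk2
          have h2 := ih1 (k + i) (by omega) (by omega)
          have hσk : 0 ≤ σ k := hσ0 _
          have hσki : 0 ≤ σ (k + i) := hσ0 _
          have h3 : D (k + i + 1) ≤ a := haD (k + i + 1) (by omega) (by omega) (by omega)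
          have h4 : (1 - a) * σ (k + i) ≤ σ (k + (i + 1)) := by
            refine le_trans ?_ h2
            apply mul_le_mul_of_nonneg_right _ hσki
            linarith
          have h5 : (1 - ((i + 1 : ℕ) : ℝ) * a) * σ k ≤ (1 - i * a) * σ k - a * σ k := by
            push_cast
            linarith
          by_cases hcase : σ (k + i) ≤ σ k
          · have h6 : a * σ (k + i) ≤ a * σ k := mul_le_mul_of_nonneg_left hcase ha0
            linarith
          · push Not at hcase
            by_cases h1a : a ≤ 1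
            · have h7 : (1 - a) * σ k ≤ (1 - a) * σ (k + i) := mul_le_mul_of_nonneg_left hcase.le (by linarith)
              have h8 : (1 - ((i + 1 : ℕ) : ℝ) * a) * σ k ≤ (1 - a) * σ k := by
                apply mul_le_mul_of_nonneg_right _ hσk
                push_cast
                have : 0 ≤ (i : ℝ) * a := by positivity
                linarith
              linarith
            · push Not at h1a
              have h8 : (1 - ((i + 1 : ℕ) : ℝ) * a) * σ k ≤ 0 := by
                apply mul_nonpos_of_nonpos_of_nonneg _ hσk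
                push_cast
                have : 0 ≤ (i : ℝ) * a := by positivity
                linarith
              have : 0 ≤ σ (k + (i + 1)) := hσ0 _
              linarith
      set m := n + 1 - e (n + 1) with hm
      have hA1' := hA1 (n + 1) (by omega)
      have hk2 : n + 1 ≤ 2 * m := by omega
      have hmn : m ≤ n := by omega
      have h34 : ∀ i : ℕ, i ≤ e (n + 1) → (i : ℝ) * a ≤ 1 / 4 := by
        intro i hi
        rw [← hae]
        apply mul_le_mul_of_nonneg_right _ ha0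
        exact_mod_cast hi
      have h6 : σ m ≤ 4 * σ n := by
        rcases Nat.lt_or_ge m n₁ with hmn₁ | hmn₁
        · have h3 := hratio (n - n₁) n₁ le_rfl (by omega) (by omega)
          have h4 : n₁ + (n - n₁) = n := by omega
          rw [h4] at h3
          have h5 := h34 (n - n₁) (by omega)
          have h7 := hstart' n₁ le_rfl
          have h8 := hσ1 m
          nlinarith
        · have h3 := hratio (n - m) m hmn₁ (by omega) hk2
          have h4 : m + (n - m) = n := by omega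
          rw [h4] at h3
          have h5 := h34 (n - m) (by omega)
          have h7 := hσ0 m
          nlinarith
      -- the counts
      set G1 := (range (2 ^ (n + 1))).filter (fun W => W / 2 ∈ Sur 2 R n ∧ W ∈ R1 (n + 1)) with hG1
      set G2 := (range (2 ^ (n + 1))).filter (fun W : ℕ => ∃ y ∈ pts (n + 1), |(W : ℝ) - (2 : ℝ) ^ (n + 1) * y| ≤ 2) with hG2
      have hstep := Sur_step 2 (by norm_num) R n (G1 ∪ G2) (by
        intro W hW1 hW2 hW3
        rw [mem_union]
        rcases hW3 with h | h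
        · left; rw [hG1, mem_filter]; exact ⟨hW1, hW2, h⟩
        · right; rw [hG2, mem_filter]; exact ⟨hW1, h.2⟩)
      have hG2c : (G2.card : ℝ) ≤ 1 / 2 * (2 : ℝ) ^ (n + 1) * D (n + 1) * σ n := by
        have h1 := hpts (n + 1) (by omega) G2 (fun W hW => by rw [hG2, mem_filter] at hW; exact hW.2)
        refine h1.trans ?_
        have h2 : Real.exp (-F (n + 1 - 1)) ≤ σ n := by
          have : n + 1 - 1 = n := by omega
          rw [this]
          exact ih2
        have hD0 := (hA5 (n + 1) (by omega)).2.1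
        gcongr
      have hG1c : (G1.card : ℝ) ≤ 1 / 2 * (2 : ℝ) ^ (n + 1) * D (n + 1) * σ n := by
        have h1 : G1 ⊆ (Sur 2 R m).biUnion (fun V => (range (2 ^ (n + 1))).filter
            (fun W => W / 2 ^ (e (n + 1)) = V ∧ W ∈ R1 (n + 1))) := by
          intro W hW
          rw [hG1, mem_filter] at hW
          obtain ⟨hW1, hW2, hW3⟩ := hW
          rw [mem_biUnion]
          refine ⟨W / 2 ^ (e (n + 1)), ?_, ?_⟩
          · have h3 : n = m + (e (n + 1) - 1) := by omega
            have h4 : W / 2 ∈ Sur 2 R (m + (e (n + 1) - 1)) := by rw [← h3]; exact hW2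
            have h5 := Sur_anc 2 (by norm_num) R m (e (n + 1) - 1) (W / 2) h4
            rw [Nat.div_div_eq_div_mul, ← pow_succ'] at h5
            have h6 : e (n + 1) - 1 + 1 = e (n + 1) := by omega
            rwa [h6] at h5
          · rw [mem_filter]
            exact ⟨hW1, rfl, hW3⟩
        have h2 := (card_le_card h1).trans card_biUnion_le
        have h3 : (G1.card : ℝ) ≤ ∑ V ∈ Sur 2 R m, 1 / 16 * D (n + 1) * 2 ^ (e (n + 1)) := by
          have h4 : (G1.card : ℝ) ≤ ((∑ V ∈ Sur 2 R m, ((range (2 ^ (n + 1))).filter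
            (fun W => W / 2 ^ (e (n + 1)) = V ∧ W ∈ R1 (n + 1))).card : ℕ) : ℝ) := by exact_mod_cast h2
          refine h4.trans ?_
          rw [Nat.cast_sum]
          apply sum_le_sum
          intro V hV
          have hV1 : V < 2 ^ (n + 1 - e (n + 1)) := by
            have := Sur_subset 2 R m hV
            rwa [mem_range] at this
          have h5 := H2 (n + 1) (by omega) V hV1 (by
            intro i hi1 hi2
            have h6 : V / 2 ^ (m - i) ∉ R i := by
              apply Sur_not R i (m - i) V _ hi1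
              have : i + (m - i) = m := by omega
              rw [this]; exact hV
            intro h7
            exact h6 (Or.inl h7))
          exact h5
        refine h3.trans ?_
        rw [sum_const, nsmul_eq_mul, hσcard]
        have h4 : (2 : ℝ) ^ (n + 1) = 2 ^ m * 2 ^ (e (n + 1)) := by
          rw [← pow_add]; congr 1; omega
        have h5 : 0 ≤ D (n + 1) := (hA5 (n + 1) (by omega)).2.1
        calc σ m * 2 ^ m * (1 / 16 * D (n + 1) * 2 ^ (e (n + 1))) =
            1 / 16 * D (n + 1) * (2 ^ m * 2 ^ (e (n + 1))) * σ m := by ring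
          _ = 1 / 16 * D (n + 1) * 2 ^ (n + 1) * σ m := by rw [h4]
          _ ≤ 1 / 16 * D (n + 1) * 2 ^ (n + 1) * (4 * σ n) := by gcongr
          _ ≤ _ := by
            have : 0 ≤ D (n + 1) * 2 ^ (n + 1) * σ n := by positivity
            nlinarith
      -- the new ratio
      have hnew : (1 - D (n + 1)) * σ n ≤ σ (n + 1) := by
        have h1 : (2 : ℝ) * (Sur 2 R n).card ≤ (Sur 2 R (n + 1)).card + (G1.card + G2.card) := by
          have h2 := hstep.trans (Nat.add_le_add_left (card_union_le G1 G2) _)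
          exact_mod_cast h2
        rw [hσcard, hσcard] at h1
        have hpn : 0 < (2 : ℝ) ^ (n + 1) := by positivity
        have h3 : (2 : ℝ) * (σ n * (2 : ℝ) ^ n) = σ n * (2 : ℝ) ^ (n + 1) := by ring
        rw [h3] at h1
        have h4 : ((1 - D (n + 1)) * σ n) * (2 : ℝ) ^ (n + 1) ≤ σ (n + 1) * (2 : ℝ) ^ (n + 1) := by
          nlinarith
        exact le_of_mul_le_mul_right h4 hpn
      refine ⟨fun k hk1 hk => ?_, ?_⟩
      · rcases Nat.lt_or_ge k n with h | h
        · exact ih1 k hk1 h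
        · have : k = n := by omega
          subst this
          exact hnew
      · obtain ⟨h5, h5', h6⟩ := hA5 (n + 1) (by omega)
        have h7 := exp_le_one_sub (D (n + 1)) h5' h6
        have h8 : F (n + 1 - 1) = F n := by congr 1
        rw [h8] at h5
        calc Real.exp (-F (n + 1)) ≤ Real.exp (-(2 * D (n + 1)) + -F n) := by
              apply Real.exp_le_exp.2; linarith
          _ = Real.exp (-(2 * D (n + 1))) * Real.exp (-F n) := by rw [Real.exp_add]
          _ ≤ (1 - D (n + 1)) * σ n := by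
              apply mul_le_mul h7 ih2 (Real.exp_pos _).le
              linarith
          _ ≤ _ := hnew
  have hne : ∀ n, (Sur 2 R n).Nonempty := by
    intro n
    rw [← card_pos]
    have h1 : 0 < σ n := by
      rcases Nat.lt_or_ge n n₁ with h | h
      · have := hstart' n h.le; linarith
      · exact lt_of_lt_of_le (Real.exp_pos _) (hmain n h).2
    have h2 := hσcard n
    have h3 : (0 : ℝ) < (Sur 2 R n).card := by rw [h2]; exact mul_pos h1 (by positivity)
    exact_mod_cast h3
  obtain ⟨x, hx0, hx1, hx⟩ := exists_point 2 (by norm_num) R hne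
  have hx' : ∀ n, 1 ≤ n → ∃ W : ℕ, W ∉ R n ∧ (W : ℝ) ≤ (2 : ℝ) ^ n * x ∧ (2 : ℝ) ^ n * x ≤ W + 1 := by
    intro n hn
    obtain ⟨W, hW, h1, h2⟩ := hx n
    obtain ⟨n', rfl⟩ : ∃ n', n = n' + 1 := ⟨n - 1, by omega⟩
    unfold Sur at hW
    rw [mem_filter] at hW
    push_cast at h1 h2
    exact ⟨W, hW.2.2, h1, h2⟩
  refine ⟨x, hx0, hx1, fun n hn => ?_, fun n hn y hy => ?_⟩
  · obtain ⟨W, h1, h2, h3⟩ := hx' n hn
    exact ⟨W, fun h => h1 (Or.inl h), h2, h3⟩
  · by_contra hcon
    push Not at hcon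
    obtain ⟨W, h1, h2, h3⟩ := hx' n (by omega)
    apply h1
    right
    refine ⟨hn, y, hy, ?_⟩
    have hpn : 0 < (2 : ℝ) ^ n := by positivity
    have h4 : |(2 : ℝ) ^ n * x - (2 : ℝ) ^ n * y| ≤ 1 := by
      rw [← mul_sub, abs_mul, abs_of_pos hpn]
      rw [le_div_iff₀ hpn] at hcon
      linarith
    rw [abs_le] at h4 ⊢
    constructor <;> linarith

end Pool.Agent.H587.PG
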