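import Mathlib
import Pool.Agent.H587.PG.Tree

set_option autoImplicit false

open Finset Filter

namespace Pool.Agent.H587.PG

open Pool.Agent.H587.PD (Sur Sur_subset Sur_anc Sur_step exists_point exp_le_one_sub)

/-- the surviving sets, as seen by the counting hypothesis at level `n + 1` -/
structure Surv (n₁ n : ℕ) (R1 : ℕ → Set ℕ) (D F : ℕ → ℝ) (S : ℕ → Finset ℕ) : Prop where
  sub : ∀ m, S m ⊆ range (2 ^ m)
  anc : ∀ m i V, V ∈ S (m + i) → V / 2 ^ i ∈ S m
  not : ∀ m V, 1 ≤ m → V ∈ S m → V ∉ R1 m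
  half : ∀ m, m ≤ n₁ → (2 : ℝ) ^ m ≤ 2 * (S m).card
  low : Real.exp (-F n) * 2 ^ n ≤ (S n).card
  ratio : ∀ m, n₁ ≤ m → m < n → (1 - D (m + 1)) * (2 * (S m).card) ≤ (S (m + 1)).card

open Classical in
/-- the main induction -/
theorem tree_or (n₁ : ℕ) (R1 : ℕ → Set ℕ) (D F : ℕ → ℝ) (δ : ℝ)
    (hδ0 : 0 ≤ δ) (hδ : n₁ * δ ≤ 1 / 2)
    (hF1 : 1 ≤ F n₁)
    (hA5 : ∀ n : ℕ, n₁ < n → F (n - 1) + 2 * D n ≤ F n ∧ 0 ≤ D n ∧ D n ≤ 1 / 2)
    (H1 : ∀ n, 1 ≤ n → n ≤ n₁ → ((((range (2 ^ n)).filter (fun W => W ∈ R1 n)).card : ℕ) : ℝ) ≤ δ * 2 ^ n)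
    (H2 : ∀ n, n₁ ≤ n → ∀ S : ℕ → Finset ℕ, Surv n₁ n R1 D F S →
      ((((range (2 ^ (n + 1))).filter (fun W => W / 2 ∈ S n ∧ W ∈ R1 (n + 1))).card : ℕ) : ℝ) ≤
        1 / 2 * D (n + 1) * (2 * (S n).card))
    (pts : ℕ → Set ℝ)
    (hpts : ∀ n : ℕ, n₁ < n → ∀ X : Finset ℕ, (∀ W ∈ X, ∃ y ∈ pts n, |(W : ℝ) - (2 : ℝ) ^ n * y| ≤ 2) →
      (X.card : ℝ) ≤ 1 / 2 * (2 : ℝ) ^ n * D n * Real.exp (-F (n - 1))) :
    ∃ x : ℝ, 0 ≤ x ∧ x ≤ 1 ∧
      (∀ n, 1 ≤ n → ∃ W : ℕ, W ∉ R1 n ∧ (W : ℝ) ≤ (2 : ℝ) ^ n * x ∧ (2 : ℝ) ^ n * x ≤ W + 1) ∧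
      (∀ n, n₁ < n → ∀ y ∈ pts n, 1 / (2 : ℝ) ^ n < |x - y|) := by
  set R := RR n₁ R1 pts with hR
  set σ : ℕ → ℝ := fun n => ((Sur 2 R n).card : ℝ) / (2 : ℝ) ^ n with hσ
  have hσcard : ∀ n, ((Sur 2 R n).card : ℝ) = σ n * (2 : ℝ) ^ n := by
    intro n
    simp only [hσ]
    field_simp
  have hσ0 : ∀ n, 0 ≤ σ n := fun n => div_nonneg (Nat.cast_nonneg _) (pow_nonneg (by norm_num) _)
  have hσ1 : ∀ n, σ n ≤ 1 := by
    intro n
    simp only [hσ]
    rw [div_le_one (by positivity)]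
    have h1 := card_le_card (Sur_subset 2 R n)
    rw [card_range] at h1
    exact_mod_cast h1
  have hσz : σ 0 = 1 := by
    simp [hσ, Sur]
  clear_value σ
  have hstart : ∀ n, n ≤ n₁ → 1 - n * δ ≤ σ n := by
    intro n
    induction n with
    | zero => intro _; rw [hσz]; simp
    | succ n ih =>
      intro hn
      have ih' := ih (by omega)
      set G := (range (2 ^ (n + 1))).filter (fun W => W ∈ R1 (n + 1)) with hG
      have hstep := Sur_step 2 (by norm_num) R n G (by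
        intro W hW1 hW2 hW3
        rw [hG, mem_filter]
        refine ⟨hW1, ?_⟩
        rcases hW3 with h | h
        · exact h
        · omega)
      have h1 := H1 (n + 1) (by omega) hn
      rw [← hG] at h1
      have h2 : (2 : ℝ) * (Sur 2 R n).card ≤ (Sur 2 R (n + 1)).card + G.card := by exact_mod_cast hstep
      rw [hσcard, hσcard] at h2
      have h3 : (0 : ℝ) < 2 ^ (n + 1) := by positivity
      have h4 : (2 : ℝ) * (σ n * 2 ^ n) = σ n * 2 ^ (n + 1) := by ring
      rw [h4] at h2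
      have h5 : (σ n - δ) * 2 ^ (n + 1) ≤ σ (n + 1) * 2 ^ (n + 1) := by nlinarith
      have h6 := le_of_mul_le_mul_right h5 h3
      push_cast
      linarith
  have hstart' : ∀ n, n ≤ n₁ → 1 / 2 ≤ σ n := by
    intro n hn
    have h1 := hstart n hn
    have h2 : (n : ℝ) * δ ≤ n₁ * δ := by
      apply mul_le_mul_of_nonneg_right _ hδ0
      exact_mod_cast hn
    linarith
  have hmain : ∀ n, n₁ ≤ n → (∀ k, n₁ ≤ k → k < n → (1 - D (k + 1)) * σ k ≤ σ (k + 1)) ∧
      Real.exp (-F n) ≤ σ n := by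
    intro n hn
    induction n, hn using Nat.le_induction with
    | base =>
      refine ⟨fun k hk1 hk2 => by omega, ?_⟩
      refine le_trans ?_ (hstart' n₁ le_rfl)
      have h2 : Real.exp (-F n₁) ≤ Real.exp (-1) := Real.exp_le_exp.2 (by linarith)
      refine h2.trans ?_
      rw [Real.exp_neg, inv_le_comm₀ (Real.exp_pos _) (by norm_num)]
      have := Real.exp_one_gt_d9
      linarith
    | succ n hnn ih =>
      obtain ⟨ih1, ih2⟩ := ih
      have hσn : 0 < σ n := lt_of_lt_of_le (Real.exp_pos _) ih2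
      -- the counts
      set G1 := (range (2 ^ (n + 1))).filter (fun W => W / 2 ∈ Sur 2 R n ∧ W ∈ R1 (n + 1)) with hG1
      set G2 := (range (2 ^ (n + 1))).filter (fun W : ℕ => ∃ y ∈ pts (n + 1), |(W : ℝ) - (2 : ℝ) ^ (n + 1) * y| ≤ 2) with hG2
      have hstep := Sur_step 2 (by norm_num) R n (G1 ∪ G2) (by
        intro W hW1 hW2 hW3
        rw [mem_union]
        rcases hW3 with h | h
        · left; rw [hG1, mem_filter]; exact ⟨hW1, hW2, h⟩
        · right; rw [hG2, mem_filter]; exact ⟨hW1, h.2⟩)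
      have hG2c : (G2.card : ℝ) ≤ 1 / 2 * (2 : ℝ) ^ (n + 1) * D (n + 1) * σ n := by
        have h1 := hpts (n + 1) (by omega) G2 (fun W hW => by rw [hG2, mem_filter] at hW; exact hW.2)
        refine h1.trans ?_
        have h2 : Real.exp (-F (n + 1 - 1)) ≤ σ n := by
          have : n + 1 - 1 = n := by omega
          rw [this]
          exact ih2
        have hD0 := (hA5 (n + 1) (by omega)).2.1
        gcongr
      have hG1c : (G1.card : ℝ) ≤ 1 / 2 * (2 : ℝ) ^ (n + 1) * D (n + 1) * σ n := by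
        have h1 := H2 n hnn (Sur 2 R) ⟨Sur_subset 2 R, fun m i V hV => Sur_anc 2 (by norm_num) R m i V hV,
          fun m V hm hV h => by
            have h2 := Sur_not R m 0 V (by simpa using hV) hm
            rw [pow_zero, Nat.div_one] at h2
            exact h2 (Or.inl h),
          fun m hm => by
            have h2 := hstart' m hm
            rw [hσcard]
            have : (0 : ℝ) < 2 ^ m := by positivity
            nlinarith,
          by rw [hσcard]; exact mul_le_mul_of_nonneg_right ih2 (by positivity),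
          fun m hm1 hm2 => by
            have h2 := ih1 m hm1 hm2
            rw [hσcard, hσcard]
            have h3 : (0 : ℝ) < 2 ^ (m + 1) := by positivity
            calc (1 - D (m + 1)) * (2 * (σ m * 2 ^ m)) = ((1 - D (m + 1)) * σ m) * 2 ^ (m + 1) := by rw [pow_succ]; ring
              _ ≤ σ (m + 1) * 2 ^ (m + 1) := mul_le_mul_of_nonneg_right h2 h3.le⟩
        rw [← hG1] at h1
        refine h1.trans (le_of_eq ?_)
        rw [hσcard, pow_succ]; ring
      -- the new ratio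
      have hnew : (1 - D (n + 1)) * σ n ≤ σ (n + 1) := by
        have h1 : (2 : ℝ) * (Sur 2 R n).card ≤ (Sur 2 R (n + 1)).card + (G1.card + G2.card) := by
          have h2 := hstep.trans (Nat.add_le_add_left (card_union_le G1 G2) _)
          exact_mod_cast h2
        rw [hσcard, hσcard] at h1
        have hpn : 0 < (2 : ℝ) ^ (n + 1) := by positivity
        have h3 : (2 : ℝ) * (σ n * (2 : ℝ) ^ n) = σ n * (2 : ℝ) ^ (n + 1) := by ring
        rw [h3] at h1
        have h4 : ((1 - D (n + 1)) * σ n) * (2 : ℝ) ^ (n + 1) ≤ σ (n + 1) * (2 : ℝ) ^ (n + 1) := by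
          nlinarith
        exact le_of_mul_le_mul_right h4 hpn
      refine ⟨fun k hk1 hk => ?_, ?_⟩
      · rcases Nat.lt_or_ge k n with h | h
        · exact ih1 k hk1 h
        · have : k = n := by omega
          subst this
          exact hnew
      · obtain ⟨h5, h5', h6⟩ := hA5 (n + 1) (by omega)
        have h7 := exp_le_one_sub (D (n + 1)) h5' h6
        have h8 : F (n + 1 - 1) = F n := by congr 1
        rw [h8] at h5
        calc Real.exp (-F (n + 1)) ≤ Real.exp (-(2 * D (n + 1)) + -F n) := by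
              apply Real.exp_le_exp.2; linarith
          _ = Real.exp (-(2 * D (n + 1))) * Real.exp (-F n) := by rw [Real.exp_add]
          _ ≤ (1 - D (n + 1)) * σ n := by
              apply mul_le_mul h7 ih2 (Real.exp_pos _).le
              linarith
          _ ≤ _ := hnew
  have hne : ∀ n, (Sur 2 R n).Nonempty := by
    intro n
    rw [← card_pos]
    have h1 : 0 < σ n := by
      rcases Nat.lt_or_ge n n₁ with h | h
      · have := hstart' n h.le; linarith
      · exact lt_of_lt_of_le (Real.exp_pos _) (hmain n h).2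
    have h2 := hσcard n
    have h3 : (0 : ℝ) < (Sur 2 R n).card := by rw [h2]; exact mul_pos h1 (by positivity)
    exact_mod_cast h3
  obtain ⟨x, hx0, hx1, hx⟩ := exists_point 2 (by norm_num) R hne
  have hx' : ∀ n, 1 ≤ n → ∃ W : ℕ, W ∉ R n ∧ (W : ℝ) ≤ (2 : ℝ) ^ n * x ∧ (2 : ℝ) ^ n * x ≤ W + 1 := by
    intro n hn
    obtain ⟨W, hW, h1, h2⟩ := hx n
    obtain ⟨n', rfl⟩ : ∃ n', n = n' + 1 := ⟨n - 1, by omega⟩
    unfold Sur at hW
    rw [mem_filter] at hW
    push_cast at h1 h2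
    exact ⟨W, hW.2.2, h1, h2⟩
  refine ⟨x, hx0, hx1, fun n hn => ?_, fun n hn y hy => ?_⟩
  · obtain ⟨W, h1, h2, h3⟩ := hx' n hn
    exact ⟨W, fun h => h1 (Or.inl h), h2, h3⟩
  · by_contra hcon
    push Not at hcon
    obtain ⟨W, h1, h2, h3⟩ := hx' n (by omega)
    apply h1
    right
    refine ⟨hn, y, hy, ?_⟩
    have hpn : 0 < (2 : ℝ) ^ n := by positivity
    have h4 : |(2 : ℝ) ^ n * x - (2 : ℝ) ^ n * y| ≤ 1 := by
      rw [← mul_sub, abs_mul, abs_of_pos hpn]
      rw [le_div_iff₀ hpn] at hcon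
      linarith
    rw [abs_le] at h4 ⊢
    constructor <;> linarith

end Pool.Agent.H587.PG
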