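import Mathlib
import Pool.Agent.H587.PG.Tree2
import Pool.Agent.H587.PG.Local

set_option autoImplicit false

open Finset Filter MeasureTheory

namespace Pool.Agent.H587.PG

open Pool.Agent.H587.PD (exp_le_one_sub)

lemma ratio_exp (n₁ n m₀ : ℕ) (R : ℕ → Set ℕ) (D F : ℕ → ℝ) (S : ℕ → Finset ℕ) (hS : Surv n₁ n R D F S) (a : ℝ)
    (ha0 : 0 ≤ a) (ha1 : a ≤ 1 / 2) (hD : ∀ j, m₀ < j → n₁ < j → j ≤ n → D j ≤ a) (i k : ℕ) (hk1 : m₀ ≤ k) (hk2 : n₁ ≤ k)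
    (hk3 : k + i ≤ n) : Real.exp (-(2 * a * i)) * ((S k).card * 2 ^ i) ≤ (S (k + i)).card := by
  induction i with
  | zero => simp
  | succ i ih =>
    have h1 := ih (by omega)
    have h2 := hS.ratio (k + i) (by omega) (by omega)
    have h3 := hD (k + i + 1) (by omega) (by omega) (by omega)
    have h4 := exp_le_one_sub a ha0 ha1
    have hc : (0 : ℝ) ≤ (S (k + i)).card := Nat.cast_nonneg _
    have e1 : Real.exp (-(2 * a * ((i + 1 : ℕ) : ℝ))) = Real.exp (-(2 * a)) * Real.exp (-(2 * a * i)) := by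
      rw [← Real.exp_add]; congr 1; push_cast; ring
    have e2 : (0 : ℝ) ≤ Real.exp (-(2 * a * i)) * ((S k).card * 2 ^ i) := by positivity
    calc Real.exp (-(2 * a * ((i + 1 : ℕ) : ℝ))) * ((S k).card * 2 ^ (i + 1)) =
        Real.exp (-(2 * a)) * (2 * (Real.exp (-(2 * a * i)) * ((S k).card * 2 ^ i))) := by rw [e1, pow_succ]; ring
      _ ≤ (1 - a) * (2 * (S (k + i)).card) := by
          apply mul_le_mul h4 (by linarith) (by positivity) (by linarith)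
      _ ≤ (1 - D (k + i + 1)) * (2 * (S (k + i)).card) := by
          apply mul_le_mul_of_nonneg_right _ (by positivity)
          linarith
      _ ≤ _ := h2

/-- comparison with the ancestors -/
lemma anc_card (n₁ n m : ℕ) (R : ℕ → Set ℕ) (D F : ℕ → ℝ) (S : ℕ → Finset ℕ) (hS : Surv n₁ n R D F S) (a : ℝ)
    (hn : n₁ ≤ n) (ha0 : 0 ≤ a) (ha1 : a ≤ 1 / 2) (hD : ∀ j, m < j → n₁ < j → j ≤ n → D j ≤ a) (hm : m ≤ n) :
    ((S m).card : ℝ) * 2 ^ (n - m) ≤ 2 * Real.exp (2 * a * ((n - m : ℕ) : ℝ)) * (S n).card := by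
  have hexp : ∀ x : ℝ, Real.exp x * Real.exp (-x) = 1 := fun x => by rw [← Real.exp_add]; simp
  rcases Nat.lt_or_ge m n₁ with h | h
  · have h1 := ratio_exp n₁ n m R D F S hS a ha0 ha1 hD (n - n₁) n₁ h.le le_rfl (by omega)
    have h2 := hS.half n₁ le_rfl
    have e1 : n₁ + (n - n₁) = n := by omega
    rw [e1] at h1
    have h3 : ((S m).card : ℝ) ≤ 2 ^ m := by
      have := card_le_card (hS.sub m)
      rw [card_range] at this
      exact_mod_cast this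
    have h4 : Real.exp (-(2 * a * ((n - m : ℕ) : ℝ))) ≤ Real.exp (-(2 * a * ((n - n₁ : ℕ) : ℝ))) := by
      apply Real.exp_le_exp.2
      have : ((n - n₁ : ℕ) : ℝ) ≤ ((n - m : ℕ) : ℝ) := by
        have : n - n₁ ≤ n - m := by omega
        exact_mod_cast this
      nlinarith
    have h5 : (2 : ℝ) ^ n = 2 ^ n₁ * 2 ^ (n - n₁) := by rw [← pow_add]; congr 1; omega
    have h6 : (2 : ℝ) ^ n = 2 ^ m * 2 ^ (n - m) := by rw [← pow_add]; congr 1; omega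
    have h7 : Real.exp (-(2 * a * ((n - m : ℕ) : ℝ))) * 2 ^ n ≤ 2 * (S n).card := by
      calc Real.exp (-(2 * a * ((n - m : ℕ) : ℝ))) * 2 ^ n ≤ Real.exp (-(2 * a * ((n - n₁ : ℕ) : ℝ))) * (2 ^ n₁ * 2 ^ (n - n₁)) := by
            rw [h5]; gcongr
        _ ≤ Real.exp (-(2 * a * ((n - n₁ : ℕ) : ℝ))) * ((2 * (S n₁).card) * 2 ^ (n - n₁)) := by gcongr
        _ = 2 * (Real.exp (-(2 * a * ((n - n₁ : ℕ) : ℝ))) * ((S n₁).card * 2 ^ (n - n₁))) := by ring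
        _ ≤ _ := by linarith
    calc ((S m).card : ℝ) * 2 ^ (n - m) ≤ 2 ^ m * 2 ^ (n - m) := by gcongr
      _ = Real.exp (2 * a * ((n - m : ℕ) : ℝ)) * (Real.exp (-(2 * a * ((n - m : ℕ) : ℝ))) * 2 ^ n) := by
          rw [← mul_assoc, hexp, one_mul, h6]
      _ ≤ Real.exp (2 * a * ((n - m : ℕ) : ℝ)) * (2 * (S n).card) := by gcongr
      _ = _ := by ring
  · have h1 := ratio_exp n₁ n m R D F S hS a ha0 ha1 hD (n - m) m le_rfl h (by omega)
    have e1 : m + (n - m) = n := by omega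
    rw [e1] at h1
    calc ((S m).card : ℝ) * 2 ^ (n - m) = Real.exp (2 * a * ((n - m : ℕ) : ℝ)) *
          (Real.exp (-(2 * a * ((n - m : ℕ) : ℝ))) * ((S m).card * 2 ^ (n - m))) := by
            rw [← mul_assoc, hexp, one_mul]
      _ ≤ Real.exp (2 * a * ((n - m : ℕ) : ℝ)) * (S n).card := by gcongr
      _ ≤ _ := by
          have : 0 ≤ Real.exp (2 * a * ((n - m : ℕ) : ℝ)) * (S n).card := by positivity
          linarith

open Classical in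
/-- one family, large levels -/
lemma fam_loc (α γ c' κ K C₁ : ℝ) (L : ℕ → ℝ) (hL : Rate L c') (hα : Dio α κ c') (hK : 0 ≤ K) (hC₁ : 0 ≤ C₁)
    (n₁ n lam d : ℕ) (RC : ℕ → Set ℕ) (D F : ℕ → ℝ) (S : ℕ → Finset ℕ) (hS : Surv n₁ n RC D F S) (hn : n₁ ≤ n) (hn5 : 5 ≤ n)
    (hd1 : 1 ≤ d) (hd : 18 * d ≤ n + 1) (hlam : 18 * lam ≤ n + 1) (hεκ : 2 * (1 / 2 ^ lam : ℝ) < κ)
    (hRC : ∀ m, R1 α 0 (1 / 2 ^ lam) L m ⊆ RC m)
    (hLd : L (n + 1) ≤ 2 ^ (d + 1)) (hdbl : ∀ s : ℕ, s ≤ n + 1 → n + 1 ≤ 3 * s → L (n + 1) ≤ K * L s)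
    (hT : (((n + 1 : ℕ) : ℝ) + 1) + (3 * (d : ℝ) + 2) * (((n + 1 : ℕ) : ℝ) + 1) ^ c' ≤ C₁ * (D (n + 1) * L (n + 1)))
    (hD0 : 0 ≤ D (n + 1)) (hD : ∀ j, n + 1 ≤ 2 * j → j ≤ n + 1 → n₁ < j → 3 * (d : ℝ) * D j ≤ 1 / 4 ∧ D j ≤ 1 / 18) :
    ((((range (2 ^ (n + 1))).filter (fun W => W / 2 ∈ S n ∧ W ∈ R1 α γ (1 / 2 ^ lam) L (n + 1))).card : ℕ) : ℝ) ≤
      (8 * K * (40960 + 480 / κ) * C₁) * ((1 + 3 * lam) * (1 / 2 ^ lam) * Real.exp (lam / 3)) * (D (n + 1) * (S n).card) := by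
  have hκ : 0 < κ := hα.1
  have hc'0 : 0 ≤ c' := hα.2.1
  set ε : ℝ := 1 / 2 ^ lam with hε
  have hε0 : 0 < ε := by positivity
  set e := 3 * (d + lam + 1) - 5 with he
  set m := n + 1 - e with hm
  have he1 : 1 ≤ e := by omega
  have he3 : 3 * e ≤ n + 1 := by omega
  have hLpos : 0 < L (n + 1) := by
    refine lt_of_lt_of_le ?_ (hL.2 (n + 1))
    positivity
  have hLd' : L (n + 1) ≤ ε * 2 ^ (d + lam + 1) := by
    have : ε * 2 ^ (d + lam + 1) = 2 ^ (d + 1) := by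
      rw [hε, show d + lam + 1 = (d + 1) + lam by ring, pow_add (2 : ℝ) (d + 1) lam]
      field_simp
    rw [this]; exact hLd
  -- the local count
  set B : ℝ := ε * (K * (40960 + 480 / κ)) * (((((n + 1 : ℕ) : ℝ) + 1) + (3 * ((d + lam : ℕ) : ℝ) + 2) * (((n + 1 : ℕ) : ℝ) + 1) ^ c') / L (n + 1)) * 2 ^ e with hB
  have hB0 : 0 ≤ B := by positivity
  have hBT : B ≤ ε * (K * (40960 + 480 / κ)) * ((1 + 3 * lam) * (C₁ * D (n + 1))) * 2 ^ e := by
    have h1 : (((((n + 1 : ℕ) : ℝ) + 1) + (3 * ((d + lam : ℕ) : ℝ) + 2) * (((n + 1 : ℕ) : ℝ) + 1) ^ c') / L (n + 1)) ≤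
        (1 + 3 * lam) * (C₁ * D (n + 1)) := by
      rw [div_le_iff₀ hLpos]
      have h2 : (((n + 1 : ℕ) : ℝ) + 1) + (3 * ((d + lam : ℕ) : ℝ) + 2) * (((n + 1 : ℕ) : ℝ) + 1) ^ c' ≤
          (1 + 3 * lam) * ((((n + 1 : ℕ) : ℝ) + 1) + (3 * (d : ℝ) + 2) * (((n + 1 : ℕ) : ℝ) + 1) ^ c') := by
        have h3 : (0 : ℝ) ≤ (((n + 1 : ℕ) : ℝ) + 1) ^ c' := by positivity
        have h4 : (0 : ℝ) ≤ lam := Nat.cast_nonneg _
        have h5 : (1 : ℝ) ≤ d := by exact_mod_cast hd1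
        have h6 : 0 ≤ 3 * (lam : ℝ) * (((n + 1 : ℕ) : ℝ) + 1) := by positivity
        have h7 : 0 ≤ (lam : ℝ) * (d : ℝ) * (((n + 1 : ℕ) : ℝ) + 1) ^ c' := by positivity
        have h8 : 0 ≤ (lam : ℝ) * (((n + 1 : ℕ) : ℝ) + 1) ^ c' := by positivity
        push_cast at *
        nlinarith
      refine h2.trans ?_
      calc (1 + 3 * (lam : ℝ)) * ((((n + 1 : ℕ) : ℝ) + 1) + (3 * (d : ℝ) + 2) * (((n + 1 : ℕ) : ℝ) + 1) ^ c') ≤
          (1 + 3 * (lam : ℝ)) * (C₁ * (D (n + 1) * L (n + 1))) := by gcongr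
        _ = _ := by ring
    rw [hB]
    gcongr
  have hloc : ∀ V ∈ S m, ((((range (2 ^ (n + 1))).filter (fun W => W / 2 ^ e = V ∧ W ∈ R1 α γ ε L (n + 1))).card : ℕ) : ℝ) ≤ B := by
    intro V hV
    have h1 := H2_main α γ c' κ ε K L hL hα hK (n + 1) (d + lam) (by omega) (by omega) (by omega) hε0 hεκ hLd' hdbl V e he
      (by
        intro i hi1 hi2 hcon
        have h2 : V / 2 ^ (m - i) ∈ S i := by
          apply hS.anc i (m - i) V
          have : i + (m - i) = m := by omega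
          rw [this]; exact hV
        exact hS.not i _ hi1 h2 (hRC i hcon))
    exact h1
  have h1 : (range (2 ^ (n + 1))).filter (fun W => W / 2 ∈ S n ∧ W ∈ R1 α γ ε L (n + 1)) ⊆
      (S m).biUnion (fun V => (range (2 ^ (n + 1))).filter (fun W => W / 2 ^ e = V ∧ W ∈ R1 α γ ε L (n + 1))) := by
    intro W hW
    rw [mem_filter] at hW
    obtain ⟨hW1, hW2, hW3⟩ := hW
    rw [mem_biUnion]
    refine ⟨W / 2 ^ e, ?_, ?_⟩
    · have h3 : m + (e - 1) = n := by omega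
      have h5 := hS.anc m (e - 1) (W / 2) (by rw [h3]; exact hW2)
      rw [Nat.div_div_eq_div_mul, ← pow_succ'] at h5
      have h6 : e - 1 + 1 = e := by omega
      rwa [h6] at h5
    · rw [mem_filter]
      exact ⟨hW1, rfl, hW3⟩
  have h2 : ((((range (2 ^ (n + 1))).filter (fun W => W / 2 ∈ S n ∧ W ∈ R1 α γ ε L (n + 1))).card : ℕ) : ℝ) ≤ B * (S m).card := by
    have h3 := (card_le_card h1).trans card_biUnion_le
    have h4 : ((((range (2 ^ (n + 1))).filter (fun W => W / 2 ∈ S n ∧ W ∈ R1 α γ ε L (n + 1))).card : ℕ) : ℝ) ≤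
        ((∑ V ∈ S m, ((range (2 ^ (n + 1))).filter (fun W => W / 2 ^ e = V ∧ W ∈ R1 α γ ε L (n + 1))).card : ℕ) : ℝ) := by
      exact_mod_cast h3
    refine h4.trans ?_
    rw [Nat.cast_sum]
    refine (sum_le_sum hloc).trans (le_of_eq ?_)
    rw [sum_const, nsmul_eq_mul]; ring
  -- the ancestors
  obtain ⟨a, ha⟩ : ∃ a : ℝ, a = min (1 / (12 * (d : ℝ))) (1 / 18) := ⟨_, rfl⟩
  have hd0 : (0 : ℝ) < d := by exact_mod_cast hd1
  have ha0 : 0 ≤ a := by rw [ha]; positivity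
  have ha1 : a ≤ 1 / 18 := by rw [ha]; exact min_le_right _ _
  have ha2 : 12 * (d : ℝ) * a ≤ 1 := by
    have : a ≤ 1 / (12 * (d : ℝ)) := by rw [ha]; exact min_le_left _ _
    rw [le_div_iff₀ (by positivity)] at this
    linarith
  have h3 := anc_card n₁ n m RC D F S hS a hn ha0 (by linarith) (by
    intro j hj1 hj2 hj3
    obtain ⟨b1, b2⟩ := hD j (by omega) (by omega) hj2
    rw [ha]
    refine le_min ?_ b2
    rw [le_div_iff₀ (by positivity)]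
    linarith) (by omega)
  have h4 : 2 * a * ((n - m : ℕ) : ℝ) ≤ 1 / 2 + lam / 3 := by
    have h5 : ((n - m : ℕ) : ℝ) ≤ 3 * (d : ℝ) + 3 * lam := by
      have : n - m ≤ 3 * d + 3 * lam := by omega
      exact_mod_cast this
    have h6 : (0 : ℝ) ≤ lam := Nat.cast_nonneg _
    calc 2 * a * ((n - m : ℕ) : ℝ) ≤ 2 * a * (3 * (d : ℝ) + 3 * lam) := by gcongr
      _ = (12 * (d : ℝ) * a) / 2 + 6 * a * lam := by ring
      _ ≤ 1 / 2 + 6 * (1 / 18) * lam := by gcongr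
      _ = _ := by ring
  have h5 : Real.exp (2 * a * ((n - m : ℕ) : ℝ)) ≤ 2 * Real.exp (lam / 3) := by
    have h6 : Real.exp (2 * a * ((n - m : ℕ) : ℝ)) ≤ Real.exp (1 / 2 + lam / 3) := Real.exp_le_exp.2 h4
    rw [Real.exp_add] at h6
    have h7 : Real.exp (1 / 2) ≤ 2 := by
      have h8 : Real.exp (1 / 2) * Real.exp (1 / 2) = Real.exp 1 := by rw [← Real.exp_add]; norm_num
      have := Real.exp_one_lt_d9
      nlinarith [Real.exp_pos (1 / 2 : ℝ)]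
    refine h6.trans ?_
    gcongr
  have h6 : (2 : ℝ) ^ e * (S m).card ≤ 8 * Real.exp (lam / 3) * (S n).card := by
    have e1 : (2 : ℝ) ^ e = 2 * 2 ^ (n - m) := by
      rw [← pow_succ']; congr 1; omega
    calc (2 : ℝ) ^ e * (S m).card = 2 * ((S m).card * 2 ^ (n - m)) := by rw [e1]; ring
      _ ≤ 2 * (2 * (2 * Real.exp (lam / 3)) * (S n).card) := by
          apply mul_le_mul_of_nonneg_left _ (by norm_num)
          refine h3.trans ?_
          gcongr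
      _ = _ := by ring
  calc _ ≤ B * (S m).card := h2
    _ ≤ (ε * (K * (40960 + 480 / κ)) * ((1 + 3 * lam) * (C₁ * D (n + 1))) * 2 ^ e) * (S m).card := by gcongr
    _ = (ε * (K * (40960 + 480 / κ)) * ((1 + 3 * lam) * (C₁ * D (n + 1)))) * (2 ^ e * (S m).card) := by ring
    _ ≤ (ε * (K * (40960 + 480 / κ)) * ((1 + 3 * lam) * (C₁ * D (n + 1)))) * (8 * Real.exp (lam / 3) * (S n).card) := by
        gcongr
    _ = _ := by ring

end Pool.Agent.H587.PG
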