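import Mathlib
import Pool.Agent.H587.PG.Cnt

set_option autoImplicit false

open Finset Filter MeasureTheory

namespace Pool.Agent.H587.PG

lemma card_le_geom (X : Finset ℕ) (Y : ℕ → Finset ℕ) (B : ℝ) (hB : 0 ≤ B) (h : ∀ W ∈ X, ∃ i, W ∈ Y i)
    (hY : ∀ i, ((Y i).card : ℝ) ≤ (1 / 2) ^ (i + 1) * B) : (X.card : ℝ) ≤ B := by
  classical
  have h0 : ∀ W : ℕ, ∃ i, W ∈ X → W ∈ Y i := by
    intro W
    by_cases hW : W ∈ X
    · obtain ⟨i, hi⟩ := h W hW; exact ⟨i, fun _ => hi⟩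
    · exact ⟨0, fun h' => absurd h' hW⟩
  choose f hf using h0
  obtain ⟨N, hN⟩ : ∃ N, ∀ W ∈ X, f W < N := by
    refine ⟨X.sup f + 1, fun W hW => ?_⟩
    have := le_sup (f := f) hW
    omega
  have h1 : X ⊆ (range N).biUnion Y := by
    intro W hW
    rw [mem_biUnion]
    exact ⟨f W, mem_range.2 (hN W hW), hf W hW⟩
  have h2 : (X.card : ℝ) ≤ ∑ i ∈ range N, ((Y i).card : ℝ) := by
    have := (card_le_card h1).trans card_biUnion_le
    exact_mod_cast this
  refine h2.trans ((sum_le_sum (fun i _ => hY i)).trans ?_)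
  have h3 : ∑ i ∈ range N, (1 / 2 : ℝ) ^ (i + 1) * B = (∑ i ∈ range N, (1 / 2 : ℝ) ^ i) * (B / 2) := by
    rw [sum_mul]
    apply sum_congr rfl
    intro i _
    rw [pow_succ]; ring
  rw [h3]
  have h4 := sum_geometric_two_le N
  nlinarith

lemma ex_lam (Z b : ℝ) (hZ : 0 < Z) (hb : 0 < b) : ∃ lam : ℕ, Z * ((18 * (lam : ℝ) + 1) ^ 3 * Real.exp (-(lam / 3))) ≤ b := by
  have h1 := Real.tendsto_pow_mul_exp_neg_atTop_nhds_zero 3
  have h2 : ∀ᶠ x : ℝ in atTop, x ^ 3 * Real.exp (-x) < b / (Z * 55 ^ 3) := by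
    apply h1.eventually_lt_const
    positivity
  obtain ⟨X, hX⟩ := eventually_atTop.1 (h2.and (eventually_ge_atTop 1))
  obtain ⟨lam, hlam⟩ := exists_nat_ge (3 * X)
  refine ⟨lam, ?_⟩
  obtain ⟨h3, h4⟩ := hX ((lam : ℝ) / 3) (by linarith)
  rw [lt_div_iff₀ (by positivity)] at h3
  have h5 : (18 * (lam : ℝ) + 1) ^ 3 ≤ (55 * ((lam : ℝ) / 3)) ^ 3 := by
    apply pow_le_pow_left₀ (by positivity)
    linarith
  calc Z * ((18 * (lam : ℝ) + 1) ^ 3 * Real.exp (-(lam / 3))) ≤ Z * ((55 * ((lam : ℝ) / 3)) ^ 3 * Real.exp (-(lam / 3))) := by gcongr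
    _ = ((lam : ℝ) / 3) ^ 3 * Real.exp (-(lam / 3)) * (Z * 55 ^ 3) := by ring
    _ ≤ b := h3.le

/-- the removed digit strings, all families -/
def RC (α γ : ℕ → ℝ) (lam : ℕ → ℕ) (L : ℕ → ℝ) (n : ℕ) : Set ℕ :=
  {W | ∃ i : ℕ, W ∈ R1 (α i) (γ i) (1 / 2 ^ lam i) L n ∨ W ∈ R1 (α i) 0 (1 / 2 ^ lam i) L n}

lemma two_pow_exp (lam : ℕ) (x : ℝ) (hx : x ≤ 1 / 3) : (1 / 2 ^ lam : ℝ) * Real.exp (x * lam) ≤ Real.exp (-(lam / 3)) := by
  have h1 : (1 / 2 ^ lam : ℝ) = Real.exp (-(lam * Real.log 2)) := by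
    rw [Real.exp_neg, ← Real.log_pow, Real.exp_log (by positivity), one_div]
  rw [h1, ← Real.exp_add]
  apply Real.exp_le_exp.2
  have h2 := Real.log_two_gt_d9
  have h3 : (0 : ℝ) ≤ lam := Nat.cast_nonneg _
  nlinarith

open Classical in
/-- points outside a small cover, countably many families -/
theorem low_cnt (α γ κ : ℕ → ℝ) (c' : ℝ) (hα : ∀ i, Dio (α i) (κ i) c') (L : ℕ → ℝ)
    (hL : Rate L c') (K : ℝ) (hK : 0 ≤ K) (hdbl : ∀ n s : ℕ, s ≤ n → n ≤ 3 * s → L n ≤ K * L s)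
    (dd : ℕ → ℕ) (D F G : ℕ → ℝ) (C₁ A : ℝ) (hC₁ : 0 ≤ C₁) (hA : 0 < A) (g : ENNReal → ENNReal)
    (h1 : ∀ᶠ n : ℕ in atTop, 1 ≤ dd n ∧ 18 * dd n ≤ n ∧ L n ≤ 2 ^ (dd n + 1))
    (h2 : ∀ᶠ n : ℕ in atTop, ∀ j : ℕ, n ≤ 2 * j → j ≤ n → 3 * (dd n : ℝ) * D j ≤ 1 / 4)
    (h3 : ∀ᶠ n : ℕ in atTop, F (n - 1) + 2 * D n ≤ F n ∧ 0 ≤ D n ∧ D n ≤ 1 / 2 ∧ 1 ≤ F n)
    (h4 : ∀ᶠ n : ℕ in atTop, ((n : ℝ) + 1) + (3 * (dd n : ℝ) + 2) * ((n : ℝ) + 1) ^ c' ≤ C₁ * (D n * L n))
    (h5 : ∀ᶠ n : ℕ in atTop, 20 ≤ (2 : ℝ) ^ n * D n * Real.exp (-F n))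
    (h6 : ∀ᶠ n : ℕ in atTop, 40 * A ≤ Real.exp (G n) * D n * Real.exp (-F n))
    (hg : ∀ᶠ n : ℕ in atTop, ∀ r : ENNReal, 1 / (2 : ℝ) ^ (n + 1) < r.toReal → r.toReal ≤ 1 / (2 : ℝ) ^ n →
      ENNReal.ofReal (1 / (2 : ℝ) ^ (n + 1) * Real.exp (G n)) ≤ g r)
    (h7 : ∀ᶠ n : ℕ in atTop, F n ≤ n / 60 ∧ 1 ≤ ((n : ℝ) + 2) ^ 2 * D n ∧ D n ≤ 1 / 18) :
    ∃ n₁ : ℕ, ∀ T : ℕ → Set ℝ, (∀ i, Metric.ediam (T i) ≤ ENNReal.ofReal (1 / (2 : ℝ) ^ (n₁ + 1))) →
      (∑' i, ⨆ _ : (T i).Nonempty, g (Metric.ediam (T i)) < ENNReal.ofReal A) →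
      ∃ x : ℝ, 0 ≤ x ∧ x ≤ 1 ∧ (∀ i, ∃ κ' : ℝ, 0 < κ' ∧ ∀ q : ℕ, 1 ≤ q → ∀ b : ℤ,
        κ' ≤ q * L (Nat.log 2 q) * (nint (q * α i) * |q * x - γ i - b|)) ∧ ∀ i, x ∉ T i := by
  have hlp : 1 / 2 ≤ Real.log 2 := by
    have := Real.log_two_gt_d9
    linarith
  obtain ⟨N₀, hN₀⟩ := eventually_atTop.1 ((h1.and h2).and ((h3.and h4).and ((h5.and h6).and (hg.and h7))))
  set n₁ := max N₀ 5 with hn₁def
  have hn₁0 : N₀ ≤ n₁ := le_max_left _ _
  have hn₁5 : 5 ≤ n₁ := le_max_right _ _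
  clear_value n₁
  have hn₁' := fun (n : ℕ) (hn : n₁ ≤ n) => hN₀ n (by omega)
  have hn₁ := fun (n : ℕ) (hn : n₁ < n) => hN₀ n (by omega)
  have hn₁r : (5 : ℝ) ≤ n₁ := by exact_mod_cast hn₁5
  have hκ : ∀ i, 0 < κ i := fun i => (hα i).1
  -- the parameters
  have hlamex : ∀ i, ∃ lam : ℕ, (8 * K * (40960 + 480 / κ i) * C₁ + 480 / κ i * (n₁ + 1) ^ 2 + 4 / κ i + 4) *
      ((18 * (lam : ℝ) + 1) ^ 3 * Real.exp (-(lam / 3))) ≤ (1 / 2) ^ (i + 2) := by
    intro i
    have := hκ i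
    exact ex_lam _ _ (by positivity) (by positivity)
  choose lam hlam using hlamex
  have hx3 : ∀ i, (1 : ℝ) ≤ (18 * (lam i : ℝ) + 1) ^ 3 := by
    intro i
    apply one_le_pow₀
    have : (0 : ℝ) ≤ lam i := Nat.cast_nonneg _
    linarith
  have hq : ∀ i, (1 / 2 ^ lam i : ℝ) ≤ Real.exp (-(lam i / 3)) := by
    intro i
    have := two_pow_exp (lam i) 0 (by norm_num)
    simpa using this
  -- consequences
  have e1 : ∀ i, (8 * K * (40960 + 480 / κ i) * C₁) * ((1 + 3 * (lam i : ℝ)) * (1 / 2 ^ lam i) * Real.exp (lam i / 3)) ≤ (1 / 2) ^ (i + 2) := by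
    intro i
    have hκi := hκ i
    have h8 := two_pow_exp (lam i) (1 / 3) le_rfl
    have h9 : (1 / 3 : ℝ) * lam i = lam i / 3 := by ring
    rw [h9] at h8
    have h10 : 1 + 3 * (lam i : ℝ) ≤ (18 * (lam i : ℝ) + 1) ^ 3 := by
      have h11 : (0 : ℝ) ≤ lam i := Nat.cast_nonneg _
      have h12 : 18 * (lam i : ℝ) + 1 ≤ (18 * (lam i : ℝ) + 1) ^ 3 := le_self_pow₀ (by linarith) (by norm_num)
      linarith
    have h11 : (0 : ℝ) < Real.exp (-(lam i / 3)) := Real.exp_pos _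
    have h12 : (0 : ℝ) ≤ 8 * K * (40960 + 480 / κ i) * C₁ := by positivity
    calc (8 * K * (40960 + 480 / κ i) * C₁) * ((1 + 3 * (lam i : ℝ)) * (1 / 2 ^ lam i) * Real.exp (lam i / 3)) =
        (8 * K * (40960 + 480 / κ i) * C₁) * ((1 + 3 * (lam i : ℝ)) * ((1 / 2 ^ lam i) * Real.exp (lam i / 3))) := by ring
      _ ≤ (8 * K * (40960 + 480 / κ i) * C₁) * ((18 * (lam i : ℝ) + 1) ^ 3 * Real.exp (-(lam i / 3))) := by gcongr
      _ ≤ (8 * K * (40960 + 480 / κ i) * C₁ + 480 / κ i * (n₁ + 1) ^ 2 + 4 / κ i + 4) * ((18 * (lam i : ℝ) + 1) ^ 3 * Real.exp (-(lam i / 3))) := by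
          apply mul_le_mul_of_nonneg_right _ (by positivity)
          have : 0 ≤ 480 / κ i * ((n₁ : ℝ) + 1) ^ 2 := by positivity
          have : 0 ≤ 4 / κ i := by positivity
          linarith
      _ ≤ _ := hlam i
  have e23 : ∀ i, ∀ y : ℝ, 0 ≤ y → y ≤ (18 * (lam i : ℝ) + 1) ^ 3 * Real.exp (-(lam i / 3)) →
      480 / κ i * (n₁ + 1) ^ 2 * y ≤ (1 / 2) ^ (i + 2) ∧ 4 / κ i * y ≤ (1 / 2) ^ (i + 2) := by
    intro i y hy0 hy
    have hκi := hκ i
    have h12 : (0 : ℝ) ≤ 8 * K * (40960 + 480 / κ i) * C₁ := by positivity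
    have h13 : 0 ≤ 480 / κ i * ((n₁ : ℝ) + 1) ^ 2 := by positivity
    have h14 : 0 ≤ 4 / κ i := by positivity
    have h15 : (8 * K * (40960 + 480 / κ i) * C₁ + 480 / κ i * (n₁ + 1) ^ 2 + 4 / κ i + 4) * y ≤ (1 / 2) ^ (i + 2) := by
      refine le_trans ?_ (hlam i)
      gcongr
    constructor
    · nlinarith [mul_nonneg h12 hy0, mul_nonneg h14 hy0]
    · nlinarith [mul_nonneg h12 hy0, mul_nonneg h13 hy0]
  have e3 : ∀ i, 480 / κ i * (n₁ + 1) ^ 2 * (1 / 2 ^ lam i) ≤ (1 / 2) ^ (i + 2) := by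
    intro i
    refine (e23 i _ (by positivity) ?_).1
    calc (1 / 2 ^ lam i : ℝ) ≤ 1 * Real.exp (-(lam i / 3)) := by rw [one_mul]; exact hq i
      _ ≤ _ := by gcongr; exact hx3 i
  have e4 : ∀ i, 2 * (1 / 2 ^ lam i : ℝ) < κ i := by
    intro i
    have hκi := hκ i
    have h8 := (e23 i (1 / 2 ^ lam i) (by positivity) (by
      calc (1 / 2 ^ lam i : ℝ) ≤ 1 * Real.exp (-(lam i / 3)) := by rw [one_mul]; exact hq i
        _ ≤ _ := by gcongr; exact hx3 i)).2
    have h9 : (1 / 2 : ℝ) ^ (i + 2) ≤ 1 := pow_le_one₀ (by norm_num) (by norm_num)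
    rw [div_mul_eq_mul_div, div_le_iff₀ hκi] at h8
    have h10 : (1 / 2 : ℝ) ^ (i + 2) * κ i ≤ 1 * κ i := by gcongr
    have : (0 : ℝ) < 1 / 2 ^ lam i := by positivity
    linarith
  refine ⟨n₁, fun T hT hsum => ?_⟩
  -- data of the cover
  set d : ℕ → ℝ := fun i => (Metric.ediam (T i)).toReal with hd
  have hdtop : ∀ i, Metric.ediam (T i) ≠ ⊤ := fun i => ne_top_of_le_ne_top ENNReal.ofReal_ne_top (hT i)
  have hd0 : ∀ i, 0 ≤ d i := fun i => ENNReal.toReal_nonneg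
  have hd1 : ∀ i, d i ≤ 1 / (2 : ℝ) ^ (n₁ + 1) := by
    intro i
    have := ENNReal.toReal_mono ENNReal.ofReal_ne_top (hT i)
    rwa [ENNReal.toReal_ofReal (by positivity)] at this
  set lev : ℕ → ℕ := fun i => if d i = 0 then n₁ + 1 + i else ⌊Real.log (1 / d i) / Real.log 2⌋₊ with hlev
  have hlev1 : ∀ i, 0 < d i → 1 / (2 : ℝ) ^ (lev i + 1) < d i ∧ d i ≤ 1 / (2 : ℝ) ^ (lev i) ∧ n₁ + 1 ≤ lev i := by
    intro i hi
    have hl : lev i = ⌊Real.log (1 / d i) / Real.log 2⌋₊ := by simp only [hlev]; rw [if_neg hi.ne']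
    have h1 : (n₁ + 1 : ℕ) ≤ Real.log (1 / d i) / Real.log 2 := by
      rw [le_div_iff₀ (by linarith), ← Real.log_pow]
      apply Real.log_le_log (by positivity)
      have := hd1 i
      rw [le_div_iff₀ (by positivity)] at this
      rw [le_div_iff₀ hi]
      linarith
    have h2 : 0 ≤ Real.log (1 / d i) / Real.log 2 := le_trans (by positivity) h1
    have h3 := Nat.floor_le h2
    have h4 := Nat.lt_floor_add_one (Real.log (1 / d i) / Real.log 2)
    rw [← hl] at h3 h4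
    have hlp' : 0 < Real.log 2 := by linarith
    refine ⟨?_, ?_, ?_⟩
    · rw [div_lt_iff₀ hlp'] at h4
      have h5 : Real.log (1 / d i) < Real.log ((2 : ℝ) ^ (lev i + 1)) := by
        rw [Real.log_pow]; push_cast; exact h4
      have h6 := (Real.log_lt_log_iff (by positivity) (by positivity)).1 h5
      rw [div_lt_iff₀ hi] at h6
      rw [div_lt_iff₀ (by positivity)]
      linarith
    · rw [le_div_iff₀ hlp'] at h3
      have h5 : Real.log ((2 : ℝ) ^ (lev i)) ≤ Real.log (1 / d i) := by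
        rw [Real.log_pow]; exact h3
      have h6 := (Real.log_le_log_iff (by positivity) (by positivity)).1 h5
      rw [le_div_iff₀ hi] at h6
      rw [le_div_iff₀ (by positivity)]
      linarith
    · rw [hl]
      exact Nat.le_floor h1
  have hlev0 : ∀ i, n₁ + 1 ≤ lev i := by
    intro i
    rcases (hd0 i).eq_or_lt with h | h
    · simp only [hlev]; rw [if_pos h.symm]; omega
    · exact (hlev1 i h).2.2
  have hb : ∀ i, ∃ b : ℝ, (T i).Nonempty → b ∈ T i := by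
    intro i
    by_cases h : (T i).Nonempty
    · obtain ⟨b, hb⟩ := h; exact ⟨b, fun _ => hb⟩
    · exact ⟨0, fun h' => absurd h' h⟩
  choose b hb using hb
  set pts : ℕ → Set ℝ := fun n => {y | ∃ i, (T i).Nonempty ∧ lev i = n ∧ b i = y} with hpts
  obtain ⟨x, hx0, hx1, hx2, hx3⟩ := tree_or n₁ (RC α γ lam L) D F (1 / (2 * n₁)) (by positivity)
    (by
      have : (n₁ : ℝ) ≠ 0 := by positivity
      apply le_of_eq
      field_simp)
    (hn₁' n₁ le_rfl).2.1.1.2.2.2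
    (by
      intro n hn
      obtain ⟨_, ⟨⟨a1, a2, a3, _⟩, _⟩, _⟩ := hn₁ n hn
      exact ⟨a1, a2, a3⟩)
    (by
      intro n hn1 hn
      apply card_le_geom _ (fun i => (range (2 ^ n)).filter (fun W => W ∈ R1 (α i) (γ i) (1 / 2 ^ lam i) L n) ∪
        (range (2 ^ n)).filter (fun W => W ∈ R1 (α i) 0 (1 / 2 ^ lam i) L n)) _ (by positivity)
      · intro W hW
        rw [mem_filter] at hW
        obtain ⟨hW1, i, hi⟩ := hW
        refine ⟨i, ?_⟩
        rw [mem_union, mem_filter, mem_filter]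
        rcases hi with h | h
        · left; exact ⟨hW1, h⟩
        · right; exact ⟨hW1, h⟩
      · intro i
        have hκi := hκ i
        have h5 : (n : ℝ) ≤ n₁ := by exact_mod_cast hn
        have h6 : 240 / κ i * (n + 1) * (1 / 2 ^ lam i) * 2 ^ n ≤ (1 / 2) ^ (i + 2) * (1 / (2 * n₁) * 2 ^ n) := by
          have h7 : 240 / κ i * (n + 1) * (1 / 2 ^ lam i) ≤ (1 / 2) ^ (i + 2) * (1 / (2 * n₁)) := by
            rw [mul_one_div ((1 / 2 : ℝ) ^ (i + 2)), le_div_iff₀ (by positivity)]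
            refine le_trans ?_ (e3 i)
            calc 240 / κ i * (n + 1) * (1 / 2 ^ lam i) * (2 * n₁) ≤ 240 / κ i * (n₁ + 1) * (1 / 2 ^ lam i) * (2 * (n₁ + 1)) := by
                  gcongr; linarith
              _ = _ := by ring
          calc 240 / κ i * (n + 1) * (1 / 2 ^ lam i) * 2 ^ n ≤ ((1 / 2) ^ (i + 2) * (1 / (2 * n₁))) * 2 ^ n := by gcongr
            _ = _ := by ring
        have h7 := (count_abs (α i) (γ i) (1 / 2 ^ lam i) c' (κ i) L hL (hα i) (by positivity) n).trans h6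
        have h8 := (count_abs (α i) 0 (1 / 2 ^ lam i) c' (κ i) L hL (hα i) (by positivity) n).trans h6
        have h9 : ((((range (2 ^ n)).filter (fun W => W ∈ R1 (α i) (γ i) (1 / 2 ^ lam i) L n) ∪
          (range (2 ^ n)).filter (fun W => W ∈ R1 (α i) 0 (1 / 2 ^ lam i) L n)).card : ℕ) : ℝ) ≤
          ((((range (2 ^ n)).filter (fun W => W ∈ R1 (α i) (γ i) (1 / 2 ^ lam i) L n)).card : ℕ) : ℝ) +
          ((((range (2 ^ n)).filter (fun W => W ∈ R1 (α i) 0 (1 / 2 ^ lam i) L n)).card : ℕ) : ℝ) := by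
          have := card_union_le ((range (2 ^ n)).filter (fun W => W ∈ R1 (α i) (γ i) (1 / 2 ^ lam i) L n))
            ((range (2 ^ n)).filter (fun W => W ∈ R1 (α i) 0 (1 / 2 ^ lam i) L n))
          exact_mod_cast this
        refine h9.trans ((add_le_add h7 h8).trans (le_of_eq ?_))
        rw [pow_succ (1 / 2 : ℝ) (i + 1)]; ring)
    (by
      intro n hn S hS
      obtain ⟨⟨⟨a1, a2, a3⟩, a4⟩, ⟨⟨a5, a6, a7, a8⟩, a9⟩, ⟨a10, a11⟩, a12, a13, a14, a15⟩ := hn₁ (n + 1) (by omega)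
      obtain ⟨_, _, _, _, c1, _⟩ := hn₁' n hn
      have hB0 : 0 ≤ D (n + 1) * (S n).card := by positivity
      have hfam : ∀ i, ∀ γ' : ℝ, ((((range (2 ^ (n + 1))).filter (fun W => W / 2 ∈ S n ∧ W ∈ R1 (α i) γ' (1 / 2 ^ lam i) L (n + 1))).card : ℕ) : ℝ) ≤
          (1 / 2) ^ (i + 2) * (D (n + 1) * (S n).card) := by
        intro i γ'
        have hκi := hκ i
        rcases Nat.lt_or_ge (n + 1) (18 * lam i) with hcase | hcase
        · -- small levels
          have h8 := count_abs (α i) γ' (1 / 2 ^ lam i) c' (κ i) L hL (hα i) (by positivity) (n + 1)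
          have h9 : (range (2 ^ (n + 1))).filter (fun W => W / 2 ∈ S n ∧ W ∈ R1 (α i) γ' (1 / 2 ^ lam i) L (n + 1)) ⊆
              (range (2 ^ (n + 1))).filter (fun W => W ∈ R1 (α i) γ' (1 / 2 ^ lam i) L (n + 1)) := by
            intro W hW
            rw [mem_filter] at hW ⊢
            exact ⟨hW.1, hW.2.2⟩
          have h10 : ((((range (2 ^ (n + 1))).filter (fun W => W / 2 ∈ S n ∧ W ∈ R1 (α i) γ' (1 / 2 ^ lam i) L (n + 1))).card : ℕ) : ℝ) ≤
              240 / κ i * (((n + 1 : ℕ) : ℝ) + 1) * (1 / 2 ^ lam i) * 2 ^ (n + 1) := by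
            refine le_trans ?_ h8
            have := card_le_card h9
            exact_mod_cast this
          refine h10.trans ?_
          have h11 : Real.exp (-(n / 60 : ℝ)) * 2 ^ n ≤ (S n).card := by
            refine le_trans ?_ hS.low
            have : Real.exp (-(n / 60 : ℝ)) ≤ Real.exp (-F n) := Real.exp_le_exp.2 (by linarith)
            gcongr
          have hlr : (n : ℝ) + 3 ≤ 18 * (lam i : ℝ) + 1 := by
            have : n + 3 ≤ 18 * lam i + 1 := by omega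
            exact_mod_cast this
          have h12 : (1 / 2 ^ lam i : ℝ) * Real.exp (n / 60) ≤ Real.exp (-(lam i / 3)) := by
            refine le_trans ?_ (two_pow_exp (lam i) (3 / 10) (by norm_num))
            have : (n : ℝ) / 60 ≤ 3 / 10 * lam i := by linarith
            have := Real.exp_le_exp.2 this
            gcongr
          have h13 : 480 / κ i * (((n : ℝ) + 3) ^ 3 * ((1 / 2 ^ lam i : ℝ) * Real.exp (n / 60))) ≤ (1 / 2) ^ (i + 2) := by
            have h14 : ((n : ℝ) + 3) ^ 3 * ((1 / 2 ^ lam i : ℝ) * Real.exp (n / 60)) ≤ (18 * (lam i : ℝ) + 1) ^ 3 * Real.exp (-(lam i / 3)) := by gcongr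
            have h15 := (e23 i _ (by positivity) h14).1
            refine le_trans ?_ h15
            have h16 : 480 / κ i ≤ 480 / κ i * ((n₁ : ℝ) + 1) ^ 2 := by
              apply le_mul_of_one_le_right (by positivity)
              apply one_le_pow₀
              linarith
            gcongr
          have h14 : 1 ≤ ((n : ℝ) + 3) ^ 2 * D (n + 1) := by
            have : (((n + 1 : ℕ) : ℝ) + 2) = (n : ℝ) + 3 := by push_cast; ring
            rwa [this] at a14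
          have hexp : Real.exp (n / 60 : ℝ) * Real.exp (-(n / 60 : ℝ)) = 1 := by rw [← Real.exp_add]; simp
          have hn3 : (0 : ℝ) < (n : ℝ) + 3 := by positivity
          calc 240 / κ i * (((n + 1 : ℕ) : ℝ) + 1) * (1 / 2 ^ lam i) * 2 ^ (n + 1) =
              480 / κ i * ((n : ℝ) + 2) * (1 / 2 ^ lam i) * 2 ^ n * 1 := by push_cast; rw [pow_succ]; ring
            _ ≤ 480 / κ i * ((n : ℝ) + 3) * (1 / 2 ^ lam i) * 2 ^ n * (((n : ℝ) + 3) ^ 2 * D (n + 1)) := by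
                gcongr; linarith
            _ = (480 / κ i * (((n : ℝ) + 3) ^ 3 * ((1 / 2 ^ lam i : ℝ) * Real.exp (n / 60)))) * (D (n + 1) * (Real.exp (-(n / 60 : ℝ)) * 2 ^ n)) := by
                calc _ = 480 / κ i * ((n : ℝ) + 3) ^ 3 * (1 / 2 ^ lam i) * 2 ^ n * D (n + 1) * 1 := by ring
                  _ = 480 / κ i * ((n : ℝ) + 3) ^ 3 * (1 / 2 ^ lam i) * 2 ^ n * D (n + 1) * (Real.exp (n / 60 : ℝ) * Real.exp (-(n / 60 : ℝ))) := by rw [hexp]
                  _ = _ := by ring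
            _ ≤ (1 / 2) ^ (i + 2) * (D (n + 1) * (S n).card) := by gcongr
        · -- large levels
          have h8 := fam_loc (α i) γ' c' (κ i) K C₁ L hL (hα i) hK hC₁ n₁ n (lam i) (dd (n + 1)) (RC α γ lam L) D F S hS hn (by omega)
            a1 a2 hcase (e4 i) (fun m W hW => ⟨i, Or.inr hW⟩) a3 (hdbl (n + 1)) a9 a6
            (by
              intro j hj1 hj2 hj3
              obtain ⟨_, _, _, _, _, _, d1⟩ := hn₁ j hj3
              exact ⟨a4 j hj1 hj2, d1⟩)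
          refine h8.trans ?_
          have h9 := e1 i
          gcongr
      refine le_trans (card_le_geom _ (fun i => (range (2 ^ (n + 1))).filter (fun W => W / 2 ∈ S n ∧ W ∈ R1 (α i) (γ i) (1 / 2 ^ lam i) L (n + 1)) ∪
        (range (2 ^ (n + 1))).filter (fun W => W / 2 ∈ S n ∧ W ∈ R1 (α i) 0 (1 / 2 ^ lam i) L (n + 1))) (D (n + 1) * (S n).card) hB0 ?_ ?_) (le_of_eq (by ring))
      · intro W hW
        rw [mem_filter] at hW
        obtain ⟨hW1, hW2, i, hi⟩ := hW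
        refine ⟨i, ?_⟩
        rw [mem_union, mem_filter, mem_filter]
        rcases hi with h | h
        · left; exact ⟨hW1, hW2, h⟩
        · right; exact ⟨hW1, hW2, h⟩
      · intro i
        have h9 : ((((range (2 ^ (n + 1))).filter (fun W => W / 2 ∈ S n ∧ W ∈ R1 (α i) (γ i) (1 / 2 ^ lam i) L (n + 1)) ∪
          (range (2 ^ (n + 1))).filter (fun W => W / 2 ∈ S n ∧ W ∈ R1 (α i) 0 (1 / 2 ^ lam i) L (n + 1))).card : ℕ) : ℝ) ≤
          ((((range (2 ^ (n + 1))).filter (fun W => W / 2 ∈ S n ∧ W ∈ R1 (α i) (γ i) (1 / 2 ^ lam i) L (n + 1))).card : ℕ) : ℝ) +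
          ((((range (2 ^ (n + 1))).filter (fun W => W / 2 ∈ S n ∧ W ∈ R1 (α i) 0 (1 / 2 ^ lam i) L (n + 1))).card : ℕ) : ℝ) := by
          have := card_union_le ((range (2 ^ (n + 1))).filter (fun W => W / 2 ∈ S n ∧ W ∈ R1 (α i) (γ i) (1 / 2 ^ lam i) L (n + 1)))
            ((range (2 ^ (n + 1))).filter (fun W => W / 2 ∈ S n ∧ W ∈ R1 (α i) 0 (1 / 2 ^ lam i) L (n + 1)))
          exact_mod_cast this
        refine h9.trans ((add_le_add (hfam i (γ i)) (hfam i 0)).trans (le_of_eq ?_))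
        rw [pow_succ (1 / 2 : ℝ) (i + 1)]; ring)
    pts
    (by
      intro n hn X hX
      obtain ⟨_, ⟨⟨b1, b2, b3, b4⟩, _⟩, ⟨b5, b6⟩, b7, _⟩ := hn₁ n hn
      have hn0 : (0 : ℝ) < n := by
        have : 0 < n := by omega
        exact_mod_cast this
      -- indices
      have h1 : ∀ W : ℕ, ∃ i : ℕ, W ∈ X → (T i).Nonempty ∧ lev i = n ∧ |(W : ℝ) - (2 : ℝ) ^ n * b i| ≤ 2 := by
        intro W
        by_cases hW : W ∈ X
        · obtain ⟨y, ⟨i, hi1, hi2, rfl⟩, hy⟩ := hX W hW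
          exact ⟨i, fun _ => ⟨hi1, hi2, hy⟩⟩
        · exact ⟨0, fun h => absurd h hW⟩
      choose Fi hFi using h1
      set I := X.image Fi with hI
      have h2 : (X.card : ℝ) ≤ 5 * I.card := by
        have h3 : X ⊆ I.biUnion (fun i => X.filter (fun W => Fi W = i)) := by
          intro W hW
          rw [mem_biUnion]
          exact ⟨Fi W, mem_image_of_mem _ hW, by rw [mem_filter]; exact ⟨hW, rfl⟩⟩
        have h4 : (X.card : ℝ) ≤ ∑ i ∈ I, ((X.filter (fun W => Fi W = i)).card : ℝ) := by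
          have := (card_le_card h3).trans card_biUnion_le
          exact_mod_cast this
        refine h4.trans ?_
        have h5 : ∀ i ∈ I, ((X.filter (fun W => Fi W = i)).card : ℝ) ≤ 5 := by
          intro i _
          apply card_near _ ((2 : ℝ) ^ n * b i)
          intro W hW
          rw [mem_filter] at hW
          have := (hFi W hW.1).2.2
          rw [hW.2] at this
          exact this
        refine (sum_le_sum h5).trans (le_of_eq ?_)
        rw [sum_const, nsmul_eq_mul]; ring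
      have hIprop : ∀ i ∈ I, (T i).Nonempty ∧ lev i = n := by
        intro i hi
        rw [hI, mem_image] at hi
        obtain ⟨W, hW, rfl⟩ := hi
        exact ⟨(hFi W hW).1, (hFi W hW).2.1⟩
      have h3 : (I.card : ℝ) ≤ 1 + ((I.filter (fun i => 0 < d i)).card : ℝ) := by
        have h4 : I.card = (I.filter (fun i => 0 < d i)).card + (I.filter (fun i => ¬ 0 < d i)).card :=
          (card_filter_add_card_filter_not _).symm
        have h5 : (I.filter (fun i => ¬ 0 < d i)).card ≤ 1 := by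
          rw [card_le_one]
          intro i hi k hk
          rw [mem_filter] at hi hk
          have e1 : d i = 0 := le_antisymm (not_lt.1 hi.2) (hd0 i)
          have e2 : d k = 0 := le_antisymm (not_lt.1 hk.2) (hd0 k)
          have e3 := (hIprop i hi.1).2
          have e4 := (hIprop k hk.1).2
          simp only [hlev] at e3 e4
          rw [if_pos e1] at e3
          rw [if_pos e2] at e4
          omega
        have h6 : I.card ≤ 1 + (I.filter (fun i => 0 < d i)).card := by omega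
        exact_mod_cast h6
      -- the sum
      set I' := I.filter (fun i => 0 < d i) with hI'
      have h4 : (I'.card : ℝ) * (1 / (2 : ℝ) ^ (n + 1) * Real.exp (G n)) ≤ A := by
        have h5 : ∀ i ∈ I', ENNReal.ofReal (1 / (2 : ℝ) ^ (n + 1) * Real.exp (G n)) ≤
            ⨆ _ : (T i).Nonempty, g (Metric.ediam (T i)) := by
          intro i hi
          rw [hI', mem_filter] at hi
          obtain ⟨g1, g2⟩ := hIprop i hi.1
          obtain ⟨g3, g4, g5⟩ := hlev1 i hi.2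
          rw [g2] at g3 g4
          rw [iSup_pos g1]
          exact b7 _ g3 g4
        have h6 : ∑ i ∈ I', ENNReal.ofReal (1 / (2 : ℝ) ^ (n + 1) * Real.exp (G n)) ≤ ENNReal.ofReal A :=
          (sum_le_sum h5).trans ((ENNReal.sum_le_tsum I').trans hsum.le)
        rw [sum_const, nsmul_eq_mul, ← ENNReal.ofReal_natCast, ← ENNReal.ofReal_mul (by positivity)] at h6
        exact (ENNReal.ofReal_le_ofReal_iff hA.le).1 h6
      have h5 : (I'.card : ℝ) ≤ A * (2 : ℝ) ^ (n + 1) * Real.exp (-(G n)) := by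
        have h6 : (I'.card : ℝ) = (I'.card : ℝ) * (1 / (2 : ℝ) ^ (n + 1) * Real.exp (G n)) *
            ((2 : ℝ) ^ (n + 1) * Real.exp (-(G n))) := by
          have e1 : Real.exp (G n) * Real.exp (-(G n)) = 1 := by
            rw [← Real.exp_add]; simp
          have hpn : (2 : ℝ) ^ (n + 1) ≠ 0 := by positivity
          calc (I'.card : ℝ) = (I'.card : ℝ) * (1 / (2 : ℝ) ^ (n + 1) * (2 : ℝ) ^ (n + 1)) * 1 := by field_simp
            _ = _ := by rw [← e1]; ring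
        rw [h6]
        calc _ ≤ A * ((2 : ℝ) ^ (n + 1) * Real.exp (-(G n))) := by
              apply mul_le_mul_of_nonneg_right h4; positivity
          _ = _ := by ring
      -- comparison
      have hE : Real.exp (-F n) ≤ Real.exp (-F (n - 1)) := by
        apply Real.exp_le_exp.2
        linarith
      have g2 : 5 * (A * (2 : ℝ) ^ (n + 1) * Real.exp (-(G n))) ≤ 1 / 4 * (2 : ℝ) ^ n * D n * Real.exp (-F n) := by
        have e1 : Real.exp (G n) * Real.exp (-(G n)) = 1 := by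
          rw [← Real.exp_add]; simp
        have e2 : 40 * A * (1 / 4 * (2 : ℝ) ^ n * Real.exp (-(G n))) ≤
            (Real.exp (G n) * D n * Real.exp (-F n)) * (1 / 4 * (2 : ℝ) ^ n * Real.exp (-(G n))) :=
          mul_le_mul_of_nonneg_right b6 (by positivity)
        calc 5 * (A * (2 : ℝ) ^ (n + 1) * Real.exp (-(G n))) = 40 * A * (1 / 4 * (2 : ℝ) ^ n * Real.exp (-(G n))) := by
              rw [pow_succ]; ring
          _ ≤ _ := e2
          _ = 1 / 4 * (2 : ℝ) ^ n * D n * Real.exp (-F n) * (Real.exp (G n) * Real.exp (-(G n))) := by ring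
          _ = _ := by rw [e1, mul_one]
      have g1 : 5 ≤ 1 / 4 * (2 : ℝ) ^ n * D n * Real.exp (-F n) := by linarith
      calc (X.card : ℝ) ≤ 5 * I.card := h2
        _ ≤ 5 * (1 + I'.card) := by gcongr
        _ ≤ 5 * (1 + A * (2 : ℝ) ^ (n + 1) * Real.exp (-(G n))) := by gcongr
        _ = 5 + 5 * (A * (2 : ℝ) ^ (n + 1) * Real.exp (-(G n))) := by ring
        _ ≤ 1 / 4 * (2 : ℝ) ^ n * D n * Real.exp (-F n) + 1 / 4 * (2 : ℝ) ^ n * D n * Real.exp (-F n) := by linarith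
        _ = 1 / 2 * (2 : ℝ) ^ n * D n * Real.exp (-F n) := by ring
        _ ≤ _ := by gcongr)
  refine ⟨x, hx0, hx1, fun i => ⟨(1 / 2 ^ lam i) / 2, by positivity, fun q hq b => ?_⟩, ?_⟩
  · -- the point is exceptional
    have hLpos : 0 < L (Nat.log 2 q) := by
      refine lt_of_lt_of_le ?_ (hL.2 _)
      positivity
    have hε0 : (0 : ℝ) < 1 / 2 ^ lam i := by positivity
    obtain ⟨m, hm⟩ : ∃ m : ℕ, nint (q * α i) * (4 ^ (Nat.log 2 q) * L (Nat.log 2 q)) / (1 / 2 ^ lam i) < 2 ^ m :=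
      pow_unbounded_of_one_lt _ (by norm_num)
    have hav := avoid (α i) (γ i) (1 / 2 ^ lam i) c' (κ i) L hL (hα i) hε0 (e4 i) m x (fun j hj1 _ => by
      obtain ⟨W, hW, h1, h2⟩ := hx2 j hj1
      exact ⟨W, fun h => hW ⟨i, Or.inl h⟩, h1, h2⟩) q hq b
    rcases hav with h | h
    · exfalso
      rw [div_lt_iff₀ hε0] at hm
      linarith
    · have h3 : q * x - γ i - b = q * x - b - γ i := by ring
      rw [h3]
      rw [div_lt_iff₀ (by positivity)] at h
      have h4 : q * nint (q * α i) * |q * x - b - γ i| * (2 * L (Nat.log 2 q)) =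
        2 * (q * L (Nat.log 2 q) * (nint (q * α i) * |q * x - b - γ i|)) := by ring
      rw [h4] at h
      linarith
  · -- the point is not covered
    intro i hxi
    have hne : (T i).Nonempty := ⟨x, hxi⟩
    have h1 := hx3 (lev i) (by have := hlev0 i; omega) (b i) ⟨i, hne, rfl, rfl⟩
    have h2 : |x - b i| ≤ d i := by
      have h3 : edist x (b i) ≤ Metric.ediam (T i) := Metric.edist_le_ediam_of_mem hxi (hb i hne)
      have h4 := ENNReal.toReal_mono (hdtop i) h3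
      rw [edist_dist, ENNReal.toReal_ofReal dist_nonneg, Real.dist_eq] at h4
      exact h4
    have h3 : d i ≤ 1 / (2 : ℝ) ^ (lev i) := by
      rcases (hd0 i).eq_or_lt with h | h
      · rw [← h]; positivity
      · exact (hlev1 i h).2.1
    linarith

end Pool.Agent.H587.PG
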