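import Mathlib
import Pool.Agent.H587.PG.Tree
import Pool.Agent.H587.PG.Local

set_option autoImplicit false

open Finset Filter MeasureTheory

namespace Pool.Agent.H587.PG

/-- the removed digit strings, all families -/
def RU (Fm : Finset (ℝ × ℝ)) (ε : ℝ) (L : ℕ → ℝ) (n : ℕ) : Set ℕ :=
  {W | ∃ v ∈ Fm, W ∈ R1 v.1 v.2 ε L n ∨ W ∈ R1 v.1 0 ε L n}

open Classical in
lemma card_RU (Fm : Finset (ℝ × ℝ)) (ε : ℝ) (L : ℕ → ℝ) (n : ℕ) (S : Finset ℕ) (B : ℝ)
    (h : ∀ v ∈ Fm, ((S.filter (fun W => W ∈ R1 v.1 v.2 ε L n)).card : ℝ) ≤ B ∧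
      ((S.filter (fun W => W ∈ R1 v.1 0 ε L n)).card : ℝ) ≤ B) :
    ((S.filter (fun W => W ∈ RU Fm ε L n)).card : ℝ) ≤ Fm.card * (2 * B) := by
  have h1 : S.filter (fun W => W ∈ RU Fm ε L n) ⊆ Fm.biUnion (fun v =>
      S.filter (fun W => W ∈ R1 v.1 v.2 ε L n) ∪ S.filter (fun W => W ∈ R1 v.1 0 ε L n)) := by
    intro W hW
    rw [mem_filter] at hW
    obtain ⟨hW1, v, hv, hW2⟩ := hW
    rw [mem_biUnion]
    refine ⟨v, hv, ?_⟩
    rw [mem_union, mem_filter, mem_filter]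
    rcases hW2 with h | h
    · left; exact ⟨hW1, h⟩
    · right; exact ⟨hW1, h⟩
  have h2 : ((S.filter (fun W => W ∈ RU Fm ε L n)).card : ℝ) ≤ ∑ v ∈ Fm,
      ((((S.filter (fun W => W ∈ R1 v.1 v.2 ε L n) ∪ S.filter (fun W => W ∈ R1 v.1 0 ε L n)).card : ℕ) : ℝ)) := by
    have := (card_le_card h1).trans card_biUnion_le
    exact_mod_cast this
  refine h2.trans ?_
  have h3 : ∀ v ∈ Fm, (((S.filter (fun W => W ∈ R1 v.1 v.2 ε L n) ∪ S.filter (fun W => W ∈ R1 v.1 0 ε L n)).card : ℕ) : ℝ) ≤ 2 * B := by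
    intro v hv
    obtain ⟨h4, h5⟩ := h v hv
    have h6 : (((S.filter (fun W => W ∈ R1 v.1 v.2 ε L n) ∪ S.filter (fun W => W ∈ R1 v.1 0 ε L n)).card : ℕ) : ℝ) ≤
        ((S.filter (fun W => W ∈ R1 v.1 v.2 ε L n)).card : ℝ) + ((S.filter (fun W => W ∈ R1 v.1 0 ε L n)).card : ℝ) := by
      have := card_union_le (S.filter (fun W => W ∈ R1 v.1 v.2 ε L n)) (S.filter (fun W => W ∈ R1 v.1 0 ε L n))
      exact_mod_cast this
    linarith
  refine (sum_le_sum h3).trans (le_of_eq ?_)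
  rw [sum_const, nsmul_eq_mul]

open Classical in
/-- points outside a small cover -/
theorem low_gen (Fm : Finset (ℝ × ℝ)) (c' κ : ℝ) (hκ : 0 < κ) (hFm : ∀ v ∈ Fm, Dio v.1 κ c') (L : ℕ → ℝ)
    (hL : Rate L c') (K : ℝ) (hK : 0 ≤ K) (hdbl : ∀ n s : ℕ, s ≤ n → n ≤ 3 * s → L n ≤ K * L s)
    (dd : ℕ → ℕ) (D F G : ℕ → ℝ) (C₁ A : ℝ) (hC₁ : 0 ≤ C₁) (hA : 0 < A) (g : ENNReal → ENNReal)
    (h1 : ∀ᶠ n : ℕ in atTop, 1 ≤ dd n ∧ 9 * dd n ≤ n ∧ L n * ((n : ℝ) + 1) ^ 3 ≤ 2 ^ (dd n + 1))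
    (h2 : ∀ᶠ n : ℕ in atTop, ∀ j : ℕ, n ≤ 2 * j → j ≤ n → 3 * (dd n : ℝ) * D j ≤ 1 / 4)
    (h3 : ∀ᶠ n : ℕ in atTop, F (n - 1) + 2 * D n ≤ F n ∧ 0 ≤ D n ∧ D n ≤ 1 / 2 ∧ 1 ≤ F n)
    (h4 : ∀ᶠ n : ℕ in atTop, ((n : ℝ) + 1) + (3 * (dd n : ℝ) + 2) * ((n : ℝ) + 1) ^ c' ≤ C₁ * (D n * L n))
    (h5 : ∀ᶠ n : ℕ in atTop, 20 ≤ (2 : ℝ) ^ n * D n * Real.exp (-F n))
    (h6 : ∀ᶠ n : ℕ in atTop, 40 * A ≤ Real.exp (G n) * D n * Real.exp (-F n))
    (hg : ∀ᶠ n : ℕ in atTop, ∀ r : ENNReal, 1 / (2 : ℝ) ^ (n + 1) < r.toReal → r.toReal ≤ 1 / (2 : ℝ) ^ n →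
      ENNReal.ofReal (1 / (2 : ℝ) ^ (n + 1) * Real.exp (G n)) ≤ g r) :
    ∃ n₁ : ℕ, ∀ T : ℕ → Set ℝ, (∀ i, Metric.ediam (T i) ≤ ENNReal.ofReal (1 / (2 : ℝ) ^ (n₁ + 1))) →
      (∑' i, ⨆ _ : (T i).Nonempty, g (Metric.ediam (T i)) < ENNReal.ofReal A) →
      ∃ x : ℝ, 0 ≤ x ∧ x ≤ 1 ∧ (∀ v ∈ Fm, ∃ κ' : ℝ, 0 < κ' ∧ ∀ q : ℕ, 1 ≤ q → ∀ b : ℤ,
        κ' ≤ q * L (Nat.log 2 q) * (nint (q * v.1) * |q * x - v.2 - b|)) ∧ ∀ i, x ∉ T i := by
  have hlp : 1 / 2 ≤ Real.log 2 := by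
    have := Real.log_two_gt_d9
    linarith
  obtain ⟨N₀, hN₀⟩ := eventually_atTop.1 ((h1.and h2).and ((h3.and h4).and ((h5.and h6).and hg)))
  set Q₁ : ℝ := 1920 * Fm.card / κ with hQ₁
  set Q₂ : ℝ := 32 * Fm.card * (K * (40960 + 480 / κ)) * C₁ with hQ₂
  obtain ⟨N₁, hN₁⟩ := exists_nat_ge (max (max Q₁ Q₂) (3 / κ))
  set n₁ := max (max N₀ N₁) 5 with hn₁def
  have hn₁0 : N₀ ≤ n₁ := (le_max_left _ _).trans (le_max_left _ _)
  have hn₁1 : N₁ ≤ n₁ := (le_max_right _ _).trans (le_max_left _ _)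
  have hn₁5 : 5 ≤ n₁ := le_max_right _ _
  clear_value n₁
  have hn₁' := fun (n : ℕ) (hn : n₁ ≤ n) => hN₀ n (by omega)
  have hn₁ := fun (n : ℕ) (hn : n₁ < n) => hN₀ n (by omega)
  have hn₁r : (5 : ℝ) ≤ n₁ := by exact_mod_cast hn₁5
  have hN₁r : max (max Q₁ Q₂) (3 / κ) ≤ n₁ := hN₁.trans (by exact_mod_cast hn₁1)
  have hn₁Q1 : Q₁ ≤ n₁ := ((le_max_left _ _).trans (le_max_left _ _)).trans hN₁r
  have hn₁Q2 : Q₂ ≤ n₁ := ((le_max_right _ _).trans (le_max_left _ _)).trans hN₁r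
  have hn₁κ : 3 / κ ≤ n₁ := (le_max_right _ _).trans hN₁r
  have hn₁κ' : 3 ≤ n₁ * κ := by rwa [div_le_iff₀ hκ] at hn₁κ
  obtain ⟨ε, hεdef⟩ : ∃ ε : ℝ, ε = 1 / (n₁ : ℝ) ^ 3 := ⟨_, rfl⟩
  have hn₁3 : (0 : ℝ) < (n₁ : ℝ) ^ 3 := by positivity
  have hn₁13 : (n₁ : ℝ) ≤ (n₁ : ℝ) ^ 3 := le_self_pow₀ (by linarith) (by norm_num)
  have hε0 : 0 < ε := by rw [hεdef]; positivity
  have hεn : ε * n₁ ≤ 1 := by
    rw [hεdef, one_div, ← div_eq_inv_mul, div_le_one hn₁3]; exact hn₁13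
  have hεκ : 2 * ε < κ := by
    rw [hεdef, mul_one_div, div_lt_iff₀ hn₁3]
    nlinarith
  refine ⟨n₁, fun T hT hsum => ?_⟩
  -- data of the cover
  set d : ℕ → ℝ := fun i => (Metric.ediam (T i)).toReal with hd
  have hdtop : ∀ i, Metric.ediam (T i) ≠ ⊤ := fun i => ne_top_of_le_ne_top ENNReal.ofReal_ne_top (hT i)
  have hd0 : ∀ i, 0 ≤ d i := fun i => ENNReal.toReal_nonneg
  have hd1 : ∀ i, d i ≤ 1 / (2 : ℝ) ^ (n₁ + 1) := by
    intro i
    have := ENNReal.toReal_mono ENNReal.ofReal_ne_top (hT i)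
    rwa [ENNReal.toReal_ofReal (by positivity)] at this
  set lev : ℕ → ℕ := fun i => if d i = 0 then n₁ + 1 + i else ⌊Real.log (1 / d i) / Real.log 2⌋₊ with hlev
  have hlev1 : ∀ i, 0 < d i → 1 / (2 : ℝ) ^ (lev i + 1) < d i ∧ d i ≤ 1 / (2 : ℝ) ^ (lev i) ∧ n₁ + 1 ≤ lev i := by
    intro i hi
    have hl : lev i = ⌊Real.log (1 / d i) / Real.log 2⌋₊ := by simp only [hlev]; rw [if_neg hi.ne']
    have h1 : (n₁ + 1 : ℕ) ≤ Real.log (1 / d i) / Real.log 2 := by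
      rw [le_div_iff₀ (by linarith), ← Real.log_pow]
      apply Real.log_le_log (by positivity)
      have := hd1 i
      rw [le_div_iff₀ (by positivity)] at this
      rw [le_div_iff₀ hi]
      linarith
    have h2 : 0 ≤ Real.log (1 / d i) / Real.log 2 := le_trans (by positivity) h1
    have h3 := Nat.floor_le h2
    have h4 := Nat.lt_floor_add_one (Real.log (1 / d i) / Real.log 2)
    rw [← hl] at h3 h4
    have hlp' : 0 < Real.log 2 := by linarith
    refine ⟨?_, ?_, ?_⟩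
    · rw [div_lt_iff₀ hlp'] at h4
      have h5 : Real.log (1 / d i) < Real.log ((2 : ℝ) ^ (lev i + 1)) := by
        rw [Real.log_pow]; push_cast; exact h4
      have h6 := (Real.log_lt_log_iff (by positivity) (by positivity)).1 h5
      rw [div_lt_iff₀ hi] at h6
      rw [div_lt_iff₀ (by positivity)]
      linarith
    · rw [le_div_iff₀ hlp'] at h3
      have h5 : Real.log ((2 : ℝ) ^ (lev i)) ≤ Real.log (1 / d i) := by
        rw [Real.log_pow]; exact h3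
      have h6 := (Real.log_le_log_iff (by positivity) (by positivity)).1 h5
      rw [le_div_iff₀ hi] at h6
      rw [le_div_iff₀ (by positivity)]
      linarith
    · rw [hl]
      exact Nat.le_floor h1
  have hlev0 : ∀ i, n₁ + 1 ≤ lev i := by
    intro i
    rcases (hd0 i).eq_or_lt with h | h
    · simp only [hlev]; rw [if_pos h.symm]; omega
    · exact (hlev1 i h).2.2
  have hb : ∀ i, ∃ b : ℝ, (T i).Nonempty → b ∈ T i := by
    intro i
    by_cases h : (T i).Nonempty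
    · obtain ⟨b, hb⟩ := h; exact ⟨b, fun _ => hb⟩
    · exact ⟨0, fun h' => absurd h' h⟩
  choose b hb using hb
  set pts : ℕ → Set ℝ := fun n => {y | ∃ i, (T i).Nonempty ∧ lev i = n ∧ b i = y} with hpts
  have hcard0 : (0 : ℝ) ≤ Fm.card := Nat.cast_nonneg _
  obtain ⟨x, hx0, hx1, hx2, hx3⟩ := tree_abs n₁ (by omega) (RU Fm ε L)
    (fun n => 3 * (dd n + 1) - 5) D F (Fm.card * (2 * (240 / κ * (n₁ + 1) * ε))) (by positivity)
    (by
      rw [hεdef]
      have h1 : (n₁ : ℝ) * (Fm.card * (2 * (240 / κ * (n₁ + 1) * (1 / (n₁ : ℝ) ^ 3)))) = Q₁ * (n₁ + 1) / (4 * n₁ ^ 2) := by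
        have : (n₁ : ℝ) ≠ 0 := by positivity
        rw [hQ₁]
        field_simp
        ring
      rw [h1, div_le_iff₀ (by positivity)]
      have hQ0 : 0 ≤ Q₁ := by rw [hQ₁]; positivity
      nlinarith)
    (by
      intro n hn
      obtain ⟨⟨⟨h1, _, _⟩, _⟩, _⟩ := hn₁ n hn
      show 1 ≤ 3 * (dd n + 1) - 5
      omega)
    (by
      intro n hn
      obtain ⟨⟨⟨h1, h2, _⟩, _⟩, _⟩ := hn₁ n hn
      show 3 * (3 * (dd n + 1) - 5) ≤ n
      omega)
    (by
      intro n hn j hj1 hj2 hj3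
      obtain ⟨⟨_, h2⟩, _⟩ := hn₁ n hn
      obtain ⟨_, ⟨⟨_, hD0, _, _⟩, _⟩, _⟩ := hn₁ j hj3
      refine le_trans ?_ (h2 j hj1 hj2)
      apply mul_le_mul_of_nonneg_right _ hD0
      have : 3 * (dd n + 1) - 5 ≤ 3 * dd n := by omega
      exact_mod_cast this)
    (hn₁' n₁ le_rfl).2.1.1.2.2.2
    (by
      intro n hn
      obtain ⟨_, ⟨⟨a1, a2, a3, _⟩, _⟩, _⟩ := hn₁ n hn
      exact ⟨a1, a2, a3⟩)
    (by
      intro n hn1 hn
      have h5 : (n : ℝ) ≤ n₁ := by exact_mod_cast hn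
      have h6 : 240 / κ * (n + 1) * ε * 2 ^ n ≤ 240 / κ * (n₁ + 1) * ε * 2 ^ n := by gcongr
      have h7 := card_RU Fm ε L n (range (2 ^ n)) (240 / κ * (n₁ + 1) * ε * 2 ^ n) (by
        intro v hv
        exact ⟨(count_abs v.1 v.2 ε c' κ L hL (hFm v hv) hε0 n).trans h6,
          (count_abs v.1 0 ε c' κ L hL (hFm v hv) hε0 n).trans h6⟩)
      refine h7.trans (le_of_eq ?_)
      ring)
    (by
      intro n hn V hV1 hV2
      obtain ⟨⟨⟨a1, a2, a3⟩, _⟩, ⟨⟨_, a4, _, _⟩, a5⟩, _⟩ := hn₁ n hn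
      have hLpos : 0 < L n := by
        refine lt_of_lt_of_le ?_ (hL.2 n)
        positivity
      have hLd : L n ≤ ε * 2 ^ (dd n + 1) := by
        have h8 : (n₁ : ℝ) ^ 3 ≤ ((n : ℝ) + 1) ^ 3 := by
          have : (n₁ : ℝ) ≤ (n : ℝ) + 1 := by
            have : n₁ ≤ n + 1 := by omega
            exact_mod_cast this
          gcongr
        rw [hεdef, one_div, ← div_eq_inv_mul, le_div_iff₀ hn₁3]
        refine le_trans ?_ a3
        gcongr
      have hB : ∀ γ : ℝ, ∀ v ∈ Fm, ((((range (2 ^ n)).filter (fun W => W / 2 ^ (3 * (dd n + 1) - 5) = V ∧ W ∈ R1 v.1 γ ε L n)).card : ℕ) : ℝ) ≤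
          ε * (K * (40960 + 480 / κ)) * (C₁ * D n) * 2 ^ (3 * (dd n + 1) - 5) := by
        intro γ v hv
        have h9 := H2_main v.1 γ c' κ ε K L hL (hFm v hv) hK n (dd n) a1 a2 (by omega) hε0 hεκ hLd (hdbl n) V
          (3 * (dd n + 1) - 5) rfl (fun i hi1 hi2 h => hV2 i hi1 hi2 ⟨v, hv, Or.inr h⟩)
        refine h9.trans ?_
        have h10 : (((n : ℝ) + 1) + (3 * (dd n : ℝ) + 2) * ((n : ℝ) + 1) ^ c') / L n ≤ C₁ * D n := by
          rw [div_le_iff₀ hLpos]; linarith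
        have h11 : 0 ≤ ε * (K * (40960 + 480 / κ)) := by positivity
        gcongr
      have h7 := card_RU Fm ε L n ((range (2 ^ n)).filter (fun W => W / 2 ^ (3 * (dd n + 1) - 5) = V))
        (ε * (K * (40960 + 480 / κ)) * (C₁ * D n) * 2 ^ (3 * (dd n + 1) - 5)) (by
        intro v hv
        constructor
        · have := hB v.2 v hv
          rw [filter_filter]
          exact this
        · have := hB 0 v hv
          rw [filter_filter]
          exact this)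
      rw [filter_filter] at h7
      refine h7.trans ?_
      have h12 : ε * Q₂ ≤ 1 := by
        have : ε * Q₂ ≤ ε * n₁ := mul_le_mul_of_nonneg_left hn₁Q2 hε0.le
        linarith
      show _ ≤ 1 / 16 * D n * 2 ^ (3 * (dd n + 1) - 5)
      calc (Fm.card : ℝ) * (2 * (ε * (K * (40960 + 480 / κ)) * (C₁ * D n) * 2 ^ (3 * (dd n + 1) - 5))) =
          1 / 16 * (ε * Q₂) * D n * 2 ^ (3 * (dd n + 1) - 5) := by rw [hQ₂]; ring
        _ ≤ 1 / 16 * 1 * D n * 2 ^ (3 * (dd n + 1) - 5) := by gcongr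
        _ = _ := by ring)
    pts
    (by
      intro n hn X hX
      obtain ⟨_, ⟨⟨b1, b2, b3, b4⟩, _⟩, ⟨b5, b6⟩, b7⟩ := hn₁ n hn
      have hn0 : (0 : ℝ) < n := by
        have : 0 < n := by omega
        exact_mod_cast this
      -- indices
      have h1 : ∀ W : ℕ, ∃ i : ℕ, W ∈ X → (T i).Nonempty ∧ lev i = n ∧ |(W : ℝ) - (2 : ℝ) ^ n * b i| ≤ 2 := by
        intro W
        by_cases hW : W ∈ X
        · obtain ⟨y, ⟨i, hi1, hi2, rfl⟩, hy⟩ := hX W hW
          exact ⟨i, fun _ => ⟨hi1, hi2, hy⟩⟩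
        · exact ⟨0, fun h => absurd h hW⟩
      choose Fi hFi using h1
      set I := X.image Fi with hI
      have h2 : (X.card : ℝ) ≤ 5 * I.card := by
        have h3 : X ⊆ I.biUnion (fun i => X.filter (fun W => Fi W = i)) := by
          intro W hW
          rw [mem_biUnion]
          exact ⟨Fi W, mem_image_of_mem _ hW, by rw [mem_filter]; exact ⟨hW, rfl⟩⟩
        have h4 : (X.card : ℝ) ≤ ∑ i ∈ I, ((X.filter (fun W => Fi W = i)).card : ℝ) := by
          have := (card_le_card h3).trans card_biUnion_le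
          exact_mod_cast this
        refine h4.trans ?_
        have h5 : ∀ i ∈ I, ((X.filter (fun W => Fi W = i)).card : ℝ) ≤ 5 := by
          intro i _
          apply card_near _ ((2 : ℝ) ^ n * b i)
          intro W hW
          rw [mem_filter] at hW
          have := (hFi W hW.1).2.2
          rw [hW.2] at this
          exact this
        refine (sum_le_sum h5).trans (le_of_eq ?_)
        rw [sum_const, nsmul_eq_mul]; ring
      have hIprop : ∀ i ∈ I, (T i).Nonempty ∧ lev i = n := by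
        intro i hi
        rw [hI, mem_image] at hi
        obtain ⟨W, hW, rfl⟩ := hi
        exact ⟨(hFi W hW).1, (hFi W hW).2.1⟩
      have h3 : (I.card : ℝ) ≤ 1 + ((I.filter (fun i => 0 < d i)).card : ℝ) := by
        have h4 : I.card = (I.filter (fun i => 0 < d i)).card + (I.filter (fun i => ¬ 0 < d i)).card :=
          (card_filter_add_card_filter_not _).symm
        have h5 : (I.filter (fun i => ¬ 0 < d i)).card ≤ 1 := by
          rw [card_le_one]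
          intro i hi k hk
          rw [mem_filter] at hi hk
          have e1 : d i = 0 := le_antisymm (not_lt.1 hi.2) (hd0 i)
          have e2 : d k = 0 := le_antisymm (not_lt.1 hk.2) (hd0 k)
          have e3 := (hIprop i hi.1).2
          have e4 := (hIprop k hk.1).2
          simp only [hlev] at e3 e4
          rw [if_pos e1] at e3
          rw [if_pos e2] at e4
          omega
        have h6 : I.card ≤ 1 + (I.filter (fun i => 0 < d i)).card := by omega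
        exact_mod_cast h6
      -- the sum
      set I' := I.filter (fun i => 0 < d i) with hI'
      have h4 : (I'.card : ℝ) * (1 / (2 : ℝ) ^ (n + 1) * Real.exp (G n)) ≤ A := by
        have h5 : ∀ i ∈ I', ENNReal.ofReal (1 / (2 : ℝ) ^ (n + 1) * Real.exp (G n)) ≤
            ⨆ _ : (T i).Nonempty, g (Metric.ediam (T i)) := by
          intro i hi
          rw [hI', mem_filter] at hi
          obtain ⟨g1, g2⟩ := hIprop i hi.1
          obtain ⟨g3, g4, g5⟩ := hlev1 i hi.2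
          rw [g2] at g3 g4
          rw [iSup_pos g1]
          exact b7 _ g3 g4
        have h6 : ∑ i ∈ I', ENNReal.ofReal (1 / (2 : ℝ) ^ (n + 1) * Real.exp (G n)) ≤ ENNReal.ofReal A :=
          (sum_le_sum h5).trans ((ENNReal.sum_le_tsum I').trans hsum.le)
        rw [sum_const, nsmul_eq_mul, ← ENNReal.ofReal_natCast, ← ENNReal.ofReal_mul (by positivity)] at h6
        exact (ENNReal.ofReal_le_ofReal_iff hA.le).1 h6
      have h5 : (I'.card : ℝ) ≤ A * (2 : ℝ) ^ (n + 1) * Real.exp (-(G n)) := by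
        have h6 : (I'.card : ℝ) = (I'.card : ℝ) * (1 / (2 : ℝ) ^ (n + 1) * Real.exp (G n)) *
            ((2 : ℝ) ^ (n + 1) * Real.exp (-(G n))) := by
          have e1 : Real.exp (G n) * Real.exp (-(G n)) = 1 := by
            rw [← Real.exp_add]; simp
          have hpn : (2 : ℝ) ^ (n + 1) ≠ 0 := by positivity
          calc (I'.card : ℝ) = (I'.card : ℝ) * (1 / (2 : ℝ) ^ (n + 1) * (2 : ℝ) ^ (n + 1)) * 1 := by field_simp
            _ = _ := by rw [← e1]; ring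
        rw [h6]
        calc _ ≤ A * ((2 : ℝ) ^ (n + 1) * Real.exp (-(G n))) := by
              apply mul_le_mul_of_nonneg_right h4; positivity
          _ = _ := by ring
      -- comparison
      have hE : Real.exp (-F n) ≤ Real.exp (-F (n - 1)) := by
        apply Real.exp_le_exp.2
        linarith
      have g2 : 5 * (A * (2 : ℝ) ^ (n + 1) * Real.exp (-(G n))) ≤ 1 / 4 * (2 : ℝ) ^ n * D n * Real.exp (-F n) := by
        have e1 : Real.exp (G n) * Real.exp (-(G n)) = 1 := by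
          rw [← Real.exp_add]; simp
        have e2 : 40 * A * (1 / 4 * (2 : ℝ) ^ n * Real.exp (-(G n))) ≤
            (Real.exp (G n) * D n * Real.exp (-F n)) * (1 / 4 * (2 : ℝ) ^ n * Real.exp (-(G n))) :=
          mul_le_mul_of_nonneg_right b6 (by positivity)
        calc 5 * (A * (2 : ℝ) ^ (n + 1) * Real.exp (-(G n))) = 40 * A * (1 / 4 * (2 : ℝ) ^ n * Real.exp (-(G n))) := by
              rw [pow_succ]; ring
          _ ≤ _ := e2
          _ = 1 / 4 * (2 : ℝ) ^ n * D n * Real.exp (-F n) * (Real.exp (G n) * Real.exp (-(G n))) := by ring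
          _ = _ := by rw [e1, mul_one]
      have g1 : 5 ≤ 1 / 4 * (2 : ℝ) ^ n * D n * Real.exp (-F n) := by linarith
      calc (X.card : ℝ) ≤ 5 * I.card := h2
        _ ≤ 5 * (1 + I'.card) := by gcongr
        _ ≤ 5 * (1 + A * (2 : ℝ) ^ (n + 1) * Real.exp (-(G n))) := by gcongr
        _ = 5 + 5 * (A * (2 : ℝ) ^ (n + 1) * Real.exp (-(G n))) := by ring
        _ ≤ 1 / 4 * (2 : ℝ) ^ n * D n * Real.exp (-F n) + 1 / 4 * (2 : ℝ) ^ n * D n * Real.exp (-F n) := by linarith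
        _ = 1 / 2 * (2 : ℝ) ^ n * D n * Real.exp (-F n) := by ring
        _ ≤ _ := by gcongr)
  refine ⟨x, hx0, hx1, fun v hv => ⟨ε / 2, by positivity, fun q hq b => ?_⟩, ?_⟩
  · -- the point is exceptional
    have hLpos : 0 < L (Nat.log 2 q) := by
      refine lt_of_lt_of_le ?_ (hL.2 _)
      positivity
    obtain ⟨m, hm⟩ : ∃ m : ℕ, nint (q * v.1) * (4 ^ (Nat.log 2 q) * L (Nat.log 2 q)) / ε < 2 ^ m :=
      pow_unbounded_of_one_lt _ (by norm_num)
    have hav := avoid v.1 v.2 ε c' κ L hL (hFm v hv) hε0 hεκ m x (fun i hi1 _ => by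
      obtain ⟨W, hW, h1, h2⟩ := hx2 i hi1
      exact ⟨W, fun h => hW ⟨v, hv, Or.inl h⟩, h1, h2⟩) q hq b
    rcases hav with h | h
    · exfalso
      rw [div_lt_iff₀ hε0] at hm
      linarith
    · have h3 : q * x - v.2 - b = q * x - b - v.2 := by ring
      rw [h3]
      rw [div_lt_iff₀ (by positivity)] at h
      have h4 : q * nint (q * v.1) * |q * x - b - v.2| * (2 * L (Nat.log 2 q)) =
        2 * (q * L (Nat.log 2 q) * (nint (q * v.1) * |q * x - b - v.2|)) := by ring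
      rw [h4] at h
      linarith
  · -- the point is not covered
    intro i hxi
    have hne : (T i).Nonempty := ⟨x, hxi⟩
    have h1 := hx3 (lev i) (by have := hlev0 i; omega) (b i) ⟨i, hne, rfl, rfl⟩
    have h2 : |x - b i| ≤ d i := by
      have h3 : edist x (b i) ≤ Metric.ediam (T i) := Metric.edist_le_ediam_of_mem hxi (hb i hne)
      have h4 := ENNReal.toReal_mono (hdtop i) h3
      rw [edist_dist, ENNReal.toReal_ofReal dist_nonneg, Real.dist_eq] at h4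
      exact h4
    have h3 : d i ≤ 1 / (2 : ℝ) ^ (lev i) := by
      rcases (hd0 i).eq_or_lt with h | h
      · rw [← h]; positivity
      · exact (hlev1 i h).2.1
    linarith

end Pool.Agent.H587.PG
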