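import Mathlib
import Pool.Agent.H587.PG.Low

/-!
# Parameters of the general theorem for the rate `log q loglog q` (T14)
-/

set_option autoImplicit false

open Finset Filter MeasureTheory

namespace Pool.Agent.H587.PG

namespace LG

lemma ev_log (a b c r : ℝ) (hc : 0 < c) (hr : 0 < r) :
    ∀ᶠ K : ℕ in atTop, a + b * Real.log K ≤ c * (K : ℝ) ^ r := by
  have h1 := (isLittleO_log_rpow_atTop hr).def (c := c / (2 * (|b| + 1))) (by positivity)
  have h2 : ∀ᶠ x : ℝ in atTop, a ≤ c / 2 * x ^ r := by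
    have := (tendsto_rpow_atTop hr).const_mul_atTop (show 0 < c / 2 by positivity)
    exact this.eventually_ge_atTop a
  have h3 : ∀ᶠ x : ℝ in atTop, a + b * Real.log x ≤ c * x ^ r := by
    filter_upwards [h1, h2, eventually_ge_atTop 1] with x h1 h2 hx
    have hx0 : 0 ≤ Real.log x := Real.log_nonneg hx
    have hxr : 0 < x ^ r := by positivity
    rw [Real.norm_of_nonneg hx0, Real.norm_of_nonneg hxr.le] at h1
    have h4 : b * Real.log x ≤ (|b| + 1) * Real.log x := by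
      apply mul_le_mul_of_nonneg_right _ hx0
      linarith [le_abs_self b]
    have h5 : (|b| + 1) * Real.log x ≤ c / 2 * x ^ r := by
      calc (|b| + 1) * Real.log x ≤ (|b| + 1) * (c / (2 * (|b| + 1)) * x ^ r) := by gcongr
        _ = c / 2 * x ^ r := by field_simp
    linarith
  exact tendsto_natCast_atTop_atTop.eventually h3

/-- the depth -/
def dp (n : ℕ) : ℕ := 5 * (Nat.log 2 (n + 1) + 1)

lemma dp_ge (n : ℕ) : ((n : ℝ) + 1) ^ 5 ≤ 2 ^ dp n := by
  have h1 : n + 1 < 2 ^ (Nat.log 2 (n + 1) + 1) := Nat.lt_pow_succ_log_self (by norm_num) _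
  have h2 : ((n : ℝ) + 1) ≤ 2 ^ (Nat.log 2 (n + 1) + 1) := by
    have : ((n + 1 : ℕ) : ℝ) < ((2 ^ (Nat.log 2 (n + 1) + 1) : ℕ) : ℝ) := by exact_mod_cast h1
    push_cast at this
    exact this.le
  unfold dp
  rw [mul_comm 5, pow_mul]
  gcongr

lemma log_succ_le (n : ℕ) (hn : 1 ≤ n) : Real.log ((n : ℝ) + 1) ≤ Real.log 2 + Real.log n := by
  have h0 : (1 : ℝ) ≤ n := by exact_mod_cast hn
  rw [← Real.log_mul (by norm_num) (by positivity)]
  apply Real.log_le_log (by positivity)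
  linarith

lemma dp_le (n : ℕ) (hn : 1 ≤ n) : (dp n : ℝ) ≤ 13 + 8 * Real.log n := by
  have h1 : 2 ^ (Nat.log 2 (n + 1)) ≤ n + 1 := Nat.pow_log_le_self 2 (by omega)
  have h2 : (Nat.log 2 (n + 1) : ℝ) * Real.log 2 ≤ Real.log ((n : ℝ) + 1) := by
    rw [← Real.log_pow]
    apply Real.log_le_log (by positivity)
    exact_mod_cast h1
  have h3 := log_succ_le n hn
  have h4 : (0.69 : ℝ) < Real.log 2 := by linarith [Real.log_two_gt_d9]
  have h5 : 0 ≤ Real.log n := Real.log_nonneg (by exact_mod_cast hn)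
  have h6 : (Nat.log 2 (n + 1) : ℝ) ≤ 1 + 1.5 * Real.log n := by
    by_contra hh
    push Not at hh
    have h7 : (1 + 1.5 * Real.log n) * Real.log 2 < Nat.log 2 (n + 1) * Real.log 2 := by
      apply mul_lt_mul_of_pos_right hh
      linarith
    nlinarith
  unfold dp
  push_cast
  linarith

lemma one_le_lam (n : ℕ) : 1 ≤ 1 + Real.log ((n : ℝ) + 1) := by
  have : 0 ≤ Real.log ((n : ℝ) + 1) := Real.log_nonneg (by
    have : (0 : ℝ) ≤ n := by positivity
    linarith)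
  linarith

lemma lam_le (n : ℕ) : 1 + Real.log ((n : ℝ) + 1) ≤ n + 1 := by
  have h := Real.log_le_sub_one_of_pos (show (0 : ℝ) < (n : ℝ) + 1 by positivity)
  linarith

/-- the rate -/
noncomputable def LL (n : ℕ) : ℝ := ((n : ℝ) + 1) * (1 + Real.log ((n : ℝ) + 1))

lemma LL_mono : Monotone LL := by
  intro a b hab
  unfold LL
  have h1 : (a : ℝ) ≤ b := by exact_mod_cast hab
  have h2 := one_le_lam a
  have h3 : Real.log ((a : ℝ) + 1) ≤ Real.log ((b : ℝ) + 1) :=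
    Real.log_le_log (by positivity) (by linarith)
  gcongr

lemma rate_LL (c' : ℝ) (hc'1 : c' < 1) : Rate LL c' := by
  refine ⟨LL_mono, fun s => ?_⟩
  have h0 : (1 : ℝ) ≤ (s : ℝ) + 1 := by
    have : (0 : ℝ) ≤ s := by positivity
    linarith
  have h1 : ((s : ℝ) + 1) ^ c' ≤ ((s : ℝ) + 1) ^ (1 : ℝ) :=
    Real.rpow_le_rpow_of_exponent_le h0 hc'1.le
  rw [Real.rpow_one] at h1
  have h2 := one_le_lam s
  unfold LL
  nlinarith

lemma LL_dbl (n s : ℕ) (hs : n ≤ 3 * s) : LL n ≤ 3 * (1 + Real.log 3) * LL s := by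
  unfold LL
  have h1 : (n : ℝ) ≤ 3 * s := by exact_mod_cast hs
  have h3 : (0 : ℝ) ≤ Real.log 3 := Real.log_nonneg (by norm_num)
  have h4 : Real.log ((n : ℝ) + 1) ≤ Real.log 3 + Real.log ((s : ℝ) + 1) := by
    rw [← Real.log_mul (by norm_num) (by positivity)]
    apply Real.log_le_log (by positivity)
    linarith
  have h5 := one_le_lam s
  have h6 : 1 + Real.log ((n : ℝ) + 1) ≤ (1 + Real.log 3) * (1 + Real.log ((s : ℝ) + 1)) := by
    nlinarith
  have h7 := one_le_lam n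
  calc ((n : ℝ) + 1) * (1 + Real.log ((n : ℝ) + 1)) ≤
      (3 * ((s : ℝ) + 1)) * ((1 + Real.log 3) * (1 + Real.log ((s : ℝ) + 1))) := by
        apply mul_le_mul (by linarith) h6 (by linarith) (by positivity)
    _ = _ := by ring

lemma c1 : ∀ᶠ n : ℕ in atTop, 1 ≤ dp n ∧ 9 * dp n ≤ n ∧
    LL n * ((n : ℝ) + 1) ^ 3 ≤ 2 ^ (dp n + 1) := by
  filter_upwards [ev_log 117 72 1 1 one_pos one_pos, eventually_ge_atTop 1] with n h1 h2
  refine ⟨by unfold dp; omega, ?_, ?_⟩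
  · rw [Real.rpow_one, one_mul] at h1
    have h3 := dp_le n h2
    have h4 : ((9 * dp n : ℕ) : ℝ) ≤ n := by
      push_cast
      linarith
    exact_mod_cast h4
  · have h3 := dp_ge n
    have h4 := lam_le n
    have h5 : LL n ≤ ((n : ℝ) + 1) ^ 2 := by
      unfold LL
      rw [pow_two]
      gcongr
    calc LL n * ((n : ℝ) + 1) ^ 3 ≤ ((n : ℝ) + 1) ^ 2 * ((n : ℝ) + 1) ^ 3 := by gcongr
      _ = ((n : ℝ) + 1) ^ 5 := by ring
      _ ≤ 2 ^ dp n := h3
      _ ≤ 2 ^ (dp n + 1) := by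
          rw [pow_succ]
          have : (0 : ℝ) < 2 ^ dp n := by positivity
          linarith

lemma ev_log_ge (a : ℝ) : ∀ᶠ n : ℕ in atTop, a ≤ Real.log n :=
  (Real.tendsto_log_atTop.comp tendsto_natCast_atTop_atTop).eventually_ge_atTop a

lemma c2 (η₁ : ℝ) (h0 : 0 < η₁) (hη : η₁ ≤ 1 / 400) : ∀ᶠ n : ℕ in atTop, ∀ j : ℕ, n ≤ 2 * j →
    j ≤ n → 3 * (dp n : ℝ) * (η₁ / (1 + Real.log ((j : ℝ) + 1))) ≤ 1 / 4 := by
  filter_upwards [ev_log_ge 13, eventually_ge_atTop 2] with n h1 h2 j hj1 hj2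
  have hn0 : (0 : ℝ) < n := by
    have : 0 < n := by omega
    exact_mod_cast this
  have h3 := dp_le n (by omega)
  have h4 : Real.log n ≤ 1 + Real.log ((j : ℝ) + 1) := by
    have h5 : (n : ℝ) ≤ 2 * j := by exact_mod_cast hj1
    have h6 : Real.log n ≤ Real.log (2 * ((j : ℝ) + 1)) :=
      Real.log_le_log hn0 (by linarith)
    rw [Real.log_mul (by norm_num) (by positivity)] at h6
    have h7 := Real.log_two_lt_d9
    linarith
  have h5 : 0 < 1 + Real.log ((j : ℝ) + 1) := by linarith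
  rw [mul_div_assoc', div_le_iff₀ h5]
  have h6 : (dp n : ℝ) ≤ 9 * (1 + Real.log ((j : ℝ) + 1)) := by linarith
  have h7 : (0 : ℝ) ≤ dp n := by positivity
  nlinarith

lemma c3 (η₂ : ℝ) (h0 : 0 < η₂) (hη : η₂ ≤ 1 / 100) : ∀ᶠ n : ℕ in atTop,
    η₂ * (((n - 1 : ℕ) : ℝ) + 1) / (1 + Real.log (((n - 1 : ℕ) : ℝ) + 1)) +
      2 * (η₂ / 4 / (1 + Real.log ((n : ℝ) + 1))) ≤
      η₂ * ((n : ℝ) + 1) / (1 + Real.log ((n : ℝ) + 1)) ∧
    0 ≤ η₂ / 4 / (1 + Real.log ((n : ℝ) + 1)) ∧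
    η₂ / 4 / (1 + Real.log ((n : ℝ) + 1)) ≤ 1 / 2 ∧
    1 ≤ η₂ * ((n : ℝ) + 1) / (1 + Real.log ((n : ℝ) + 1)) := by
  filter_upwards [ev_log_ge 1, eventually_ge_atTop 2,
    ev_log (1 + Real.log 2) 1 η₂ 1 h0 one_pos] with n h1 h2 h3
  have hn0 : (0 : ℝ) < n := by
    have : 0 < n := by omega
    exact_mod_cast this
  have hcast : (((n - 1 : ℕ) : ℝ) + 1) = n := by
    have : n - 1 + 1 = n := by omega
    exact_mod_cast this
  have hl := one_le_lam n
  have hl0 : 0 < 1 + Real.log ((n : ℝ) + 1) := by linarith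
  rw [Real.rpow_one] at h3
  refine ⟨?_, by positivity, ?_, ?_⟩
  · rw [hcast]
    have h4 : (n : ℝ) * (Real.log ((n : ℝ) + 1) - Real.log n) ≤ 1 := by
      rw [← Real.log_div (by positivity) (by positivity)]
      have h5 := Real.log_le_sub_one_of_pos (show (0 : ℝ) < ((n : ℝ) + 1) / n by positivity)
      calc (n : ℝ) * Real.log (((n : ℝ) + 1) / n) ≤ n * (((n : ℝ) + 1) / n - 1) := by gcongr
        _ = 1 := by field_simp; ring
    have h6 : (n : ℝ) / (1 + Real.log n) ≤ ((n : ℝ) + 1 / 2) / (1 + Real.log ((n : ℝ) + 1)) := by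
      rw [div_le_div_iff₀ (by linarith) hl0]
      nlinarith
    have h7 : η₂ * (n : ℝ) / (1 + Real.log n) = η₂ * ((n : ℝ) / (1 + Real.log n)) := by ring
    have h8 : η₂ * ((n : ℝ) + 1) / (1 + Real.log ((n : ℝ) + 1)) -
        2 * (η₂ / 4 / (1 + Real.log ((n : ℝ) + 1))) =
        η₂ * (((n : ℝ) + 1 / 2) / (1 + Real.log ((n : ℝ) + 1))) := by
      field_simp
      ring
    have h9 : η₂ * ((n : ℝ) / (1 + Real.log n)) ≤
        η₂ * (((n : ℝ) + 1 / 2) / (1 + Real.log ((n : ℝ) + 1))) := by gcongr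
    rw [h7]
    linarith
  · rw [div_le_iff₀ hl0]
    nlinarith
  · rw [le_div_iff₀ hl0]
    have h4 := log_succ_le n (by omega)
    nlinarith

lemma c4 (c' η₁ : ℝ) (h0 : 0 < η₁) (hc'1 : c' < 1) : ∀ᶠ n : ℕ in atTop,
    ((n : ℝ) + 1) + (3 * (dp n : ℝ) + 2) * ((n : ℝ) + 1) ^ c' ≤
      2 / η₁ * (η₁ / (1 + Real.log ((n : ℝ) + 1)) * LL n) := by
  filter_upwards [eventually_ge_atTop 2,
    ev_log 41 24 1 (1 - c') one_pos (by linarith)] with n h2 h3
  have hl := one_le_lam n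
  have hl0 : 0 < 1 + Real.log ((n : ℝ) + 1) := by linarith
  have hn0 : (0 : ℝ) < n := by
    have : 0 < n := by omega
    exact_mod_cast this
  have h4 : 2 / η₁ * (η₁ / (1 + Real.log ((n : ℝ) + 1)) * LL n) = 2 * ((n : ℝ) + 1) := by
    unfold LL
    field_simp
  rw [h4]
  have h5 := dp_le n (by omega)
  have h6 : 3 * (dp n : ℝ) + 2 ≤ ((n : ℝ) + 1) ^ (1 - c') := by
    have h7 : (n : ℝ) ^ (1 - c') ≤ ((n : ℝ) + 1) ^ (1 - c') :=
      Real.rpow_le_rpow hn0.le (by linarith) (by linarith)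
    linarith
  have h8 : (3 * (dp n : ℝ) + 2) * ((n : ℝ) + 1) ^ c' ≤ (n : ℝ) + 1 := by
    calc (3 * (dp n : ℝ) + 2) * ((n : ℝ) + 1) ^ c' ≤
        ((n : ℝ) + 1) ^ (1 - c') * ((n : ℝ) + 1) ^ c' := by gcongr
      _ = (n : ℝ) + 1 := by
          rw [← Real.rpow_add (by positivity)]
          have : 1 - c' + c' = 1 := by ring
          rw [this, Real.rpow_one]
  linarith

lemma exp_bound (C n : ℝ) (hC : 0 < C) (hn : 0 < n) :
    C * (2 * n) = Real.exp (Real.log C + Real.log 2 + Real.log n) := by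
  rw [Real.exp_add, Real.exp_add, Real.exp_log hC, Real.exp_log (by norm_num), Real.exp_log hn]
  ring

lemma c5 (η₁ η₂ : ℝ) (h0 : 0 < η₁) (h1 : 0 < η₂) (hη : η₂ ≤ 1 / 100) : ∀ᶠ n : ℕ in atTop,
    20 ≤ (2 : ℝ) ^ n * (η₁ / (1 + Real.log ((n : ℝ) + 1))) *
      Real.exp (-(η₂ * ((n : ℝ) + 1) / (1 + Real.log ((n : ℝ) + 1)))) := by
  filter_upwards [eventually_ge_atTop 2,
    ev_log (Real.log (20 / η₁) + Real.log 2) 1 (1 / 2) 1 (by norm_num) one_pos] with n h2 h3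
  have hl := one_le_lam n
  have hl0 : 0 < 1 + Real.log ((n : ℝ) + 1) := by linarith
  have hn2 : (2 : ℝ) ≤ n := by exact_mod_cast h2
  have hn0 : (0 : ℝ) < n := by linarith
  rw [Real.rpow_one] at h3
  have h4 : η₂ * ((n : ℝ) + 1) / (1 + Real.log ((n : ℝ) + 1)) ≤ ((n : ℝ) + 1) / 100 := by
    rw [div_le_div_iff₀ hl0 (by norm_num)]
    have h5 : η₂ * 100 ≤ 1 + Real.log ((n : ℝ) + 1) := by linarith
    nlinarith
  have h5 : (2 : ℝ) ^ n = Real.exp (n * Real.log 2) := by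
    rw [Real.exp_nat_mul, Real.exp_log (by norm_num)]
  have h6 : 20 / η₁ * (1 + Real.log ((n : ℝ) + 1)) ≤
      Real.exp (n * Real.log 2 + -(η₂ * ((n : ℝ) + 1) / (1 + Real.log ((n : ℝ) + 1)))) := by
    have h7 := lam_le n
    calc 20 / η₁ * (1 + Real.log ((n : ℝ) + 1)) ≤ 20 / η₁ * (2 * n) := by
          gcongr
          linarith
      _ = Real.exp (Real.log (20 / η₁) + Real.log 2 + Real.log n) :=
          exp_bound _ _ (by positivity) hn0
      _ ≤ _ := by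
          apply Real.exp_le_exp.mpr
          have h8 := Real.log_two_gt_d9
          nlinarith
  rw [Real.exp_add, ← h5] at h6
  calc (20 : ℝ) = 20 / η₁ * (1 + Real.log ((n : ℝ) + 1)) *
        (η₁ / (1 + Real.log ((n : ℝ) + 1))) := by field_simp
    _ ≤ (2 ^ n * Real.exp (-(η₂ * ((n : ℝ) + 1) / (1 + Real.log ((n : ℝ) + 1))))) *
        (η₁ / (1 + Real.log ((n : ℝ) + 1))) := by gcongr
    _ = _ := by ring

lemma c6 (η₁ η₂ η A : ℝ) (h0 : 0 < η₁) (h1 : 0 < η₂) (hη : η₂ ≤ η / 4) (hη0 : 0 < η)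
    (hA : 0 < A) : ∀ᶠ n : ℕ in atTop,
    40 * A ≤ Real.exp (η * (n * Real.log 2) / Real.log (n * Real.log 2)) *
      (η₁ / (1 + Real.log ((n : ℝ) + 1))) *
      Real.exp (-(η₂ * ((n : ℝ) + 1) / (1 + Real.log ((n : ℝ) + 1)))) := by
  filter_upwards [eventually_ge_atTop 3,
    ev_log (Real.log (40 * A / η₁) + Real.log 2) 1 (η / 4) (1 / 2) (by positivity) (by norm_num),
    ev_log 0 1 1 (1 / 2) one_pos (by norm_num)] with n h2 h3 h3'
  have hl := one_le_lam n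
  have hl0 : 0 < 1 + Real.log ((n : ℝ) + 1) := by linarith
  have hn3 : (3 : ℝ) ≤ n := by exact_mod_cast h2
  have hn0 : (0 : ℝ) < n := by linarith
  have hlt := Real.log_two_gt_d9
  have hlt' := Real.log_two_lt_d9
  have hlogn : 0 < Real.log n := Real.log_pos (by linarith)
  have hlog1 : 0 < Real.log (n * Real.log 2) := by
    apply Real.log_pos
    nlinarith
  have hlog2 : Real.log (n * Real.log 2) ≤ Real.log n := by
    apply Real.log_le_log (by positivity)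
    nlinarith
  have hG : η * (n * Real.log 2) / Real.log n ≤
      η * (n * Real.log 2) / Real.log (n * Real.log 2) := by
    apply div_le_div_of_nonneg_left _ hlog1 hlog2
    positivity
  have hlog3 : Real.log n ≤ 1 + Real.log ((n : ℝ) + 1) := by
    have : Real.log n ≤ Real.log ((n : ℝ) + 1) := Real.log_le_log hn0 (by linarith)
    linarith
  have hF : η₂ * ((n : ℝ) + 1) / (1 + Real.log ((n : ℝ) + 1)) ≤
      η / 4 * ((n : ℝ) + 1) / Real.log n := by
    apply div_le_div₀ (by positivity) _ hlogn hlog3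
    gcongr
  have hGF : η / 4 * (n : ℝ) / Real.log n ≤
      η * (n * Real.log 2) / Real.log (n * Real.log 2) -
      η₂ * ((n : ℝ) + 1) / (1 + Real.log ((n : ℝ) + 1)) := by
    have h7 : η / 4 * (n : ℝ) / Real.log n + η / 4 * ((n : ℝ) + 1) / Real.log n ≤
        η * (n * Real.log 2) / Real.log n := by
      rw [← add_div]
      apply div_le_div_of_nonneg_right _ hlogn.le
      have h8 : (n : ℝ) * Real.log 2 - (n : ℝ) / 4 - ((n : ℝ) + 1) / 4 ≥ 0 := by nlinarith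
      nlinarith
    linarith
  have hsq : (n : ℝ) ^ (1 / 2 : ℝ) ≤ (n : ℝ) / Real.log n := by
    rw [le_div_iff₀ hlogn]
    have h8 : Real.log n ≤ (n : ℝ) ^ (1 / 2 : ℝ) := by linarith
    calc (n : ℝ) ^ (1 / 2 : ℝ) * Real.log n ≤ (n : ℝ) ^ (1 / 2 : ℝ) * (n : ℝ) ^ (1 / 2 : ℝ) := by
          gcongr
      _ = n := by
          rw [← Real.rpow_add hn0]
          norm_num
  have h6 : 40 * A / η₁ * (1 + Real.log ((n : ℝ) + 1)) ≤
      Real.exp (η * (n * Real.log 2) / Real.log (n * Real.log 2) +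
        -(η₂ * ((n : ℝ) + 1) / (1 + Real.log ((n : ℝ) + 1)))) := by
    have h7 := lam_le n
    calc 40 * A / η₁ * (1 + Real.log ((n : ℝ) + 1)) ≤ 40 * A / η₁ * (2 * n) := by
          gcongr
          linarith
      _ = Real.exp (Real.log (40 * A / η₁) + Real.log 2 + Real.log n) :=
          exp_bound _ _ (by positivity) hn0
      _ ≤ _ := by
          apply Real.exp_le_exp.mpr
          have h8 : η / 4 * (n : ℝ) ^ (1 / 2 : ℝ) ≤ η / 4 * ((n : ℝ) / Real.log n) := by gcongr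
          have h9 : η / 4 * ((n : ℝ) / Real.log n) = η / 4 * (n : ℝ) / Real.log n := by ring
          linarith
  rw [Real.exp_add] at h6
  calc 40 * A = 40 * A / η₁ * (1 + Real.log ((n : ℝ) + 1)) *
        (η₁ / (1 + Real.log ((n : ℝ) + 1))) := by field_simp
    _ ≤ (Real.exp (η * (n * Real.log 2) / Real.log (n * Real.log 2)) *
          Real.exp (-(η₂ * ((n : ℝ) + 1) / (1 + Real.log ((n : ℝ) + 1))))) *
        (η₁ / (1 + Real.log ((n : ℝ) + 1))) := by gcongr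
    _ = _ := by ring

lemma div_log_mono (x y : ℝ) (hx : Real.exp 1 ≤ x) (hxy : x ≤ y) :
    x / Real.log x ≤ y / Real.log y := by
  have he : 1 < Real.exp 1 := by
    have := Real.add_one_lt_exp (show (1 : ℝ) ≠ 0 by norm_num)
    linarith
  have h1 := Real.log_div_self_antitoneOn (show x ∈ {x : ℝ | Real.exp 1 ≤ x} from hx)
    (show y ∈ {x : ℝ | Real.exp 1 ≤ x} from hx.trans hxy) hxy
  have hlx : 0 < Real.log x := Real.log_pos (by linarith)
  have hly : 0 < Real.log y := Real.log_pos (by linarith)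
  have hx0 : 0 < x := by linarith
  have hy0 : 0 < y := by linarith
  have h1' : Real.log y / y ≤ Real.log x / x := h1
  rw [div_le_div_iff₀ hy0 hx0] at h1'
  rw [div_le_div_iff₀ hlx hly]
  linarith

lemma cg (η : ℝ) (hη : 0 < η) (g : ENNReal → ENNReal)
    (hg : ∀ r : ENNReal, 0 < r.toReal → r.toReal < 1 / 20 →
      ENNReal.ofReal (r.toReal * Real.exp (η * Real.log (1 / r.toReal) /
        Real.log (Real.log (1 / r.toReal)))) ≤ g r) :
    ∀ᶠ n : ℕ in atTop, ∀ r : ENNReal, 1 / (2 : ℝ) ^ (n + 1) < r.toReal →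
      r.toReal ≤ 1 / (2 : ℝ) ^ n → ENNReal.ofReal (1 / (2 : ℝ) ^ (n + 1) *
        Real.exp (η * (n * Real.log 2) / Real.log (n * Real.log 2))) ≤ g r := by
  filter_upwards [eventually_ge_atTop 5] with n hn r hr1 hr2
  have hn5 : (5 : ℝ) ≤ n := by exact_mod_cast hn
  have hr0 : 0 < r.toReal := lt_trans (by positivity) hr1
  have h32 : (32 : ℝ) ≤ 2 ^ n := by
    calc (32 : ℝ) = 2 ^ 5 := by norm_num
      _ ≤ 2 ^ n := pow_le_pow_right₀ (by norm_num) hn
  have hr3 : r.toReal < 1 / 20 := by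
    refine lt_of_le_of_lt hr2 ?_
    rw [div_lt_div_iff₀ (by positivity) (by norm_num)]
    linarith
  refine le_trans ?_ (hg r hr0 hr3)
  apply ENNReal.ofReal_le_ofReal
  have hlt := Real.log_two_gt_d9
  have h4 : (n : ℝ) * Real.log 2 ≤ Real.log (1 / r.toReal) := by
    rw [← Real.log_pow]
    apply Real.log_le_log (by positivity)
    rw [le_div_iff₀ hr0]
    calc (2 : ℝ) ^ n * r.toReal ≤ 2 ^ n * (1 / 2 ^ n) := by gcongr
      _ = 1 := by field_simp
  have h5 : Real.exp 1 ≤ (n : ℝ) * Real.log 2 := by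
    have := Real.exp_one_lt_d9
    nlinarith
  have h6 := div_log_mono _ _ h5 h4
  have h7 : η * (n * Real.log 2) / Real.log (n * Real.log 2) ≤
      η * Real.log (1 / r.toReal) / Real.log (Real.log (1 / r.toReal)) := by
    have h8 := mul_le_mul_of_nonneg_left h6 hη.le
    rw [← mul_div_assoc, ← mul_div_assoc] at h8
    exact h8
  apply mul_le_mul hr1.le (Real.exp_le_exp.mpr h7) (Real.exp_pos _).le hr0.le

end LG

theorem low_log (Fm : Finset (ℝ × ℝ)) (c' κ η A : ℝ) (hκ : 0 < κ) (hc'0 : 0 ≤ c') (hc'1 : c' < 1)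
    (hFm : ∀ v ∈ Fm, Dio v.1 κ c') (hη : 0 < η) (hA : 0 < A)
    (g : ENNReal → ENNReal) (hg : ∀ r : ENNReal, 0 < r.toReal → r.toReal < 1 / 20 →
      ENNReal.ofReal (r.toReal * Real.exp (η * Real.log (1 / r.toReal) / Real.log (Real.log (1 / r.toReal)))) ≤ g r) :
    ∃ n₁ : ℕ, ∀ T : ℕ → Set ℝ, (∀ i, Metric.ediam (T i) ≤ ENNReal.ofReal (1 / (2 : ℝ) ^ (n₁ + 1))) →
      (∑' i, ⨆ _ : (T i).Nonempty, g (Metric.ediam (T i)) < ENNReal.ofReal A) →
      ∃ x : ℝ, 0 ≤ x ∧ x ≤ 1 ∧ (∀ v ∈ Fm, ∃ κ' : ℝ, 0 < κ' ∧ ∀ q : ℕ, 1 ≤ q → ∀ b : ℤ,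
        κ' ≤ q * (((Nat.log 2 q : ℝ) + 1) * (1 + Real.log ((Nat.log 2 q : ℝ) + 1))) *
          (nint (q * v.1) * |q * x - v.2 - b|)) ∧ ∀ i, x ∉ T i := by
  have h2 : 0 < min (η / 4) (1 / 100) := by positivity
  have h3 : min (η / 4) (1 / 100) ≤ η / 4 := min_le_left _ _
  have h4 : min (η / 4) (1 / 100) ≤ 1 / 100 := min_le_right _ _
  generalize min (η / 4) (1 / 100) = η₂ at h2 h3 h4
  have h3l : (0 : ℝ) ≤ Real.log 3 := Real.log_nonneg (by norm_num)
  exact low_gen Fm c' κ hκ hFm LG.LL (LG.rate_LL c' hc'1) (3 * (1 + Real.log 3)) (by positivity)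
    (fun n s _ hs => LG.LL_dbl n s hs) LG.dp
    (fun n => η₂ / 4 / (1 + Real.log ((n : ℝ) + 1)))
    (fun n => η₂ * ((n : ℝ) + 1) / (1 + Real.log ((n : ℝ) + 1)))
    (fun n => η * (n * Real.log 2) / Real.log (n * Real.log 2))
    (2 / (η₂ / 4)) A (by positivity) hA g LG.c1 (LG.c2 (η₂ / 4) (by positivity) (by linarith))
    (LG.c3 η₂ h2 h4) (LG.c4 c' (η₂ / 4) (by positivity) hc'1)
    (LG.c5 (η₂ / 4) η₂ (by positivity) h2 h4) (LG.c6 (η₂ / 4) η₂ η A (by positivity) h2 h3 hη hA)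
    (LG.cg η hη g hg)

end Pool.Agent.H587.PG
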