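import Mathlib
import Pool.Agent.H587.PG.Low
import Pool.Agent.H587.PD.Param
import Pool.Agent.H587.PD.Pos

set_option autoImplicit false

open Finset Filter MeasureTheory

namespace Pool.Agent.H587.PG

lemma pw_ev_rpow_ge (C r : ℝ) (hr : 0 < r) : ∀ᶠ n : ℕ in atTop, C ≤ (n : ℝ) ^ r := by
  have h1 : ∀ᶠ x : ℝ in atTop, C ≤ x ^ r := (tendsto_rpow_atTop hr).eventually_ge_atTop C
  exact tendsto_natCast_atTop_atTop.eventually h1

lemma pw_rate (c c' : ℝ) (hc : 0 ≤ c) (hcc : c' ≤ c) : Rate (fun s : ℕ => ((s : ℝ) + 1) ^ c) c' := by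
  constructor
  · intro a b hab
    apply Real.rpow_le_rpow (by positivity) _ hc
    have : (a : ℝ) ≤ b := by exact_mod_cast hab
    linarith
  · intro s
    apply Real.rpow_le_rpow_of_exponent_le _ hcc
    have := Nat.cast_nonneg (α := ℝ) s
    linarith

lemma pw_dbl (c : ℝ) (hc : 0 ≤ c) (n s : ℕ) (h : n ≤ 3 * s) :
    ((n : ℝ) + 1) ^ c ≤ (3 : ℝ) ^ c * ((s : ℝ) + 1) ^ c := by
  rw [← Real.mul_rpow (by norm_num) (by positivity)]
  apply Real.rpow_le_rpow (by positivity) _ hc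
  have : (n : ℝ) ≤ 3 * s := by exact_mod_cast h
  linarith

/-- the depth is at most `r`-power small -/
lemma pw_dep (u : ℝ) (hu : 0 ≤ u) (A B ε r : ℝ) (hB : 0 ≤ B) (hε : 0 < ε) (hr : 0 < r) :
    ∀ᶠ n : ℕ in atTop, A + B * (PD.dep 2 u n : ℝ) ≤ ε * (n : ℝ) ^ r := by
  have h1 := PD.ev_log (A + B * (2 + 2 * Real.log 2 + 2 * u * Real.log 2)) (B * (2 * u)) ε r hε hr
  filter_upwards [h1, eventually_ge_atTop 1] with n h1 hn
  have h2 := PD.dep_log 2 Nat.prime_two u hu n hn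
  have h3 := mul_le_mul_of_nonneg_left h2 hB
  linarith

lemma pw_h1 (c : ℝ) (hc : 0 ≤ c) :
    ∀ᶠ n : ℕ in atTop, 1 ≤ PD.dep 2 (c + 3) n ∧ 9 * PD.dep 2 (c + 3) n ≤ n ∧
      ((n : ℝ) + 1) ^ c * ((n : ℝ) + 1) ^ 3 ≤ 2 ^ (PD.dep 2 (c + 3) n + 1) := by
  filter_upwards [pw_dep (c + 3) (by linarith) 0 9 1 1 (by norm_num) one_pos one_pos] with n h1
  refine ⟨by unfold PD.dep; omega, ?_, ?_⟩
  · rw [Real.rpow_one] at h1
    have h2 : (9 : ℝ) * (PD.dep 2 (c + 3) n : ℝ) ≤ (n : ℝ) := by linarith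
    exact_mod_cast h2
  · have h2 := PD.dep_ge 2 Nat.prime_two (c + 3) n
    have h3 : ((n : ℝ) + 1) ^ (c + 3) = ((n : ℝ) + 1) ^ c * ((n : ℝ) + 1) ^ 3 := by
      rw [Real.rpow_add (by positivity)]
      norm_cast
    rw [h3] at h2
    refine h2.trans ?_
    push_cast
    exact pow_le_pow_right₀ (by norm_num) (by omega)

lemma pw_h2 (c β : ℝ) (hc : 0 ≤ c) (hβ0 : 0 ≤ β) (hβ : β < 1) :
    ∀ᶠ n : ℕ in atTop, ∀ j : ℕ, n ≤ 2 * j → j ≤ n →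
      3 * (PD.dep 2 (c + 3) n : ℝ) * (j : ℝ) ^ (β - 1) ≤ 1 / 4 := by
  filter_upwards [pw_dep (c + 3) (by linarith) 0 24 1 (1 - β) (by norm_num) one_pos (by linarith),
    eventually_ge_atTop 2] with n h1 hn j hj _
  have hn0 : (0 : ℝ) < n := by
    have : 0 < n := by omega
    exact_mod_cast this
  have hjn : (n : ℝ) / 2 ≤ j := by
    have : (n : ℝ) ≤ 2 * j := by exact_mod_cast hj
    linarith
  have h2 : (j : ℝ) ^ (β - 1) ≤ ((n : ℝ) / 2) ^ (β - 1) :=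
    Real.rpow_le_rpow_of_nonpos (by positivity) hjn (by linarith)
  have h3 : ((n : ℝ) / 2) ^ (β - 1) ≤ 2 * (n : ℝ) ^ (β - 1) := by
    rw [Real.div_rpow hn0.le (by norm_num), div_le_iff₀ (by positivity)]
    have h4 : (2 : ℝ)⁻¹ ≤ (2 : ℝ) ^ (β - 1) := by
      rw [← Real.rpow_neg_one]
      apply Real.rpow_le_rpow_of_exponent_le (by norm_num)
      linarith
    have h5 : 0 < (n : ℝ) ^ (β - 1) := by positivity
    nlinarith
  have h4 : (n : ℝ) ^ (β - 1) * (n : ℝ) ^ (1 - β) = 1 := by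
    rw [← Real.rpow_add hn0]
    simp
  have h5 : 0 < (n : ℝ) ^ (β - 1) := by positivity
  have h6 : 0 ≤ (PD.dep 2 (c + 3) n : ℝ) := by positivity
  have h7 : 24 * (PD.dep 2 (c + 3) n : ℝ) * (n : ℝ) ^ (β - 1) ≤ 1 := by
    have : 24 * (PD.dep 2 (c + 3) n : ℝ) * (n : ℝ) ^ (β - 1) ≤ (n : ℝ) ^ (1 - β) * (n : ℝ) ^ (β - 1) := by
      apply mul_le_mul_of_nonneg_right _ h5.le
      linarith
    linarith
  have h8 : 3 * (PD.dep 2 (c + 3) n : ℝ) * (j : ℝ) ^ (β - 1) ≤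
      3 * (PD.dep 2 (c + 3) n : ℝ) * (2 * (n : ℝ) ^ (β - 1)) := by
    apply mul_le_mul_of_nonneg_left (h2.trans h3) (by positivity)
  linarith

lemma pw_h3 (β β' : ℝ) (hβ : β < 1) (hββ : β < β') (hβ' : 0 < β') (hβ'1 : β' ≤ 1) :
    ∀ᶠ n : ℕ in atTop, ((n - 1 : ℕ) : ℝ) ^ β' + 2 * (n : ℝ) ^ (β - 1) ≤ (n : ℝ) ^ β' ∧
      0 ≤ (n : ℝ) ^ (β - 1) ∧ (n : ℝ) ^ (β - 1) ≤ 1 / 2 ∧ 1 ≤ (n : ℝ) ^ β' := by
  filter_upwards [pw_ev_rpow_ge (2 / β') (β' - β) (by linarith), pw_ev_rpow_ge 2 (1 - β) (by linarith),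
    eventually_ge_atTop 1] with n h1 h2 hn
  have hn1 : (1 : ℝ) ≤ n := by exact_mod_cast hn
  have hn0 : (0 : ℝ) < n := by linarith
  refine ⟨?_, by positivity, ?_, Real.one_le_rpow hn1 hβ'.le⟩
  · have e1 : ((n - 1 : ℕ) : ℝ) = n * (1 + -(1 / (n : ℝ))) := by
      rw [Nat.cast_sub hn]
      field_simp
      simp [sub_eq_add_neg]
    have h3 : -1 ≤ -(1 / (n : ℝ)) := by
      rw [neg_le_neg_iff, div_le_one hn0]
      exact hn1
    have h4 : (1 + -(1 / (n : ℝ))) ^ β' ≤ 1 + β' * -(1 / (n : ℝ)) :=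
      rpow_one_add_le_one_add_mul_self h3 hβ'.le hβ'1
    rw [e1, Real.mul_rpow hn0.le (by linarith)]
    have h5 : (n : ℝ) ^ β' * (1 + -(1 / (n : ℝ))) ^ β' ≤ (n : ℝ) ^ β' * (1 + β' * -(1 / (n : ℝ))) :=
      mul_le_mul_of_nonneg_left h4 (by positivity)
    have e2 : (n : ℝ) ^ β' = (n : ℝ) ^ (β - 1) * (n : ℝ) ^ (β' - β) * n := by
      rw [← Real.rpow_add hn0]
      nth_rewrite 3 [← Real.rpow_one (n : ℝ)]
      rw [← Real.rpow_add hn0]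
      congr 1
      ring
    have h6 : 2 ≤ β' * (n : ℝ) ^ (β' - β) := by
      rw [div_le_iff₀ hβ'] at h1
      linarith
    have h7 : 0 < (n : ℝ) ^ (β - 1) := by positivity
    have e3 : (n : ℝ) ^ β' * (1 + β' * -(1 / (n : ℝ))) =
        (n : ℝ) ^ β' - (n : ℝ) ^ (β - 1) * (β' * (n : ℝ) ^ (β' - β)) := by
      have : (n : ℝ) ^ β' * (1 + β' * -(1 / (n : ℝ))) = (n : ℝ) ^ β' - (n : ℝ) ^ β' * (β' / n) := by ring
      rw [this]
      congr 1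
      rw [e2]
      field_simp
    have h8 := mul_le_mul_of_nonneg_left h6 h7.le
    linarith
  · have h4 : (n : ℝ) ^ (β - 1) * (n : ℝ) ^ (1 - β) = 1 := by
      rw [← Real.rpow_add hn0]
      simp
    have h7 : 0 < (n : ℝ) ^ (β - 1) := by positivity
    have h8 := mul_le_mul_of_nonneg_left h2 h7.le
    linarith

lemma pw_h4 (c c' β : ℝ) (hc : 0 ≤ c) (hβ : β < 1) (h2c : 2 - c < β)
    (hcc : 1 - (c - c') < β) :
    ∀ᶠ n : ℕ in atTop, ((n : ℝ) + 1) + (3 * (PD.dep 2 (c + 3) n : ℝ) + 2) * ((n : ℝ) + 1) ^ c' ≤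
      2 * ((n : ℝ) ^ (β - 1) * ((n : ℝ) + 1) ^ c) := by
  filter_upwards [pw_dep (c + 3) (by linarith) 2 3 1 (β - 1 + c - c') (by norm_num) one_pos (by linarith),
    eventually_ge_atTop 1] with n h1 hn
  have hn1 : (1 : ℝ) ≤ n := by exact_mod_cast hn
  have hn0 : (0 : ℝ) < n := by linarith
  have h2 : ((n : ℝ) + 1) ^ (β - 1) ≤ (n : ℝ) ^ (β - 1) :=
    Real.rpow_le_rpow_of_nonpos hn0 (by linarith) (by linarith)
  have h3 : ((n : ℝ) + 1) ^ (β - 1 + c) ≤ (n : ℝ) ^ (β - 1) * ((n : ℝ) + 1) ^ c := by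
    rw [Real.rpow_add (by positivity)]
    exact mul_le_mul_of_nonneg_right h2 (by positivity)
  have h4 : ((n : ℝ) + 1) ≤ ((n : ℝ) + 1) ^ (β - 1 + c) := by
    nth_rewrite 1 [← Real.rpow_one ((n : ℝ) + 1)]
    apply Real.rpow_le_rpow_of_exponent_le (by linarith) (by linarith)
  have h5 : (3 * (PD.dep 2 (c + 3) n : ℝ) + 2) * ((n : ℝ) + 1) ^ c' ≤ ((n : ℝ) + 1) ^ (β - 1 + c) := by
    have h6 : 3 * (PD.dep 2 (c + 3) n : ℝ) + 2 ≤ ((n : ℝ) + 1) ^ (β - 1 + c - c') := by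
      have h7 : (n : ℝ) ^ (β - 1 + c - c') ≤ ((n : ℝ) + 1) ^ (β - 1 + c - c') :=
        Real.rpow_le_rpow hn0.le (by linarith) (by linarith)
      linarith
    have e1 : ((n : ℝ) + 1) ^ (β - 1 + c) = ((n : ℝ) + 1) ^ (β - 1 + c - c') * ((n : ℝ) + 1) ^ c' := by
      rw [← Real.rpow_add (by positivity)]
      congr 1
      ring
    rw [e1]
    exact mul_le_mul_of_nonneg_right h6 (by positivity)
  linarith

lemma pw_h5 (β β' : ℝ) (hβ' : β' < 1) :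
    ∀ᶠ n : ℕ in atTop, 20 ≤ (2 : ℝ) ^ n * (n : ℝ) ^ (β - 1) * Real.exp (-(n : ℝ) ^ β') := by
  filter_upwards [PD.ev_log (Real.log 20) (1 - β) (1 / 4) 1 (by norm_num) one_pos,
    pw_ev_rpow_ge 4 (1 - β') (by linarith), eventually_ge_atTop 1] with n h1 h2 hn
  have hn1 : (1 : ℝ) ≤ n := by exact_mod_cast hn
  have hn0 : (0 : ℝ) < n := by linarith
  have e1 : (2 : ℝ) ^ n = Real.exp (n * Real.log 2) := by
    rw [mul_comm, Real.exp_mul, Real.exp_log (by norm_num)]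
    simp
  have e2 : (n : ℝ) ^ (β - 1) = Real.exp (Real.log n * (β - 1)) := by
    rw [Real.rpow_def_of_pos hn0]
  rw [e1, e2, ← Real.exp_add, ← Real.exp_add]
  have e3 : (20 : ℝ) = Real.exp (Real.log 20) := by rw [Real.exp_log (by norm_num)]
  rw [e3]
  apply Real.exp_le_exp.2
  rw [Real.rpow_one] at h1
  have h3 : (n : ℝ) ^ β' ≤ n / 4 := by
    have h4 : (n : ℝ) ^ β' * (n : ℝ) ^ (1 - β') = n := by
      rw [← Real.rpow_add hn0]
      simp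
    have h5 : 0 < (n : ℝ) ^ β' := by positivity
    have h6 := mul_le_mul_of_nonneg_left h2 h5.le
    linarith
  have h4 := Real.log_two_gt_d9
  have h5 : (1 / 2 : ℝ) * n ≤ n * Real.log 2 := by nlinarith
  linarith

lemma pw_h6 (β β' θ A : ℝ) (hθ : 0 < θ) (hβ' : β' < θ) (hA : 0 < A) :
    ∀ᶠ n : ℕ in atTop, 40 * A ≤ Real.exp (((n : ℝ) * Real.log 2) ^ θ) * (n : ℝ) ^ (β - 1) *
      Real.exp (-(n : ℝ) ^ β') := by
  have hl2 : 0 < Real.log 2 := Real.log_pos (by norm_num)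
  have hw : 0 < Real.log 2 ^ θ := by positivity
  filter_upwards [PD.ev_log (Real.log (40 * A)) (1 - β) (Real.log 2 ^ θ / 2) θ (by positivity) hθ,
    pw_ev_rpow_ge (2 / Real.log 2 ^ θ) (θ - β') (by linarith), eventually_ge_atTop 1] with n h1 h2 hn
  have hn1 : (1 : ℝ) ≤ n := by exact_mod_cast hn
  have hn0 : (0 : ℝ) < n := by linarith
  have e2 : (n : ℝ) ^ (β - 1) = Real.exp (Real.log n * (β - 1)) := by
    rw [Real.rpow_def_of_pos hn0]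
  rw [e2, ← Real.exp_add, ← Real.exp_add, Real.mul_rpow hn0.le hl2.le]
  have e3 : 40 * A = Real.exp (Real.log (40 * A)) := by rw [Real.exp_log (by positivity)]
  rw [e3]
  apply Real.exp_le_exp.2
  have h3 : 2 * (n : ℝ) ^ β' ≤ (n : ℝ) ^ θ * Real.log 2 ^ θ := by
    have h4 : (n : ℝ) ^ β' * (n : ℝ) ^ (θ - β') = (n : ℝ) ^ θ := by
      rw [← Real.rpow_add hn0]
      congr 1
      ring
    have h5 : 0 < (n : ℝ) ^ β' := by positivity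
    rw [div_le_iff₀ hw] at h2
    have h6 := mul_le_mul_of_nonneg_left h2 h5.le
    rw [← h4]
    linarith
  linarith

lemma pw_hg (θ : ℝ) (hθ : 0 < θ) (g : ENNReal → ENNReal)
    (hg : ∀ r : ENNReal, 0 < r.toReal → r.toReal < 1 / 2 →
      ENNReal.ofReal (r.toReal * Real.exp (Real.log (1 / r.toReal) ^ θ)) ≤ g r) :
    ∀ᶠ n : ℕ in atTop, ∀ r : ENNReal, 1 / (2 : ℝ) ^ (n + 1) < r.toReal → r.toReal ≤ 1 / (2 : ℝ) ^ n →
      ENNReal.ofReal (1 / (2 : ℝ) ^ (n + 1) * Real.exp (((n : ℝ) * Real.log 2) ^ θ)) ≤ g r := by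
  filter_upwards [eventually_ge_atTop 2] with n hn r h1 h2
  have hp : 0 < 1 / (2 : ℝ) ^ (n + 1) := by positivity
  have hr : 0 < r.toReal := hp.trans h1
  have h3 : 1 / (2 : ℝ) ^ n ≤ 1 / 4 := by
    apply one_div_le_one_div_of_le (by norm_num)
    calc (4 : ℝ) = 2 ^ 2 := by norm_num
      _ ≤ 2 ^ n := pow_le_pow_right₀ (by norm_num) hn
  refine le_trans ?_ (hg r hr (by linarith))
  apply ENNReal.ofReal_le_ofReal
  have h4 : (n : ℝ) * Real.log 2 ≤ Real.log (1 / r.toReal) := by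
    rw [← Real.log_pow]
    apply Real.log_le_log (by positivity)
    rw [le_div_iff₀ hr]
    rw [le_div_iff₀ (by positivity)] at h2
    linarith
  have hl2 : 0 < Real.log 2 := Real.log_pos (by norm_num)
  have h5 : ((n : ℝ) * Real.log 2) ^ θ ≤ Real.log (1 / r.toReal) ^ θ :=
    Real.rpow_le_rpow (by positivity) h4 hθ.le
  apply mul_le_mul h1.le (Real.exp_le_exp.2 h5) (Real.exp_pos _).le hr.le

theorem low_pow (Fm : Finset (ℝ × ℝ)) (c c' κ θ A : ℝ) (hκ : 0 < κ) (hc'0 : 0 ≤ c') (hFm : ∀ v ∈ Fm, Dio v.1 κ c')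
    (hc1 : 1 < c) (hcc : c' < c) (hθ2 : 2 - c < θ) (hθ3 : 1 - (c - c') < θ) (hθ0 : 0 < θ) (hA : 0 < A)
    (g : ENNReal → ENNReal) (hg : ∀ r : ENNReal, 0 < r.toReal → r.toReal < 1 / 2 →
      ENNReal.ofReal (r.toReal * Real.exp (Real.log (1 / r.toReal) ^ θ)) ≤ g r) :
    ∃ n₁ : ℕ, ∀ T : ℕ → Set ℝ, (∀ i, Metric.ediam (T i) ≤ ENNReal.ofReal (1 / (2 : ℝ) ^ (n₁ + 1))) →
      (∑' i, ⨆ _ : (T i).Nonempty, g (Metric.ediam (T i)) < ENNReal.ofReal A) →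
      ∃ x : ℝ, 0 ≤ x ∧ x ≤ 1 ∧ (∀ v ∈ Fm, ∃ κ' : ℝ, 0 < κ' ∧ ∀ q : ℕ, 1 ≤ q → ∀ b : ℤ,
        κ' ≤ q * ((Nat.log 2 q : ℝ) + 1) ^ c * (nint (q * v.1) * |q * x - v.2 - b|)) ∧ ∀ i, x ∉ T i := by
  have hc0 : 0 ≤ c := by linarith
  obtain ⟨M, hM0, hM1, hM2, hMθ, hM3⟩ : ∃ M : ℝ, 0 ≤ M ∧ 2 - c ≤ M ∧ 1 - (c - c') ≤ M ∧ M < θ ∧ M < 1 :=
    ⟨max (max (2 - c) (1 - (c - c'))) 0, le_max_right _ _,
      (le_max_left _ _).trans (le_max_left _ _), (le_max_right _ _).trans (le_max_left _ _),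
      max_lt (max_lt hθ2 hθ3) hθ0, max_lt (max_lt (by linarith) (by linarith)) one_pos⟩
  obtain ⟨θ₁, hθ1, hθ11, hθ12⟩ : ∃ θ₁ : ℝ, M < θ₁ ∧ θ₁ ≤ θ ∧ θ₁ ≤ 1 :=
    ⟨min θ 1, lt_min hMθ hM3, min_le_left _ _, min_le_right _ _⟩
  set β := (2 * M + θ₁) / 3 with hβdef
  set β' := (M + 2 * θ₁) / 3 with hβ'def
  have hβM : M < β := by rw [hβdef]; linarith
  have hββ : β < β' := by rw [hβdef, hβ'def]; linarith
  have hβ'θ : β' < θ₁ := by rw [hβ'def]; linarith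
  exact low_gen Fm c' κ hκ hFm (fun s : ℕ => ((s : ℝ) + 1) ^ c) (pw_rate c c' hc0 hcc.le) ((3 : ℝ) ^ c)
    (by positivity) (fun n s _ h => pw_dbl c hc0 n s h) (fun n => PD.dep 2 (c + 3) n)
    (fun n => (n : ℝ) ^ (β - 1)) (fun n => (n : ℝ) ^ β') (fun n => ((n : ℝ) * Real.log 2) ^ θ) 2 A
    (by norm_num) hA g (pw_h1 c hc0) (pw_h2 c β hc0 (by linarith) (by linarith))
    (pw_h3 β β' (by linarith) hββ (by linarith) (by linarith))
    (pw_h4 c c' β hc0 (by linarith) (by linarith) (by linarith))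
    (pw_h5 β β' (by linarith)) (pw_h6 β β' θ A hθ0 (by linarith) hA) (pw_hg θ hθ0 g hg)

end Pool.Agent.H587.PG
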