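import Mathlib
import Pool.Agent.H587.PG.LowC
import Pool.Agent.H587.PG.PGPOW
import Pool.Agent.H587.PG.PGLOG

set_option autoImplicit false

open Finset Filter MeasureTheory

namespace Pool.Agent.H587.PG

theorem low_pow_c (α γ κ : ℕ → ℝ) (c c' θ A : ℝ) (hα : ∀ i, Dio (α i) (κ i) c')
    (hc1 : 1 < c) (hcc : c' < c) (hθ2 : 2 - c < θ) (hθ3 : 1 - (c - c') < θ) (hθ0 : 0 < θ) (hA : 0 < A)
    (g : ENNReal → ENNReal) (hg : ∀ r : ENNReal, 0 < r.toReal → r.toReal < 1 / 2 →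
      ENNReal.ofReal (r.toReal * Real.exp (Real.log (1 / r.toReal) ^ θ)) ≤ g r) :
    ∃ n₁ : ℕ, ∀ T : ℕ → Set ℝ, (∀ i, Metric.ediam (T i) ≤ ENNReal.ofReal (1 / (2 : ℝ) ^ (n₁ + 1))) →
      (∑' i, ⨆ _ : (T i).Nonempty, g (Metric.ediam (T i)) < ENNReal.ofReal A) →
      ∃ x : ℝ, 0 ≤ x ∧ x ≤ 1 ∧ (∀ i, ∃ κ' : ℝ, 0 < κ' ∧ ∀ q : ℕ, 1 ≤ q → ∀ b : ℤ,
        κ' ≤ q * ((Nat.log 2 q : ℝ) + 1) ^ c * (nint (q * α i) * |q * x - γ i - b|)) ∧ ∀ i, x ∉ T i := by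
  have hc0 : 0 ≤ c := by linarith
  obtain ⟨M, hM0, hM1, hM2, hMθ, hM3⟩ : ∃ M : ℝ, 0 ≤ M ∧ 2 - c ≤ M ∧ 1 - (c - c') ≤ M ∧ M < θ ∧ M < 1 :=
    ⟨max (max (2 - c) (1 - (c - c'))) 0, le_max_right _ _,
      (le_max_left _ _).trans (le_max_left _ _), (le_max_right _ _).trans (le_max_left _ _),
      max_lt (max_lt hθ2 hθ3) hθ0, max_lt (max_lt (by linarith) (by linarith)) one_pos⟩
  obtain ⟨θ₁, hθ1, hθ11, hθ12⟩ : ∃ θ₁ : ℝ, M < θ₁ ∧ θ₁ ≤ θ ∧ θ₁ ≤ 1 :=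
    ⟨min θ 1, lt_min hMθ hM3, min_le_left _ _, min_le_right _ _⟩
  set β := (2 * M + θ₁) / 3 with hβdef
  set β' := (M + 2 * θ₁) / 3 with hβ'def
  have hβM : M < β := by rw [hβdef]; linarith
  have hββ : β < β' := by rw [hβdef, hβ'def]; linarith
  have hβ'θ : β' < θ₁ := by rw [hβ'def]; linarith
  have hβ1 : β < 1 := by linarith
  have hβ'1 : β' < 1 := by linarith
  have hA1 : ∀ᶠ n : ℕ in atTop, 1 ≤ PD.dep 2 (c + 3) n ∧ 18 * PD.dep 2 (c + 3) n ≤ n ∧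
      ((n : ℝ) + 1) ^ c ≤ 2 ^ (PD.dep 2 (c + 3) n + 1) := by
    filter_upwards [pw_dep (c + 3) (by linarith) 0 18 1 1 (by norm_num) one_pos one_pos, pw_h1 c hc0] with n h1 h2
    refine ⟨h2.1, ?_, ?_⟩
    · rw [Real.rpow_one] at h1
      have h3 : (18 : ℝ) * (PD.dep 2 (c + 3) n : ℝ) ≤ (n : ℝ) := by linarith
      exact_mod_cast h3
    · refine le_trans ?_ h2.2.2
      apply le_mul_of_one_le_right (by positivity)
      apply one_le_pow₀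
      have : (0 : ℝ) ≤ n := Nat.cast_nonneg _
      linarith
  have hA7 : ∀ᶠ n : ℕ in atTop, (n : ℝ) ^ β' ≤ n / 60 ∧ 1 ≤ ((n : ℝ) + 2) ^ 2 * (n : ℝ) ^ (β - 1) ∧ (n : ℝ) ^ (β - 1) ≤ 1 / 18 := by
    filter_upwards [pw_ev_rpow_ge 60 (1 - β') (by linarith), pw_ev_rpow_ge 18 (1 - β) (by linarith),
      eventually_ge_atTop 1] with n h1 h2 hn
    have hn1 : (1 : ℝ) ≤ n := by exact_mod_cast hn
    have hn0 : (0 : ℝ) < n := by linarith
    refine ⟨?_, ?_, ?_⟩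
    · have h4 : (n : ℝ) ^ β' * (n : ℝ) ^ (1 - β') = n := by
        rw [← Real.rpow_add hn0]
        simp
      have h5 : 0 < (n : ℝ) ^ β' := by positivity
      have h6 := mul_le_mul_of_nonneg_left h1 h5.le
      linarith
    · have h3 : (1 : ℝ) ≤ (n : ℝ) ^ (2 : ℝ) * (n : ℝ) ^ (β - 1) := by
        rw [← Real.rpow_add hn0]
        exact Real.one_le_rpow hn1 (by linarith)
      have h4 : (n : ℝ) ^ (2 : ℝ) ≤ ((n : ℝ) + 2) ^ 2 := by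
        rw [Real.rpow_two]
        exact pow_le_pow_left₀ hn0.le (by linarith) 2
      have h5 : 0 < (n : ℝ) ^ (β - 1) := by positivity
      exact h3.trans (mul_le_mul_of_nonneg_right h4 h5.le)
    · have h4 : (n : ℝ) ^ (β - 1) * (n : ℝ) ^ (1 - β) = 1 := by
        rw [← Real.rpow_add hn0]
        simp
      have h7 : 0 < (n : ℝ) ^ (β - 1) := by positivity
      have h8 := mul_le_mul_of_nonneg_left h2 h7.le
      linarith
  exact low_cnt α γ κ c' hα (fun s : ℕ => ((s : ℝ) + 1) ^ c) (pw_rate c c' hc0 hcc.le) ((3 : ℝ) ^ c)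
    (by positivity) (fun n s _ h => pw_dbl c hc0 n s h) (fun n => PD.dep 2 (c + 3) n)
    (fun n => (n : ℝ) ^ (β - 1)) (fun n => (n : ℝ) ^ β') (fun n => ((n : ℝ) * Real.log 2) ^ θ) 2 A
    (by norm_num) hA g hA1 (pw_h2 c β hc0 (by linarith) (by linarith))
    (pw_h3 β β' (by linarith) hββ (by linarith) (by linarith))
    (pw_h4 c c' β hc0 (by linarith) (by linarith) (by linarith))
    (pw_h5 β β' (by linarith)) (pw_h6 β β' θ A hθ0 (by linarith) hA) (pw_hg θ hθ0 g hg) hA7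

theorem low_log_c (α γ κ : ℕ → ℝ) (c' η A : ℝ) (hα : ∀ i, Dio (α i) (κ i) c') (hc'1 : c' < 1)
    (hη : 0 < η) (hA : 0 < A)
    (g : ENNReal → ENNReal) (hg : ∀ r : ENNReal, 0 < r.toReal → r.toReal < 1 / 20 →
      ENNReal.ofReal (r.toReal * Real.exp (η * Real.log (1 / r.toReal) / Real.log (Real.log (1 / r.toReal)))) ≤ g r) :
    ∃ n₁ : ℕ, ∀ T : ℕ → Set ℝ, (∀ i, Metric.ediam (T i) ≤ ENNReal.ofReal (1 / (2 : ℝ) ^ (n₁ + 1))) →
      (∑' i, ⨆ _ : (T i).Nonempty, g (Metric.ediam (T i)) < ENNReal.ofReal A) →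
      ∃ x : ℝ, 0 ≤ x ∧ x ≤ 1 ∧ (∀ i, ∃ κ' : ℝ, 0 < κ' ∧ ∀ q : ℕ, 1 ≤ q → ∀ b : ℤ,
        κ' ≤ q * (((Nat.log 2 q : ℝ) + 1) * (1 + Real.log ((Nat.log 2 q : ℝ) + 1))) *
          (nint (q * α i) * |q * x - γ i - b|)) ∧ ∀ i, x ∉ T i := by
  have h2 : 0 < min (η / 4) (1 / 100) := by positivity
  have h3 : min (η / 4) (1 / 100) ≤ η / 4 := min_le_left _ _
  have h4 : min (η / 4) (1 / 100) ≤ 1 / 100 := min_le_right _ _
  generalize min (η / 4) (1 / 100) = η₂ at h2 h3 h4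
  have h3l : (0 : ℝ) ≤ Real.log 3 := Real.log_nonneg (by norm_num)
  have hA1 : ∀ᶠ n : ℕ in atTop, 1 ≤ LG.dp n ∧ 18 * LG.dp n ≤ n ∧ LG.LL n ≤ 2 ^ (LG.dp n + 1) := by
    filter_upwards [LG.ev_log 234 144 1 1 one_pos one_pos, eventually_ge_atTop 1, LG.c1] with n h1 h2 h3
    refine ⟨h3.1, ?_, ?_⟩
    · rw [Real.rpow_one, one_mul] at h1
      have h3 := LG.dp_le n h2
      have h4 : ((18 * LG.dp n : ℕ) : ℝ) ≤ n := by
        push_cast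
        linarith
      exact_mod_cast h4
    · refine le_trans ?_ h3.2.2
      have h5 : 0 ≤ LG.LL n := by
        have h6 := LG.one_le_lam n
        unfold LG.LL
        positivity
      apply le_mul_of_one_le_right h5
      apply one_le_pow₀
      have : (0 : ℝ) ≤ n := Nat.cast_nonneg _
      linarith
  have hA7 : ∀ᶠ n : ℕ in atTop, η₂ * ((n : ℝ) + 1) / (1 + Real.log ((n : ℝ) + 1)) ≤ n / 60 ∧
      1 ≤ ((n : ℝ) + 2) ^ 2 * (η₂ / 4 / (1 + Real.log ((n : ℝ) + 1))) ∧ η₂ / 4 / (1 + Real.log ((n : ℝ) + 1)) ≤ 1 / 18 := by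
    obtain ⟨N, hN⟩ := exists_nat_ge (4 / η₂)
    filter_upwards [eventually_ge_atTop (max N 2)] with n hn
    have hnN : N ≤ n := (le_max_left _ _).trans hn
    have hn2 : 2 ≤ n := (le_max_right _ _).trans hn
    have hn2' : (2 : ℝ) ≤ n := by exact_mod_cast hn2
    have hnN' : 4 / η₂ ≤ n := hN.trans (by exact_mod_cast hnN)
    have h5 := LG.one_le_lam n
    have h6 := LG.lam_le n
    have h7 : 0 < 1 + Real.log ((n : ℝ) + 1) := by linarith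
    rw [div_le_iff₀ h2] at hnN'
    refine ⟨?_, ?_, ?_⟩
    · rw [div_le_iff₀ h7]
      have h8 : η₂ * ((n : ℝ) + 1) ≤ 1 / 100 * ((n : ℝ) + 1) := by gcongr
      have h9 : (n : ℝ) / 60 * 1 ≤ n / 60 * (1 + Real.log ((n : ℝ) + 1)) := by gcongr
      linarith
    · rw [← mul_div_assoc, le_div_iff₀ h7]
      have h8 : ((n : ℝ) + 2) * n ≤ ((n : ℝ) + 2) ^ 2 := by nlinarith
      calc 1 * (1 + Real.log ((n : ℝ) + 1)) ≤ (n : ℝ) + 1 := by linarith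
        _ ≤ ((n : ℝ) + 2) * (n * η₂) / 4 := by nlinarith
        _ = (((n : ℝ) + 2) * n) * (η₂ / 4) := by ring
        _ ≤ ((n : ℝ) + 2) ^ 2 * (η₂ / 4) := by gcongr
    · rw [div_le_iff₀ h7]
      linarith
  exact low_cnt α γ κ c' hα LG.LL (LG.rate_LL c' hc'1) (3 * (1 + Real.log 3)) (by positivity)
    (fun n s _ hs => LG.LL_dbl n s hs) LG.dp
    (fun n => η₂ / 4 / (1 + Real.log ((n : ℝ) + 1)))
    (fun n => η₂ * ((n : ℝ) + 1) / (1 + Real.log ((n : ℝ) + 1)))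
    (fun n => η * (n * Real.log 2) / Real.log (n * Real.log 2))
    (2 / (η₂ / 4)) A (by positivity) hA g hA1 (LG.c2 (η₂ / 4) (by positivity) (by linarith))
    (LG.c3 η₂ h2 h4) (LG.c4 c' (η₂ / 4) (by positivity) hc'1)
    (LG.c5 (η₂ / 4) η₂ (by positivity) h2 h4) (LG.c6 (η₂ / 4) η₂ η A (by positivity) h2 h3 hη hA)
    (LG.cg η hη g hg) hA7

end Pool.Agent.H587.PG
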