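import Mathlib
import Pool.Agent.H587.PG.LowC
import Pool.Agent.H587.PG.PGPOW

set_option autoImplicit false

open Finset Filter MeasureTheory

namespace Pool.Agent.H587.PG

lemma cr_h1 (c : ℝ) (hc : 0 ≤ c) : ∀ᶠ n : ℕ in atTop, 1 ≤ PD.dep 2 (c + 3) n ∧ 18 * PD.dep 2 (c + 3) n ≤ n ∧
    ((n : ℝ) + 1) ^ c ≤ 2 ^ (PD.dep 2 (c + 3) n + 1) := by
  filter_upwards [pw_dep (c + 3) (by linarith) 0 18 1 1 (by norm_num) one_pos one_pos, pw_h1 c hc] with n h1 h2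
  refine ⟨h2.1, ?_, ?_⟩
  · rw [Real.rpow_one] at h1
    have h3 : (18 : ℝ) * (PD.dep 2 (c + 3) n : ℝ) ≤ (n : ℝ) := by linarith
    exact_mod_cast h3
  · refine le_trans ?_ h2.2.2
    apply le_mul_of_one_le_right (by positivity)
    apply one_le_pow₀
    have : (0 : ℝ) ≤ n := Nat.cast_nonneg _
    linarith

lemma cr_h2 (c η₁ : ℝ) (hc1 : 1 < c) (hc2 : c < 2) (_h0 : 0 < η₁) (h1 : η₁ ≤ 1) :
    ∀ᶠ n : ℕ in atTop, ∀ j : ℕ, n ≤ 2 * j → j ≤ n →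
      3 * (PD.dep 2 (c + 3) n : ℝ) * (η₁ * (j : ℝ) ^ (1 - c)) ≤ 1 / 4 := by
  filter_upwards [pw_h2 c (2 - c) (by linarith) (by linarith) (by linarith)] with n h j hj1 hj2
  have h3 := h j hj1 hj2
  have e : (2 - c - 1 : ℝ) = 1 - c := by ring
  rw [e] at h3
  have h4 : 0 ≤ (j : ℝ) ^ (1 - c) := by positivity
  have h5 : η₁ * (j : ℝ) ^ (1 - c) ≤ 1 * (j : ℝ) ^ (1 - c) := mul_le_mul_of_nonneg_right h1 h4
  rw [one_mul] at h5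
  refine le_trans ?_ h3
  gcongr

lemma cr_h3 (c η₁ η₂ : ℝ) (hc1 : 1 < c) (hc2 : c < 2) (h0 : 0 < η₂) (he : 2 * η₁ ≤ η₂ * (2 - c)) (h01 : 0 < η₁) (h1 : η₁ ≤ 1 / 2) :
    ∀ᶠ n : ℕ in atTop, η₂ * ((n - 1 : ℕ) : ℝ) ^ (2 - c) + 2 * (η₁ * (n : ℝ) ^ (1 - c)) ≤ η₂ * (n : ℝ) ^ (2 - c) ∧
      0 ≤ η₁ * (n : ℝ) ^ (1 - c) ∧ η₁ * (n : ℝ) ^ (1 - c) ≤ 1 / 2 ∧ 1 ≤ η₂ * (n : ℝ) ^ (2 - c) := by
  filter_upwards [pw_ev_rpow_ge (1 / η₂) (2 - c) (by linarith), eventually_ge_atTop 1] with n h2 hn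
  have hn1 : (1 : ℝ) ≤ n := by exact_mod_cast hn
  have hn0 : (0 : ℝ) < n := by linarith
  have hD1 : (n : ℝ) ^ (1 - c) ≤ 1 := Real.rpow_le_one_of_one_le_of_nonpos hn1 (by linarith)
  refine ⟨?_, by positivity, by nlinarith, ?_⟩
  · have e1 : ((n - 1 : ℕ) : ℝ) = n * (1 + -(1 / (n : ℝ))) := by
      rw [Nat.cast_sub hn]
      field_simp
      simp [sub_eq_add_neg]
    have h3 : -1 ≤ -(1 / (n : ℝ)) := by
      rw [neg_le_neg_iff, div_le_one hn0]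
      exact hn1
    have h4 : (1 + -(1 / (n : ℝ))) ^ (2 - c) ≤ 1 + (2 - c) * -(1 / (n : ℝ)) :=
      rpow_one_add_le_one_add_mul_self h3 (by linarith) (by linarith)
    rw [e1, Real.mul_rpow hn0.le (by linarith)]
    have h5 : (n : ℝ) ^ (2 - c) * (1 + -(1 / (n : ℝ))) ^ (2 - c) ≤ (n : ℝ) ^ (2 - c) * (1 + (2 - c) * -(1 / (n : ℝ))) :=
      mul_le_mul_of_nonneg_left h4 (by positivity)
    have e2 : (n : ℝ) ^ (2 - c) = (n : ℝ) ^ (1 - c) * n := by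
      nth_rewrite 3 [← Real.rpow_one (n : ℝ)]
      rw [← Real.rpow_add hn0]
      congr 1
      ring
    have e3 : (n : ℝ) ^ (2 - c) * (1 + (2 - c) * -(1 / (n : ℝ))) = (n : ℝ) ^ (2 - c) - (2 - c) * (n : ℝ) ^ (1 - c) := by
      have : (n : ℝ) ^ (2 - c) * (1 + (2 - c) * -(1 / (n : ℝ))) = (n : ℝ) ^ (2 - c) - (2 - c) * ((n : ℝ) ^ (2 - c) / n) := by ring
      rw [this]
      congr 2
      rw [e2]
      field_simp
    rw [e3] at h5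
    have h6 := mul_le_mul_of_nonneg_left h5 h0.le
    have h7 : 2 * (η₁ * (n : ℝ) ^ (1 - c)) ≤ η₂ * ((2 - c) * (n : ℝ) ^ (1 - c)) := by
      have h8 : 0 ≤ (n : ℝ) ^ (1 - c) := by positivity
      have := mul_le_mul_of_nonneg_right he h8
      linarith
    linarith
  · rw [div_le_iff₀ h0] at h2
    linarith

lemma cr_h4 (c c' η₁ : ℝ) (hc1 : 1 < c) (hc' : c' < 1) (h01 : 0 < η₁) :
    ∀ᶠ n : ℕ in atTop, ((n : ℝ) + 1) + (3 * (PD.dep 2 (c + 3) n : ℝ) + 2) * ((n : ℝ) + 1) ^ c' ≤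
      2 / η₁ * (η₁ * (n : ℝ) ^ (1 - c) * ((n : ℝ) + 1) ^ c) := by
  filter_upwards [pw_dep (c + 3) (by linarith) 2 3 1 (1 - c') (by norm_num) one_pos (by linarith),
    eventually_ge_atTop 1] with n h1 hn
  have hn1 : (1 : ℝ) ≤ n := by exact_mod_cast hn
  have hn0 : (0 : ℝ) < n := by linarith
  have h2 : ((n : ℝ) + 1) ≤ (n : ℝ) ^ (1 - c) * ((n : ℝ) + 1) ^ c := by
    have h3 : ((n : ℝ) + 1) ^ (1 - c) ≤ (n : ℝ) ^ (1 - c) :=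
      Real.rpow_le_rpow_of_nonpos hn0 (by linarith) (by linarith)
    have h4 : ((n : ℝ) + 1) = ((n : ℝ) + 1) ^ (1 - c) * ((n : ℝ) + 1) ^ c := by
      rw [← Real.rpow_add (by positivity)]
      simp
    calc ((n : ℝ) + 1) = ((n : ℝ) + 1) ^ (1 - c) * ((n : ℝ) + 1) ^ c := h4
      _ ≤ _ := mul_le_mul_of_nonneg_right h3 (by positivity)
  have h3 : (3 * (PD.dep 2 (c + 3) n : ℝ) + 2) * ((n : ℝ) + 1) ^ c' ≤ (n : ℝ) + 1 := by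
    have h4 : 3 * (PD.dep 2 (c + 3) n : ℝ) + 2 ≤ ((n : ℝ) + 1) ^ (1 - c') := by
      have h7 : (n : ℝ) ^ (1 - c') ≤ ((n : ℝ) + 1) ^ (1 - c') :=
        Real.rpow_le_rpow hn0.le (by linarith) (by linarith)
      linarith
    have e1 : ((n : ℝ) + 1) = ((n : ℝ) + 1) ^ (1 - c') * ((n : ℝ) + 1) ^ c' := by
      rw [← Real.rpow_add (by positivity)]
      simp
    calc (3 * (PD.dep 2 (c + 3) n : ℝ) + 2) * ((n : ℝ) + 1) ^ c' ≤ ((n : ℝ) + 1) ^ (1 - c') * ((n : ℝ) + 1) ^ c' :=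
          mul_le_mul_of_nonneg_right h4 (by positivity)
      _ = (n : ℝ) + 1 := e1.symm
  have e2 : 2 / η₁ * (η₁ * (n : ℝ) ^ (1 - c) * ((n : ℝ) + 1) ^ c) = 2 * ((n : ℝ) ^ (1 - c) * ((n : ℝ) + 1) ^ c) := by
    field_simp
  rw [e2]
  linarith

lemma cr_h5 (c η₁ η₂ : ℝ) (hc1 : 1 < c) (h01 : 0 < η₁) (h02 : 0 < η₂) (h2 : η₂ ≤ 1 / 100) :
    ∀ᶠ n : ℕ in atTop, 20 ≤ (2 : ℝ) ^ n * (η₁ * (n : ℝ) ^ (1 - c)) * Real.exp (-(η₂ * (n : ℝ) ^ (2 - c))) := by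
  filter_upwards [PD.ev_log (Real.log 20 - Real.log η₁) (c - 1) (1 / 2) 1 (by norm_num) one_pos,
    eventually_ge_atTop 1] with n h1 hn
  have hn1 : (1 : ℝ) ≤ n := by exact_mod_cast hn
  have hn0 : (0 : ℝ) < n := by linarith
  have e1 : (2 : ℝ) ^ n = Real.exp (n * Real.log 2) := by
    rw [mul_comm, Real.exp_mul, Real.exp_log (by norm_num)]
    simp
  have e2 : (n : ℝ) ^ (1 - c) = Real.exp (Real.log n * (1 - c)) := by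
    rw [Real.rpow_def_of_pos hn0]
  have e4 : η₁ = Real.exp (Real.log η₁) := (Real.exp_log h01).symm
  have h3 : η₂ * (n : ℝ) ^ (2 - c) ≤ 1 / 100 * n := by
    have h4 : (n : ℝ) ^ (2 - c) ≤ (n : ℝ) ^ (1 : ℝ) := Real.rpow_le_rpow_of_exponent_le hn1 (by linarith)
    rw [Real.rpow_one] at h4
    exact mul_le_mul h2 h4 (by positivity) (by norm_num)
  rw [Real.rpow_one] at h1
  have h4 := Real.log_two_gt_d9
  have h6 : Real.log 20 ≤ n * Real.log 2 + (Real.log η₁ + Real.log n * (1 - c)) + -(η₂ * (n : ℝ) ^ (2 - c)) := by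
    have h5 : (0.69 : ℝ) * n ≤ n * Real.log 2 := by nlinarith
    linarith
  calc (20 : ℝ) = Real.exp (Real.log 20) := by rw [Real.exp_log (by norm_num)]
    _ ≤ Real.exp (n * Real.log 2 + (Real.log η₁ + Real.log n * (1 - c)) + -(η₂ * (n : ℝ) ^ (2 - c))) := Real.exp_le_exp.2 h6
    _ = _ := by rw [Real.exp_add, Real.exp_add, Real.exp_add, ← e1, ← e2, ← e4]

lemma cr_h6 (c η₁ η₂ a A : ℝ) (hc2 : c < 2) (h01 : 0 < η₁) (h02 : 0 < η₂)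
    (h2 : 2 * η₂ ≤ a * Real.log 2 ^ (2 - c)) (hA : 0 < A) :
    ∀ᶠ n : ℕ in atTop, 40 * A ≤ Real.exp (a * ((n : ℝ) * Real.log 2) ^ (2 - c)) * (η₁ * (n : ℝ) ^ (1 - c)) *
      Real.exp (-(η₂ * (n : ℝ) ^ (2 - c))) := by
  have hl2 : 0 < Real.log 2 := Real.log_pos (by norm_num)
  filter_upwards [PD.ev_log (Real.log (40 * A) - Real.log η₁) (c - 1) η₂ (2 - c) h02 (by linarith),
    eventually_ge_atTop 1] with n h1 hn
  have hn1 : (1 : ℝ) ≤ n := by exact_mod_cast hn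
  have hn0 : (0 : ℝ) < n := by linarith
  have e2 : (n : ℝ) ^ (1 - c) = Real.exp (Real.log n * (1 - c)) := by
    rw [Real.rpow_def_of_pos hn0]
  have e4 : η₁ = Real.exp (Real.log η₁) := (Real.exp_log h01).symm
  have h3 : 2 * η₂ * (n : ℝ) ^ (2 - c) ≤ a * ((n : ℝ) * Real.log 2) ^ (2 - c) := by
    rw [Real.mul_rpow hn0.le hl2.le]
    have h4 : 0 ≤ (n : ℝ) ^ (2 - c) := by positivity
    have := mul_le_mul_of_nonneg_right h2 h4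
    linarith
  have h6 : Real.log (40 * A) ≤ a * ((n : ℝ) * Real.log 2) ^ (2 - c) + (Real.log η₁ + Real.log n * (1 - c)) + -(η₂ * (n : ℝ) ^ (2 - c)) := by
    linarith
  calc 40 * A = Real.exp (Real.log (40 * A)) := by rw [Real.exp_log (by positivity)]
    _ ≤ Real.exp (a * ((n : ℝ) * Real.log 2) ^ (2 - c) + (Real.log η₁ + Real.log n * (1 - c)) + -(η₂ * (n : ℝ) ^ (2 - c))) :=
        Real.exp_le_exp.2 h6
    _ = _ := by rw [Real.exp_add, Real.exp_add, Real.exp_add, ← e2, ← e4]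

lemma cr_hg (c a : ℝ) (hc2 : c < 2) (ha : 0 < a) (g : ENNReal → ENNReal)
    (hg : ∀ r : ENNReal, 0 < r.toReal → r.toReal < 1 / 2 →
      ENNReal.ofReal (r.toReal * Real.exp (a * Real.log (1 / r.toReal) ^ (2 - c))) ≤ g r) :
    ∀ᶠ n : ℕ in atTop, ∀ r : ENNReal, 1 / (2 : ℝ) ^ (n + 1) < r.toReal → r.toReal ≤ 1 / (2 : ℝ) ^ n →
      ENNReal.ofReal (1 / (2 : ℝ) ^ (n + 1) * Real.exp (a * ((n : ℝ) * Real.log 2) ^ (2 - c))) ≤ g r := by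
  filter_upwards [eventually_ge_atTop 2] with n hn r h1 h2
  have hp : 0 < 1 / (2 : ℝ) ^ (n + 1) := by positivity
  have hr : 0 < r.toReal := hp.trans h1
  have h3 : 1 / (2 : ℝ) ^ n ≤ 1 / 4 := by
    apply one_div_le_one_div_of_le (by norm_num)
    calc (4 : ℝ) = 2 ^ 2 := by norm_num
      _ ≤ 2 ^ n := pow_le_pow_right₀ (by norm_num) hn
  refine le_trans ?_ (hg r hr (by linarith))
  apply ENNReal.ofReal_le_ofReal
  have h4 : (n : ℝ) * Real.log 2 ≤ Real.log (1 / r.toReal) := by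
    rw [← Real.log_pow]
    apply Real.log_le_log (by positivity)
    rw [le_div_iff₀ hr]
    rw [le_div_iff₀ (by positivity)] at h2
    linarith
  have hl2 : 0 < Real.log 2 := Real.log_pos (by norm_num)
  have h5 : ((n : ℝ) * Real.log 2) ^ (2 - c) ≤ Real.log (1 / r.toReal) ^ (2 - c) :=
    Real.rpow_le_rpow (by positivity) h4 (by linarith)
  have h6 : a * ((n : ℝ) * Real.log 2) ^ (2 - c) ≤ a * Real.log (1 / r.toReal) ^ (2 - c) := mul_le_mul_of_nonneg_left h5 ha.le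
  apply mul_le_mul h1.le (Real.exp_le_exp.2 h6) (Real.exp_pos _).le hr.le

lemma cr_h7 (c η₁ η₂ : ℝ) (hc1 : 1 < c) (hc2 : c < 2) (h01 : 0 < η₁) (h1 : η₁ ≤ 1 / 18) (h02 : 0 < η₂) (h2 : η₂ ≤ 1 / 100) :
    ∀ᶠ n : ℕ in atTop, η₂ * (n : ℝ) ^ (2 - c) ≤ n / 60 ∧ 1 ≤ ((n : ℝ) + 2) ^ 2 * (η₁ * (n : ℝ) ^ (1 - c)) ∧
      η₁ * (n : ℝ) ^ (1 - c) ≤ 1 / 18 := by
  filter_upwards [pw_ev_rpow_ge (1 / η₁) (3 - c) (by linarith), eventually_ge_atTop 1] with n h3 hn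
  have hn1 : (1 : ℝ) ≤ n := by exact_mod_cast hn
  have hn0 : (0 : ℝ) < n := by linarith
  refine ⟨?_, ?_, ?_⟩
  · have h4 : (n : ℝ) ^ (2 - c) ≤ (n : ℝ) ^ (1 : ℝ) := Real.rpow_le_rpow_of_exponent_le hn1 (by linarith)
    rw [Real.rpow_one] at h4
    have : η₂ * (n : ℝ) ^ (2 - c) ≤ 1 / 100 * n := mul_le_mul h2 h4 (by positivity) (by norm_num)
    linarith
  · rw [div_le_iff₀ h01] at h3
    have e1 : (n : ℝ) ^ (3 - c) = (n : ℝ) ^ 2 * (n : ℝ) ^ (1 - c) := by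
      rw [← Real.rpow_natCast, ← Real.rpow_add hn0]
      congr 1
      norm_num
      ring
    rw [e1] at h3
    have h4 : (n : ℝ) ^ 2 ≤ ((n : ℝ) + 2) ^ 2 := pow_le_pow_left₀ hn0.le (by linarith) 2
    have h5 : 0 ≤ η₁ * (n : ℝ) ^ (1 - c) := by positivity
    have h6 := mul_le_mul_of_nonneg_right h4 h5
    linarith
  · have hD1 : (n : ℝ) ^ (1 - c) ≤ 1 := Real.rpow_le_one_of_one_le_of_nonpos hn1 (by linarith)
    nlinarith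

/-- the critical gauge -/
theorem low_crit_c (α γ κ : ℕ → ℝ) (c c' a A : ℝ) (hα : ∀ i, Dio (α i) (κ i) c')
    (hc1 : 1 < c) (hc2 : c < 2) (hc' : c' < 1) (ha : 0 < a) (hA : 0 < A)
    (g : ENNReal → ENNReal) (hg : ∀ r : ENNReal, 0 < r.toReal → r.toReal < 1 / 2 →
      ENNReal.ofReal (r.toReal * Real.exp (a * Real.log (1 / r.toReal) ^ (2 - c))) ≤ g r) :
    ∃ n₁ : ℕ, ∀ T : ℕ → Set ℝ, (∀ i, Metric.ediam (T i) ≤ ENNReal.ofReal (1 / (2 : ℝ) ^ (n₁ + 1))) →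
      (∑' i, ⨆ _ : (T i).Nonempty, g (Metric.ediam (T i)) < ENNReal.ofReal A) →
      ∃ x : ℝ, 0 ≤ x ∧ x ≤ 1 ∧ (∀ i, ∃ κ' : ℝ, 0 < κ' ∧ ∀ q : ℕ, 1 ≤ q → ∀ b : ℤ,
        κ' ≤ q * ((Nat.log 2 q : ℝ) + 1) ^ c * (nint (q * α i) * |q * x - γ i - b|)) ∧ ∀ i, x ∉ T i := by
  have hc0 : 0 ≤ c := by linarith
  have hl2 : 0 < Real.log 2 := Real.log_pos (by norm_num)
  obtain ⟨η₂, e1, e2, e3⟩ : ∃ η₂ : ℝ, 0 < η₂ ∧ η₂ ≤ 1 / 100 ∧ 2 * η₂ ≤ a * Real.log 2 ^ (2 - c) := by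
    refine ⟨min (1 / 100) (a * Real.log 2 ^ (2 - c) / 2), by positivity, min_le_left _ _, ?_⟩
    have := min_le_right (1 / 100) (a * Real.log 2 ^ (2 - c) / 2)
    linarith
  obtain ⟨η₁, h⟩ : ∃ η₁ : ℝ, η₁ = η₂ * (2 - c) / 2 := ⟨_, rfl⟩
  have f1 : 0 < η₁ := by rw [h]; have : 0 < 2 - c := by linarith
                         positivity
  have f2 : 2 * η₁ ≤ η₂ * (2 - c) := by rw [h]; linarith
  have f3 : η₁ ≤ 1 / 18 := by nlinarith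
  exact low_cnt α γ κ c' hα (fun s : ℕ => ((s : ℝ) + 1) ^ c) (pw_rate c c' hc0 (by linarith)) ((3 : ℝ) ^ c)
    (by positivity) (fun n s _ h => pw_dbl c hc0 n s h) (fun n => PD.dep 2 (c + 3) n)
    (fun n => η₁ * (n : ℝ) ^ (1 - c)) (fun n => η₂ * (n : ℝ) ^ (2 - c)) (fun n => a * ((n : ℝ) * Real.log 2) ^ (2 - c)) (2 / η₁) A
    (by positivity) hA g (cr_h1 c hc0) (cr_h2 c η₁ hc1 hc2 f1 (by linarith)) (cr_h3 c η₁ η₂ hc1 hc2 e1 f2 f1 (by linarith))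
    (cr_h4 c c' η₁ hc1 hc' f1) (cr_h5 c η₁ η₂ hc1 f1 e1 e2) (cr_h6 c η₁ η₂ a A hc2 f1 e1 e3 hA) (cr_hg c a hc2 ha g hg)
    (cr_h7 c η₁ η₂ hc1 hc2 f1 f3 e1 e2)

end Pool.Agent.H587.PG
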