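import Mathlib
import Pool.Agent.H587.PE.PESLICE
import Pool.Agent.H587.PE.PEAE
import Pool.Agent.H587.PG.AppC

set_option autoImplicit false

open Finset Filter MeasureTheory Topology

namespace Pool.Agent.H587.PG

/-- the exceptional numbers -/
def Exc (φ : ℝ → ℝ) (α γ : ℝ) : Set ℝ :=
  {β | ∃ κ : ℝ, 0 < κ ∧ ∃ N : ℕ, ∀ q : ℕ, N ≤ q →
    κ ≤ q * φ (Real.log q) * (nint (q * α) * nint (q * β - γ))}

/-- power gauge -/
noncomputable def gPow (θ : ℝ) (r : ENNReal) : ENNReal :=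
  ENNReal.ofReal (r.toReal * Real.exp (Real.log (1 / r.toReal) ^ θ))

/-- logarithmic gauge -/
noncomputable def gLog (η : ℝ) (r : ENNReal) : ENNReal :=
  ENNReal.ofReal (r.toReal * Real.exp (η * Real.log (1 / r.toReal) / Real.log (Real.log (1 / r.toReal))))

/-- the hypothesis on α in the final theorem -/
def Dio' (α c' : ℝ) : Prop :=
  ∃ κ : ℝ, 0 < κ ∧ ∃ N : ℕ, ∀ q : ℕ, N ≤ q → κ ≤ q * Real.log q ^ c' * nint (q * α)

lemma log_le_bl (q : ℕ) (hq : 1 ≤ q) : Real.log q ≤ (Nat.log 2 q : ℝ) + 1 := by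
  have h1 : q < 2 ^ (Nat.log 2 q + 1) := Nat.lt_pow_succ_log_self (by norm_num) q
  have h2 : (q : ℝ) ≤ 2 ^ (Nat.log 2 q + 1) := by exact_mod_cast h1.le
  have h3 : Real.log q ≤ Real.log (2 ^ (Nat.log 2 q + 1)) := Real.log_le_log (by exact_mod_cast hq) h2
  rw [Real.log_pow] at h3
  push_cast at h3
  have h4 := Real.log_two_lt_d9
  have h5 : (0 : ℝ) ≤ (Nat.log 2 q : ℝ) + 1 := by positivity
  nlinarith

lemma bl_le_log (q : ℕ) (hq : 2 ≤ q) : (Nat.log 2 q : ℝ) + 1 ≤ 3 * Real.log q := by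
  have h1 : 2 ^ (Nat.log 2 q) ≤ q := Nat.pow_log_le_self 2 (by omega)
  have h2 : (2 : ℝ) ^ (Nat.log 2 q) ≤ q := by exact_mod_cast h1
  have h3 : Real.log ((2 : ℝ) ^ (Nat.log 2 q)) ≤ Real.log q := Real.log_le_log (by positivity) h2
  rw [Real.log_pow] at h3
  have h4 := Real.log_two_gt_d9
  have h5 : Real.log 2 ≤ Real.log q := Real.log_le_log (by norm_num) (by exact_mod_cast hq)
  have h6 : (0 : ℝ) ≤ (Nat.log 2 q : ℝ) := by positivity
  nlinarith

lemma nint_int_zero (y : ℝ) (h : nint y = 0) (k : ℕ) : nint (k * y) = 0 := by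
  unfold nint at h
  have h1 : y = round y := by
    have := abs_eq_zero.1 h
    linarith
  have h2 : nint (k * y) ≤ |k * y - ((k * round y : ℤ) : ℝ)| := nint_le _ _
  have h3 : (k : ℝ) * y - ((k * round y : ℤ) : ℝ) = 0 := by
    push_cast
    rw [← h1]; ring
  rw [h3, abs_zero] at h2
  exact le_antisymm h2 (nint_nonneg _)

lemma dio_of (α c' : ℝ) (hc' : 0 ≤ c') (h : Dio' α c') : ∃ κ : ℝ, Dio α κ c' := by
  obtain ⟨κ, hκ, N, hN⟩ := h
  have hpos : ∀ q : ℕ, 1 ≤ q → 0 < q * ((Nat.log 2 q : ℝ) + 1) ^ c' * nint (q * α) := by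
    intro q hq
    have h1 : (0 : ℝ) < q := by exact_mod_cast hq
    have h2 : 0 < nint (q * α) := by
      rcases (nint_nonneg (q * α)).eq_or_lt with h | h
      · exfalso
        have h3 := nint_int_zero (q * α) h.symm (N + 1)
        have h4 := hN ((N + 1) * q) (by nlinarith)
        have h5 : (((N + 1) * q : ℕ) : ℝ) * α = ((N + 1 : ℕ) : ℝ) * (q * α) := by push_cast; ring
        rw [h5, h3, mul_zero] at h4
        linarith
      · exact h
    positivity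
  obtain ⟨κ₁, k1, k2, k3⟩ := Pool.Agent.H587.PE.fin_min _ hpos (N + 1)
  refine ⟨min κ κ₁, lt_min hκ k1, hc', fun q hq => ?_⟩
  rcases Nat.lt_or_ge q (N + 1) with h | h
  · exact (min_le_right _ _).trans (k3 q hq h)
  · refine (min_le_left _ _).trans ((hN q (by omega)).trans ?_)
    have h1 := log_le_bl q hq
    have h2 : 0 ≤ Real.log q := Real.log_nonneg (by exact_mod_cast hq)
    have h3 : Real.log q ^ c' ≤ ((Nat.log 2 q : ℝ) + 1) ^ c' := Real.rpow_le_rpow h2 h1 hc'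
    have h4 := nint_nonneg (q * α)
    gcongr

lemma top_of_cover (g : ENNReal → ENNReal) (E : Set ℝ)
    (h : ∀ A : ℝ, 0 < A → ∃ n₁ : ℕ, ∀ T : ℕ → Set ℝ, (∀ i, Metric.ediam (T i) ≤ ENNReal.ofReal (1 / (2 : ℝ) ^ (n₁ + 1))) →
      (∑' i, ⨆ _ : (T i).Nonempty, g (Metric.ediam (T i)) < ENNReal.ofReal A) → ∃ x ∈ E, ∀ i, x ∉ T i) :
    Measure.mkMetric g E = ⊤ := by
  by_contra hcon
  set H := Measure.mkMetric g E with hH
  set A := H.toReal + 1 with hA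
  have hA0 : 0 < A := by
    have : 0 ≤ H.toReal := ENNReal.toReal_nonneg
    linarith
  have hHA : H < ENNReal.ofReal A := by
    rw [ENNReal.lt_ofReal_iff_toReal_lt hcon]
    linarith
  obtain ⟨n₁, hn₁⟩ := h A hA0
  have hr : (0 : ENNReal) < ENNReal.ofReal (1 / (2 : ℝ) ^ (n₁ + 1)) := by
    rw [ENNReal.ofReal_pos]; positivity
  have h1 : (⨅ (t : ℕ → Set ℝ), ⨅ (_ : E ⊆ Set.iUnion t),
      ⨅ (_ : ∀ n, Metric.ediam (t n) ≤ ENNReal.ofReal (1 / (2 : ℝ) ^ (n₁ + 1))),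
      ∑' n, ⨆ (_ : (t n).Nonempty), g (Metric.ediam (t n))) < ENNReal.ofReal A := by
    refine lt_of_le_of_lt ?_ hHA
    rw [hH, Measure.mkMetric_apply]
    exact le_iSup₂ (f := fun (r : ENNReal) (_ : 0 < r) => ⨅ (t : ℕ → Set ℝ), ⨅ (_ : E ⊆ Set.iUnion t),
      ⨅ (_ : ∀ n, Metric.ediam (t n) ≤ r), ∑' n, ⨆ (_ : (t n).Nonempty), g (Metric.ediam (t n))) _ hr
  simp only [iInf_lt_iff] at h1
  obtain ⟨t, ht1, ht2, ht3⟩ := h1
  obtain ⟨x, hxE, hx⟩ := hn₁ t ht2 ht3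
  obtain ⟨i, hi⟩ := Set.mem_iUnion.1 (ht1 hxE)
  exact hx i hi

lemma exc_pow (c α γ x : ℝ) (hc : 0 < c) (h : ∃ κ' : ℝ, 0 < κ' ∧ ∀ q : ℕ, 1 ≤ q → ∀ b : ℤ,
    κ' ≤ q * ((Nat.log 2 q : ℝ) + 1) ^ c * (nint (q * α) * |q * x - γ - b|)) : x ∈ Exc (fun t => t ^ c) α γ := by
  obtain ⟨κ', hκ', h1⟩ := h
  refine ⟨κ' / 3 ^ c, by positivity, 2, fun q hq => ?_⟩
  have h2 := h1 q (by omega) (round (q * x - γ))
  have h3 : |q * x - γ - (round (q * x - γ) : ℤ)| = nint (q * x - γ) := rfl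
  rw [h3] at h2
  have h4 := bl_le_log q hq
  have h5 : ((Nat.log 2 q : ℝ) + 1) ^ c ≤ 3 ^ c * Real.log q ^ c := by
    rw [← Real.mul_rpow (by norm_num) (Real.log_nonneg (by exact_mod_cast (by omega : 1 ≤ q)))]
    exact Real.rpow_le_rpow (by positivity) h4 hc.le
  have h6 := nint_nonneg (q * α)
  have h7 := nint_nonneg (q * x - γ)
  rw [div_le_iff₀ (by positivity)]
  calc κ' ≤ q * ((Nat.log 2 q : ℝ) + 1) ^ c * (nint (q * α) * nint (q * x - γ)) := h2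
    _ ≤ q * (3 ^ c * Real.log q ^ c) * (nint (q * α) * nint (q * x - γ)) := by gcongr
    _ = _ := by ring

lemma exc_log (α γ x : ℝ) (h : ∃ κ' : ℝ, 0 < κ' ∧ ∀ q : ℕ, 1 ≤ q → ∀ b : ℤ,
    κ' ≤ q * (((Nat.log 2 q : ℝ) + 1) * (1 + Real.log ((Nat.log 2 q : ℝ) + 1))) *
      (nint (q * α) * |q * x - γ - b|)) : x ∈ Exc (fun t => t * Real.log t) α γ := by
  obtain ⟨κ', hκ', h1⟩ := h
  refine ⟨κ' / 15, by positivity, 16, fun q hq => ?_⟩
  have h2 := h1 q (by omega) (round (q * x - γ))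
  have h3 : |q * x - γ - (round (q * x - γ) : ℤ)| = nint (q * x - γ) := rfl
  rw [h3] at h2
  have h4 := bl_le_log q (by omega)
  have hlog16 : (2.77 : ℝ) ≤ Real.log q := by
    have h5 : Real.log 16 ≤ Real.log q := Real.log_le_log (by norm_num) (by exact_mod_cast hq)
    have h6 : Real.log 16 = 4 * Real.log 2 := by
      rw [show (16 : ℝ) = 2 ^ 4 by norm_num, Real.log_pow]; norm_num
    have := Real.log_two_gt_d9
    linarith
  have hll : 1 ≤ Real.log (Real.log q) := by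
    rw [Real.le_log_iff_exp_le (by linarith)]
    have := Real.exp_one_lt_d9
    linarith
  have h5 : 1 + Real.log ((Nat.log 2 q : ℝ) + 1) ≤ 5 * Real.log (Real.log q) := by
    have h6 : Real.log ((Nat.log 2 q : ℝ) + 1) ≤ Real.log (3 * Real.log q) :=
      Real.log_le_log (by positivity) h4
    rw [Real.log_mul (by norm_num) (by linarith)] at h6
    have h7 : Real.log 3 ≤ 2 := by
      rw [Real.log_le_iff_le_exp (by norm_num)]
      have h8 : Real.exp 1 * Real.exp 1 = Real.exp 2 := by rw [← Real.exp_add]; norm_num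
      have := Real.exp_one_gt_d9
      nlinarith
    linarith
  have h6 := nint_nonneg (q * α)
  have h7 := nint_nonneg (q * x - γ)
  have h8 : 0 ≤ Real.log ((Nat.log 2 q : ℝ) + 1) := Real.log_nonneg (by
    have : (0 : ℝ) ≤ (Nat.log 2 q : ℝ) := by positivity
    linarith)
  rw [div_le_iff₀ (by positivity)]
  calc κ' ≤ q * (((Nat.log 2 q : ℝ) + 1) * (1 + Real.log ((Nat.log 2 q : ℝ) + 1))) * (nint (q * α) * nint (q * x - γ)) := h2
    _ ≤ q * ((3 * Real.log q) * (5 * Real.log (Real.log q))) * (nint (q * α) * nint (q * x - γ)) := by gcongr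
    _ = _ := by ring

/-- part (1) -/
theorem part_pow (c c' θ : ℝ) (hc1 : 1 < c) (hc'0 : 0 ≤ c') (hcc : c' < c) (hθ2 : 2 - c < θ)
    (hθ3 : 1 - (c - c') < θ) (hθ0 : 0 < θ) (α γ : ℕ → ℝ) (hα : ∀ i, Dio' (α i) c') :
    Measure.mkMetric (gPow θ) {β : ℝ | β ∈ Set.Icc (0 : ℝ) 1 ∧ ∀ i, β ∈ Exc (fun t => t ^ c) (α i) (γ i)} = ⊤ := by
  choose κ hκ using fun i => dio_of (α i) c' hc'0 (hα i)
  apply top_of_cover
  intro A hA
  obtain ⟨n₁, hn₁⟩ := low_pow_c α γ κ c c' θ A hκ hc1 hcc hθ2 hθ3 hθ0 hA (gPow θ) (fun r _ _ => le_rfl)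
  refine ⟨n₁, fun T h1 h2 => ?_⟩
  obtain ⟨x, hx0, hx1, hx2, hx3⟩ := hn₁ T h1 h2
  exact ⟨x, ⟨⟨hx0, hx1⟩, fun i => exc_pow c (α i) (γ i) x (by linarith) (hx2 i)⟩, hx3⟩

/-- part (2) -/
theorem part_log (c' η : ℝ) (hc'0 : 0 ≤ c') (hc'1 : c' < 1) (hη : 0 < η)
    (α γ : ℕ → ℝ) (hα : ∀ i, Dio' (α i) c') :
    Measure.mkMetric (gLog η) {β : ℝ | β ∈ Set.Icc (0 : ℝ) 1 ∧ ∀ i, β ∈ Exc (fun t => t * Real.log t) (α i) (γ i)} = ⊤ := by
  choose κ hκ using fun i => dio_of (α i) c' hc'0 (hα i)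
  apply top_of_cover
  intro A hA
  obtain ⟨n₁, hn₁⟩ := low_log_c α γ κ c' η A hκ hc'1 hη hA (gLog η) (fun r _ _ => le_rfl)
  refine ⟨n₁, fun T h1 h2 => ?_⟩
  obtain ⟨x, hx0, hx1, hx2, hx3⟩ := hn₁ T h1 h2
  exact ⟨x, ⟨⟨hx0, hx1⟩, fun i => exc_log (α i) (γ i) x (hx2 i)⟩, hx3⟩

lemma gPow_mono (θ : ℝ) (hθ0 : 0 < θ) (hθ1 : θ < 1) (a b : ENNReal) (hab : a ≤ b)
    (hb : b ≤ ENNReal.ofReal (Real.exp (-1))) : gPow θ a ≤ gPow θ b := by
  unfold gPow
  apply ENNReal.ofReal_le_ofReal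
  have hbt : b ≠ ⊤ := ne_top_of_le_ne_top ENNReal.ofReal_ne_top hb
  have h1 : a.toReal ≤ b.toReal := ENNReal.toReal_mono hbt hab
  have h2 : b.toReal ≤ Real.exp (-1) := by
    have := ENNReal.toReal_mono ENNReal.ofReal_ne_top hb
    rwa [ENNReal.toReal_ofReal (Real.exp_pos _).le] at this
  have h0 : 0 ≤ a.toReal := ENNReal.toReal_nonneg
  set x := a.toReal with hx
  set y := b.toReal with hy
  rcases h0.eq_or_lt with h | h
  · rw [← h, zero_mul]
    have : 0 ≤ y := ENNReal.toReal_nonneg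
    positivity
  · have hy0 : 0 < y := lt_of_lt_of_le h h1
    have hLy : 1 ≤ Real.log (1 / y) := by
      rw [one_div, Real.log_inv]
      have := Real.log_le_log hy0 h2
      rw [Real.log_exp] at this
      linarith
    have hLxy : Real.log (1 / y) ≤ Real.log (1 / x) := by
      apply Real.log_le_log (by positivity)
      exact one_div_le_one_div_of_le h h1
    set P := Real.log (1 / y) with hP
    set Q := Real.log (1 / x) with hQ
    have hP0 : 0 < P := by linarith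
    have hQ0 : 0 < Q := by linarith
    have h3 : Q ^ θ ≤ P ^ θ * (Q / P) := by
      have h4 : 1 ≤ Q / P := by rw [le_div_iff₀ hP0]; linarith
      have h5 : (Q / P) ^ θ ≤ (Q / P) ^ (1 : ℝ) := Real.rpow_le_rpow_of_exponent_le h4 hθ1.le
      rw [Real.rpow_one, Real.div_rpow hQ0.le hP0.le, div_le_iff₀ (by positivity)] at h5
      linarith
    have h4 : P ^ θ ≤ P := by
      have := Real.rpow_le_rpow_of_exponent_le hLy hθ1.le
      rwa [Real.rpow_one] at this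
    have h5 : Q ^ θ - P ^ θ ≤ Q - P := by
      have h6 : P ^ θ * (Q / P) - P ^ θ = P ^ θ / P * (Q - P) := by field_simp
      have h7 : P ^ θ / P ≤ 1 := by rw [div_le_one hP0]; exact h4
      have h8 : P ^ θ / P * (Q - P) ≤ 1 * (Q - P) := mul_le_mul_of_nonneg_right h7 (by linarith)
      linarith
    have hx' : x = Real.exp (-Q) := by
      rw [hQ, one_div, Real.log_inv, neg_neg, Real.exp_log h]
    have hy' : y = Real.exp (-P) := by
      rw [hP, one_div, Real.log_inv, neg_neg, Real.exp_log hy0]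
    rw [hx', hy', ← Real.exp_add, ← Real.exp_add]
    apply Real.exp_le_exp.2
    linarith

/-- part (3) -/
theorem part_pairs (c θ : ℝ) (hc1 : 1 < c) (hθ2 : 2 - c < θ) (hθ0 : 0 < θ) (γ : ℕ → ℝ) :
    Measure.mkMetric (fun r => r * gPow θ r) {p : ℝ × ℝ | p.1 ∈ Set.Icc (0 : ℝ) 1 ∧ p.2 ∈ Set.Icc (0 : ℝ) 1 ∧
      ∀ i, p.2 ∈ Exc (fun t => t ^ c) p.1 (γ i)} = ⊤ := by
  classical
  set M := max (2 - c) 0 with hM
  have hM1 : 2 - c ≤ M := le_max_left _ _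
  have hM2 : 0 ≤ M := le_max_right _ _
  have hM3 : M < 1 := max_lt (by linarith) one_pos
  have hM4 : M < θ := max_lt hθ2 hθ0
  set θ₁ := (M + min θ 1) / 2 with hθ₁
  have hm1 : M < min θ 1 := lt_min hM4 hM3
  have hm2 : min θ 1 ≤ θ := min_le_left _ _
  have hm3 : min θ 1 ≤ 1 := min_le_right _ _
  have h11 : M < θ₁ := by rw [hθ₁]; linarith
  have h12 : θ₁ < 1 := by rw [hθ₁]; linarith
  have h13 : θ₁ ≤ θ := by rw [hθ₁]; linarith
  have h14 : 0 < θ₁ := by linarith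
  set c' := 1 + min (c - 1) (θ₁ - (2 - c)) / 2 with hc'
  have k1 : 0 < min (c - 1) (θ₁ - (2 - c)) := lt_min (by linarith) (by linarith)
  have k2 : min (c - 1) (θ₁ - (2 - c)) ≤ c - 1 := min_le_left _ _
  have k3 : min (c - 1) (θ₁ - (2 - c)) ≤ θ₁ - (2 - c) := min_le_right _ _
  have hc'1 : 1 < c' := by rw [hc']; linarith
  have hc'c : c' < c := by rw [hc']; linarith
  have hc'θ : 1 - (c - c') < θ₁ := by rw [hc']; linarith
  set E := {p : ℝ × ℝ | p.1 ∈ Set.Icc (0 : ℝ) 1 ∧ p.2 ∈ Set.Icc (0 : ℝ) 1 ∧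
      ∀ i, p.2 ∈ Exc (fun t => t ^ c) p.1 (γ i)} with hE
  have h1 : Measure.mkMetric (fun r => r * gPow θ₁ r) E = ⊤ := by
    apply Pool.Agent.H587.PE.slice (gPow θ₁) (ENNReal.ofReal (Real.exp (-1))) (by rw [ENNReal.ofReal_pos]; exact Real.exp_pos _)
      (fun a b h1 h2 => gPow_mono θ₁ h14 h12 a b h1 h2)
    have h2 : ∀ᵐ a : ℝ ∂(volume.restrict (Set.Icc (0 : ℝ) 1)), a ∈ Set.Icc (0 : ℝ) 1 := ae_restrict_mem measurableSet_Icc
    have h3 : ∀ᵐ a : ℝ ∂(volume.restrict (Set.Icc (0 : ℝ) 1)), ∃ κ : ℝ, 0 < κ ∧ ∀ q : ℕ, 1 ≤ q →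
        κ ≤ q * ((Nat.log 2 q : ℝ) + 1) ^ c' * |q * a - round (q * a)| :=
      ae_restrict_of_ae (Pool.Agent.H587.PE.ae_dioph c' hc'1)
    filter_upwards [h2, h3] with a ha hκa
    obtain ⟨κ, hκ, hκ2⟩ := hκa
    apply top_of_cover
    intro A hA
    obtain ⟨n₁, hn₁⟩ := low_pow_c (fun _ => a) γ (fun _ => κ) c c' θ₁ A
      (fun i => ⟨hκ, by linarith, hκ2⟩) hc1 hc'c (by linarith) hc'θ h14 hA (gPow θ₁) (fun r _ _ => le_rfl)
    refine ⟨n₁, fun T h1 h2 => ?_⟩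
    obtain ⟨x, hx0, hx1, hx2, hx3⟩ := hn₁ T h1 h2
    refine ⟨x, ⟨ha, ⟨hx0, hx1⟩, fun i => exc_pow c a (γ i) x (by linarith) (hx2 i)⟩, hx3⟩
  have h2 : (Measure.mkMetric (fun r => r * gPow θ₁ r) : Measure (ℝ × ℝ)) ≤ Measure.mkMetric (fun r => r * gPow θ r) := by
    apply Measure.mkMetric_mono
    have h3 : ∀ᶠ r : ENNReal in 𝓝 0, r < ENNReal.ofReal (Real.exp (-1)) := by
      apply Iio_mem_nhds
      rw [ENNReal.ofReal_pos]; exact Real.exp_pos _
    filter_upwards [h3] with r hr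
    apply mul_le_mul_of_nonneg_left _ (zero_le (a := r))
    unfold gPow
    apply ENNReal.ofReal_le_ofReal
    have h0 : 0 ≤ r.toReal := ENNReal.toReal_nonneg
    rcases h0.eq_or_lt with h | h
    · rw [← h]; simp
    · have h4 : r.toReal < Real.exp (-1) := by
        have := (ENNReal.toReal_lt_toReal (ne_top_of_lt hr) ENNReal.ofReal_ne_top).2 hr
        rwa [ENNReal.toReal_ofReal (Real.exp_pos _).le] at this
      have h5 : 1 ≤ Real.log (1 / r.toReal) := by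
        rw [one_div, Real.log_inv]
        have := Real.log_le_log h h4.le
        rw [Real.log_exp] at this
        linarith
      have h6 : Real.log (1 / r.toReal) ^ θ₁ ≤ Real.log (1 / r.toReal) ^ θ := Real.rpow_le_rpow_of_exponent_le h5 h13
      gcongr
  have h3 := h2 E
  rw [h1] at h3
  exact top_le_iff.1 h3

end Pool.Agent.H587.PG
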