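import Mathlib
import Pool.Agent.H587.PG.FinalC
import Pool.Agent.H587.PG.Crit

set_option autoImplicit false

open Finset Filter MeasureTheory Topology

namespace Pool.Agent.H587.PG

/-- critical gauge -/
noncomputable def gCrit (a θ : ℝ) (r : ENNReal) : ENNReal :=
  ENNReal.ofReal (r.toReal * Real.exp (a * Real.log (1 / r.toReal) ^ θ))

/-- the critical gauge -/
theorem part_crit (c c' a : ℝ) (hc1 : 1 < c) (hc2 : c < 2) (hc'0 : 0 ≤ c') (hc'1 : c' < 1) (ha : 0 < a)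
    (α γ : ℕ → ℝ) (hα : ∀ i, Dio' (α i) c') :
    Measure.mkMetric (gCrit a (2 - c)) {β : ℝ | β ∈ Set.Icc (0 : ℝ) 1 ∧ ∀ i, β ∈ Exc (fun t => t ^ c) (α i) (γ i)} = ⊤ := by
  choose κ hκ using fun i => dio_of (α i) c' hc'0 (hα i)
  apply top_of_cover
  intro A hA
  obtain ⟨n₁, hn₁⟩ := low_crit_c α γ κ c c' a A hκ hc1 hc2 hc'1 ha hA (gCrit a (2 - c)) (fun r _ _ => le_rfl)
  refine ⟨n₁, fun T h1 h2 => ?_⟩
  obtain ⟨x, hx0, hx1, hx2, hx3⟩ := hn₁ T h1 h2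
  exact ⟨x, ⟨⟨hx0, hx1⟩, fun i => exc_pow c (α i) (γ i) x (by linarith) (hx2 i)⟩, hx3⟩

end Pool.Agent.H587.PG
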